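import Mathlib
import Pool.Agent.Lib.P0c8ca5V.TDefs
import Pool.Agent.Lib.P0c8ca5V.ChOrb
import Pool.Agent.Lib.P0c8ca5V.CB

/-!
# Triples of group elements with `[a, b] c` in a given set

`S` is a set of elements of `A`, invariant under conjugation (`CInv S`), usually consisting of
nontrivial p-elements (`PSet p S`).

* `dS S m t`: the weight of the triple `t = (a, b, c)`, nonzero only if `[a, b] c ∈ S`.
* `bS p S U m`: the sum of `dS` over the triples in `U` generating a group that contains `O^p(U)`.
* `nS S H m`: the sum of `m c` over the triples in `H` with `[a, b] c ∈ S`.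
* `eS p S m`: the sum of `dS * fK` over all triples.
* `hI k S U`: the sum of the inverses of the elements of `S` in `U`; `rz U z`: the restriction of
  `z` to `U`.
* `chR p A`: representatives of the classes of the chains.
* `TS p S z`: the alternating sum over the representatives `σ` of the chains of the trace of
  `hI k S (sN σ) * rz (sN σ) z` on the class functions of `sN σ`.
-/

namespace Pool.Agent.Lib.P0c8ca5.Bw

open MonoidAlgebra

section
variable {A : Type*} [Group A]

/-- `S` is invariant under conjugation -/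
def CInv (S : Set A) : Prop := ∀ g u : A, g * u * g⁻¹ ∈ S ↔ u ∈ S

/-- `S` consists of nontrivial p-elements -/
def PSet (p : ℕ) (S : Set A) : Prop := ∀ u ∈ S, Pel p u ∧ u ≠ 1

open Classical in
/-- the weight of a triple, nonzero only if `[a, b] c ∈ S` -/
noncomputable def dS (S : Set A) (m : A → ℤ) (t : A × A × A) : ℤ :=
  if cmt t.1 t.2.1 * t.2.2 ∈ S then m t.2.2 else 0

open Classical in
/-- the sum of `dS` over the triples in `U` generating a group that contains `O^p(U)` -/
noncomputable def bS (p : ℕ) (S : Set A) (U : Subgroup A) (m : A → ℤ) : ℤ :=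
  ∑ᶠ t : A × A × A, if gen t ≤ U ∧ Opr p U ≤ gen t then dS S m t else 0

open Classical in
/-- triples `(a, b, c)` in `H` with `[a, b] c ∈ S`, weighted by `m c` -/
noncomputable def nS (S : Set A) (H : Subgroup A) (m : A → ℤ) : ℤ :=
  ∑ᶠ t : A × A × A, if (t.1 ∈ H ∧ t.2.1 ∈ H ∧ t.2.2 ∈ H) ∧ cmt t.1 t.2.1 * t.2.2 ∈ S
    then m t.2.2 else 0

/-- the sum of `dS * fK` -/
noncomputable def eS (p : ℕ) (S : Set A) (m : A → ℤ) : ℤ :=
  ∑ᶠ t : A × A × A, dS S m t * fK p (gen t)

open Classical in
/-- the sum of the inverses of the elements of `S` in `U` -/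
noncomputable def hI (k : Type*) [Field k] [Finite A] (S : Set A) (U : Subgroup A) :
    MonoidAlgebra k A :=
  MonoidAlgebra.ofCoeff (Finsupp.equivFunOnFinite.symm fun x =>
    if x⁻¹ ∈ S ∧ x ∈ U then (1 : k) else 0)

open Classical in
/-- the restriction of `z` to `U` -/
noncomputable def rz {k : Type*} [Field k] [Finite A] (U : Subgroup A) (z : MonoidAlgebra k A) :
    MonoidAlgebra k A :=
  MonoidAlgebra.ofCoeff (Finsupp.equivFunOnFinite.symm fun x => if x ∈ U then z.coeff x else 0)

open Classical in
theorem hI_coeff (k : Type*) [Field k] [Finite A] (S : Set A) (U : Subgroup A) (x : A) :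
    (hI k S U).coeff x = if x⁻¹ ∈ S ∧ x ∈ U then 1 else 0 := by
  unfold hI
  rw [coeff_ofCoeff, Finsupp.equivFunOnFinite_symm_apply_apply]

open Classical in
theorem rz_coeff {k : Type*} [Field k] [Finite A] (U : Subgroup A) (z : MonoidAlgebra k A) (x : A) :
    (rz U z).coeff x = if x ∈ U then z.coeff x else 0 := by
  unfold rz
  rw [coeff_ofCoeff, Finsupp.equivFunOnFinite_symm_apply_apply]

/-- representatives of the classes of the chains -/
noncomputable def chR (p : ℕ) (A : Type*) [Group A] [Finite A] : Finset (Finset (Subgroup A)) :=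
  (Set.toFinite {σ : Finset (Subgroup A) | IsCh p σ ∧
    (Quotient.mk (@MulAction.orbitRel A (Finset (Subgroup A)) _ ChOrbAux.actS) σ).out = σ}).toFinset

/-- the alternating sum of the traces -/
noncomputable def TS {k : Type*} [Field k] [Fintype A] (p : ℕ) (S : Set A) (z : MonoidAlgebra k A) :
    k :=
  ∑ σ ∈ chR p A, (-1) ^ σ.card * trE k (sN σ) (fun x => (hI k S (sN σ) * rz (sN σ) z).coeff x)

end

end Pool.Agent.Lib.P0c8ca5.Bw
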