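import Mathlib
import Pool.Agent.Lib.P0c8ca5A.DimR
import Pool.Agent.Lib.P0c8ca5P.FrH

/-!
# Du: the dual of a block

`du b` has the coefficients `x ↦ b.coeff x⁻¹`; it is an anti-automorphism of the group algebra.
PROOF. `du_mul`: coefficients, `coeff_mul_fin`. `du_block`: `du` maps `fixAlg k ⊤ ⊤` to itself, is multiplicative there (commutative), additive, an involution; primitivity (`prim` in `IsBlock`) by
applying `du` to the idempotents below.
`card_irr_du`: `lN_eq` (P0c8ca5A.DimR): `lN e = Module.finrank k (Wb p ⊤ e)`, `lN e = Nat.card (Quotient (irrInvSetoid ⊤ ⊤ e))` (`card_irr_eq`). The map `f ↦ (x ↦ f x⁻¹)` is a linear bijection from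
`Wb p ⊤ b` to `Wb p ⊤ (du b)`: it preserves `XH p k ⊤` (class functions with `f x = f (pr p x)`; `pr p x⁻¹ = (pr p x)⁻¹`), and
`conv (du b) f° x = ∑ h, b.coeff h⁻¹ * f ((h x)⁻¹) = ∑ h, b.coeff h * f (x⁻¹ h) = ∑ h, b.coeff h * f (h x⁻¹) = (conv b f) x⁻¹` (`f` is a class function).
-/

namespace Pool.Agent.Lib.P0c8ca5.Bw

open MonoidAlgebra

set_option linter.unusedSectionVars false

section
variable {k : Type*} [Field k] {A : Type*} [Group A] [Finite A]

/-- the dual element -/
noncomputable def du (b : MonoidAlgebra k A) : MonoidAlgebra k A :=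
  MonoidAlgebra.ofCoeff (Finsupp.equivFunOnFinite.symm fun x => b.coeff x⁻¹)

theorem coeff_du (b : MonoidAlgebra k A) (x : A) : (du b).coeff x = b.coeff x⁻¹ := rfl

theorem du_du (b : MonoidAlgebra k A) : du (du b) = b := by
  ext x
  rw [coeff_du, coeff_du, inv_inv]

theorem du_mul (a b : MonoidAlgebra k A) : du (a * b) = du b * du a := by
  classical
  have : Fintype A := Fintype.ofFinite A
  ext x
  rw [coeff_du, coeff_mul_fin, coeff_mul_fin]
  refine Fintype.sum_equiv (Equiv.mulLeft x) _ _ fun z => ?_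
  rw [coeff_du, coeff_du, Equiv.coe_mulLeft, mul_comm]
  congr 2
  · group
  · group

theorem du_block {b : MonoidAlgebra k A} (hb : IsBlock (⊤ : Subgroup A) b) :
    IsBlock (⊤ : Subgroup A) (du b) := by
  have hm : ∀ c : MonoidAlgebra k A, c ∈ fixAlg k (⊤ : Subgroup A) ⊤ →
      du c ∈ fixAlg k (⊤ : Subgroup A) ⊤ := by
    intro c hc
    rw [mem_fixAlg] at hc ⊢
    refine ⟨fun x _ => Subgroup.mem_top x, fun g hg x => ?_⟩
    rw [coeff_du, coeff_du, ← hc.2 g hg x⁻¹]
    congr 1
    group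
  have h0 : du (0 : MonoidAlgebra k A) = 0 := by
    ext x
    rw [coeff_du]
    simp
  refine ⟨hm b hb.mem, ?_, ?_, ?_⟩
  · rw [← du_mul, hb.idem]
  · intro h
    apply hb.ne_zero
    rw [← du_du b, h, h0]
  · intro f hf hff hfb
    have h1 : du f * du f = du f := by rw [← du_mul, hff]
    have h2 : du f * b = du f := by
      have h3 : b * du f = du f := by
        have := congrArg du hfb
        rw [du_mul, du_du] at this
        exact this
      have h4 : Commute b (du f) := commute_of (K := ⊤) (fun x _ => Subgroup.mem_top x)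
        (mem_fixAlg.1 (hm f hf)).2
      rw [← h4.eq, h3]
    rcases hb.prim (du f) (hm f hf) h1 h2 with h | h
    · left
      rw [← du_du f, h, h0]
    · right
      rw [← du_du f, h]

end

section
variable {p : ℕ} {k : Type*} [Field k] {A : Type*} [Group A] [Fintype A]
variable [Fact p.Prime] [CharP k p] [IsAlgClosed k]

theorem DuAux.wb_inv (b : MonoidAlgebra k A) (f : A → k) (hf : f ∈ Bq.RvBAux.Wb p (⊤ : Subgroup A) b) :
    (fun x => f x⁻¹) ∈ Bq.RvBAux.Wb p (⊤ : Subgroup A) (du b) := by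
  obtain ⟨⟨h1, h2, h3⟩, h4⟩ := hf
  refine ⟨⟨fun x hx => absurd (Subgroup.mem_top x) hx, fun h hh x => ?_, fun x hx => ?_⟩, ?_⟩
  · change f (h * x * h⁻¹)⁻¹ = f x⁻¹
    rw [← h2 h hh x⁻¹]
    congr 1
    group
  · change f (pr p x)⁻¹ = f x⁻¹
    rw [← h3 x⁻¹ (Subgroup.mem_top _)]
    congr 1
    unfold pr
    rw [inv_pow]
  · funext x
    change ∑ h : A, (du b).coeff h * f (h * x)⁻¹ = f x⁻¹
    have h5 := congrFun h4 x⁻¹
    rw [← h5]
    change _ = ∑ h : A, b.coeff h * f (h * x⁻¹)
    refine Fintype.sum_equiv (Equiv.inv A) _ _ fun h => ?_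
    rw [coeff_du, Equiv.inv_apply]
    congr 1
    rw [← h2 h⁻¹ (Subgroup.mem_top _) (h * x)⁻¹]
    congr 1
    group

theorem card_irr_du (p : ℕ) [Fact p.Prime] [CharP k p] {b : MonoidAlgebra k A}
    (hb : IsBlock (⊤ : Subgroup A) b) :
    Nat.card (Quotient (irrInvSetoid (⊤ : Subgroup A) ⊥ (du b)))
      = Nat.card (Quotient (irrInvSetoid (⊤ : Subgroup A) ⊥ b)) := by
  have hb' := du_block hb
  rw [← Wr.lN_bot hb.mem hb.idem, ← Wr.lN_bot hb'.mem hb'.idem, Wr.lN_eq (p := p) hb.mem hb.idem,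
    Wr.lN_eq (p := p) hb'.mem hb'.idem]
  exact LinearEquiv.finrank_eq
    { toFun := fun f => ⟨fun x => f.1 x⁻¹, by
        have := DuAux.wb_inv (p := p) (du b) f.1 f.2
        rw [du_du] at this
        exact this⟩
      map_add' := fun _ _ => rfl
      map_smul' := fun _ _ => rfl
      invFun := fun f => ⟨fun x => f.1 x⁻¹, DuAux.wb_inv (p := p) b f.1 f.2⟩
      left_inv := fun f => Subtype.ext (funext fun x => by
        change f.1 x⁻¹⁻¹ = f.1 x
        rw [inv_inv])
      right_inv := fun f => Subtype.ext (funext fun x => by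
        change f.1 x⁻¹⁻¹ = f.1 x
        rw [inv_inv]) }

end

end Pool.Agent.Lib.P0c8ca5.Bw
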