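import Mathlib
import Pool.Agent.Lib.P0c8ca5Bw.Du

/-!
# DuB: the weights of the dual of a block

PROOF. `Ws_du`: all `Q`: the factor `|N(Q)|` is the same; `f ↦ du f` is a bijection from `{f | IsDZ p (sec ⊤ Q) f ∧ f * proj Q b = f}` to the same set for `du b`: `sec ⊤ Q = ⊤` (`TFinAux.sec_top` or
`YTwAux.sec_top`), `proj Q (du b) = du (proj Q b)` (`coeff_proj`: the lifts of `w⁻¹` are the inverses of the lifts of `w`), `IsDZ p ⊤ f → IsDZ p ⊤ (du f)` (`du_block`; `HasBr P (du f) ↔ HasBr P f`,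
inverses), `du (f * c) = du c * du f = du f * du c` (central).
-/

namespace Pool.Agent.Lib.P0c8ca5.Bw

open MonoidAlgebra

set_option linter.unusedSectionVars false

variable {p : ℕ} {k : Type*} [Field k] {A : Type*} [Group A] [Fintype A]
variable [Fact p.Prime] [CharP k p] [IsAlgClosed k]

namespace DuBAux

theorem sec_top' {A : Type*} [Group A] (R : Subgroup A) : sec (⊤ : Subgroup A) R = ⊤ := by
  ext w
  obtain ⟨x, hx, rfl⟩ := qm_surj w
  exact ⟨fun _ => Subgroup.mem_top _, fun _ => qm_mem_sec _ (Subgroup.mem_top _)⟩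

theorem proj_du (Q : Subgroup A) (b : MonoidAlgebra k A) : proj Q (du b) = du (proj Q b) := by
  classical
  ext w
  obtain ⟨n, hn, rfl⟩ := qm_surj w
  have hn' : n⁻¹ ∈ Subgroup.normalizer (Q : Set A) := (Subgroup.normalizer (Q : Set A)).inv_mem hn
  have h1 : (qm Q n hn)⁻¹ = qm Q n⁻¹ hn' := rfl
  rw [coeff_du, h1, coeff_proj, coeff_proj]
  refine Fintype.sum_equiv (Equiv.inv A) _ _ ?_
  intro x
  have h2 : n⁻¹ * x ∈ Q ↔ n⁻¹⁻¹ * (Equiv.inv A x) ∈ Q := by
    rw [inv_inv, Equiv.inv_apply, ← Q.inv_mem_iff (x := n * x⁻¹), mul_inv_rev, inv_inv,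
      Subgroup.mem_normalizer_iff.1 hn (n⁻¹ * x)]
    have e : n * (n⁻¹ * x) * n⁻¹ = x * n⁻¹ := by group
    rw [e]
  by_cases h : n⁻¹ * x ∈ Q
  · rw [if_pos h, if_pos (h2.1 h)]
    rfl
  · rw [if_neg h, if_neg (fun h' => h (h2.2 h'))]

theorem isDZ_du {B : Type*} [Group B] [Finite B] {f : MonoidAlgebra k B}
    (hf : IsDZ p (⊤ : Subgroup B) f) : IsDZ p (⊤ : Subgroup B) (du f) := by
  refine ⟨du_block hf.blk, ?_⟩
  rintro P hP hpP ⟨x, hx, hx'⟩
  refine hf.dz P hP hpP ⟨x⁻¹, ?_, ?_⟩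
  · exact (Subgroup.centralizer (P : Set B)).inv_mem hx
  · rwa [coeff_du] at hx'

theorem mul_du {B : Type*} [Group B] [Finite B] {f c : MonoidAlgebra k B}
    (hf : IsBlock (⊤ : Subgroup B) f) (h : f * c = f) : du f * du c = du f := by
  rw [← du_mul]
  have hc : Commute c f := commute_of (K := ⊤) (fun _ _ => Subgroup.mem_top _) (mem_fixAlg.1 hf.mem).2
  rw [hc.eq, h]

theorem card_le (Q : Subgroup A) (b : MonoidAlgebra k A) :
    (fun f : MonoidAlgebra k (NQ Q) => du f) '' {f | IsDZ p (sec (⊤ : Subgroup A) Q) f ∧ f * proj Q b = f} =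
    {f | IsDZ p (sec (⊤ : Subgroup A) Q) f ∧ f * proj Q (du b) = f} := by
  rw [sec_top', proj_du]
  ext f
  constructor
  · rintro ⟨g, ⟨hg, hg'⟩, rfl⟩
    exact ⟨isDZ_du hg, mul_du hg.blk hg'⟩
  · rintro ⟨hf, hf'⟩
    refine ⟨du f, ⟨isDZ_du hf, ?_⟩, du_du f⟩
    have := mul_du hf.blk hf'
    rwa [du_du] at this

end DuBAux

open DuBAux

theorem Ws_du {b : MonoidAlgebra k A} (hb : IsBlock (⊤ : Subgroup A) b) :
    Fr.Ws p (⊤ : Subgroup A) (du b) = Fr.Ws p (⊤ : Subgroup A) b := by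
  unfold Fr.Ws
  refine Finset.sum_congr rfl ?_
  intro Q _
  congr 1
  rw [← card_le (p := p) Q b]
  exact Nat.card_image_of_injective (fun x y h => by
    have h' := congrArg du h
    simpa only [du_du] using h') _

end Pool.Agent.Lib.P0c8ca5.Bw
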