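import Mathlib
import Pool.Agent.Lib.P0c8ca5N.Gap
import Pool.Agent.Lib.P0c8ca5P.FrH

/-!
# GapW: the gap in terms of `Ws`; the gap and the stabilizer

PROOF of `gap_Ws`. `gap_eq` (P0c8ca5N.Gap) for `G = X = H` with a transversal `T` (`exists_transversal H (Theta p H H b)`), `sum_DZ_eq` (P0c8ca5N.WSum) with
`D = Finset.univ.filter (fun Q => Q ≤ H ∧ IsPGroup p Q)` (so the right side is `Ws p H b`), `card_irr_eq` (P0c8ca5.MainA). Cast to `ℚ`. (See the end of the proof of `navarro_stab`, P0c8ca5P.FrH.)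
PROOF of `gap_stab`. Copy the proof of `navarro_stab` (P0c8ca5P.FrH) up to `hirr`: `hA : Nat.card A = |ι| * Nat.card Y`, `hW : Ws p ⊤ b = |ι| * Ws p Y (b * c)`,
`hirr`. By `gap_Ws` for `⊤` and `Y`: `|A| * gap ⊤ ⊤ b = |A| l - |ι| Ws p Y (b * c) = |ι| (|Y| l - Ws p Y (b * c)) = |ι| |Y| gap Y Y (b * c)`; cancel `|A| ≠ 0`.
-/

namespace Pool.Agent.Lib.P0c8ca5.Bw

open MonoidAlgebra Fr

set_option linter.unusedSectionVars false

variable {p : ℕ} {k : Type*} [Field k] {A : Type*} [Group A] [Fintype A]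
variable [Fact p.Prime] [CharP k p] [IsAlgClosed k]

theorem gap_Ws {H : Subgroup A} {b : MonoidAlgebra k A} (hb : IsBlock H b) :
    (Nat.card H : ℚ) * gap p H H b
      = (Nat.card H : ℚ) * (Nat.card (Quotient (irrInvSetoid H ⊥ b)) : ℚ) - (Ws p H b : ℚ) := by
  classical
  obtain ⟨T, hT1, hT2⟩ := exists_transversal H (Theta p H H b)
  have h1 := gap_eq (p := p) (le_refl H) Subgroup.le_normalizer
    (fun x hx => ⟨0, by simpa using hx⟩) hb hb.invBy T hT1 hT2
  have h2 := sum_DZ_eq (p := p) hb T hT1 hT2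
    (Finset.univ.filter (fun Q : Subgroup A => Q ≤ H ∧ IsPGroup p Q)) (fun R => by simp)
  have h3 : Nat.card H * ∑ Q ∈ T, Nat.card (DZ p H b Q) = Ws p H b := h2
  rw [h1, card_irr_eq, mul_sub, ← h3]
  push_cast
  ring

open FrHAux in
theorem gap_stab {N Y : Subgroup A} (hN : N.Normal) {b c : MonoidAlgebra k A}
    (hb : IsBlock (⊤ : Subgroup A) b) (hc : IsBlock N c) (hbc : b * c ≠ 0)
    (hY : ∀ g, g ∈ Y ↔ cj g c = c) :
    gap p (⊤ : Subgroup A) ⊤ b = gap p Y Y (b * c) := by
  classical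
  have := fin hN hc
  have : Fintype (Cj c) := Fintype.ofFinite _
  have hfam := fam hN hc
  have hblk : IsBlock Y (b * c) := isBlock_stab (p := p) hN hb hc hbc hY
  have hfam' : Fam (PhiC c) (fun x : Cj c => b * x.1) := hfam.mulL hb.mem hb.idem
  -- the sum of the family
  have hsum : ∑ x : Cj c, b * x.1 = b := by
    rw [← Finset.mul_sum]
    have h2 := hb.mul_eq hfam.sum_mem hfam.sum_idem
    rw [← comm_top hb.mem] at h2
    rcases h2 with h2 | h2
    · exfalso
      apply hbc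
      have h3 := hfam.sum_mul (base c)
      change (∑ j : Cj c, j.1) * c = c at h3
      rw [← h3, ← mul_assoc, h2, zero_mul]
    · exact h2
  -- all terms are equal
  have hterm : ∀ x : Cj c, Ws p (St (PhiC c) x) (b * x.1) = Ws p Y (b * c) := by
    intro x
    obtain ⟨g, rfl⟩ := exists_base x
    rw [St_apply, St_base hY, PhiC_apply]
    change Ws p (cg g Y) (b * cj g c) = _
    have h2 : b * cj g c = cj g (b * c) := by rw [cj_mul, cj_top hb.mem]
    rw [h2, Ws_cg hblk.suppIn]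
  have hcard : ∀ x : Cj c, Nat.card (St (PhiC c) x) = Nat.card Y := by
    intro x
    obtain ⟨g, rfl⟩ := exists_base x
    rw [St_apply, St_base hY, card_cg]
  have hA : Nat.card A = Fintype.card (Cj c) * Nat.card Y := by
    have h2 := FrCAux.sum_St (PhiC c) (base c) Finset.univ (fun x => by
      simp only [Finset.mem_univ, true_iff]
      exact exists_base x)
    rw [← h2, Finset.sum_congr rfl (fun x _ => hcard x), Finset.sum_const, Finset.card_univ,
      smul_eq_mul]
  have hW : Ws p (⊤ : Subgroup A) b = Fintype.card (Cj c) * Ws p Y (b * c) := by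
    have h2 := hfam'.Ws_sum (p := p)
    rw [hsum, Finset.sum_congr rfl (fun x _ => hterm x), Finset.sum_const, Finset.card_univ,
      smul_eq_mul] at h2
    exact h2
  have hirr : Nat.card (Quotient (irrInvSetoid (⊤ : Subgroup A) ⊥ b))
      = Nat.card (Quotient (irrInvSetoid Y ⊥ (b * c))) := by
    have h2 := hfam.card_irr_mul hb (i := base c) hbc
    rw [St_base hY] at h2
    exact h2
  have h1 := gap_Ws (p := p) hb
  have h2 := gap_Ws (p := p) hblk
  have h4 : Nat.card (⊤ : Subgroup A) = Nat.card A := Subgroup.card_top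
  rw [h4, hirr, hW, hA] at h1
  push_cast at h1
  have hι : (Fintype.card (Cj c) : ℚ) ≠ 0 := by
    have : 0 < Fintype.card (Cj c) := Fintype.card_pos_iff.2 ⟨base c⟩
    exact_mod_cast this.ne'
  have hYp : (Nat.card Y : ℚ) ≠ 0 := by
    have : 0 < Nat.card Y := Nat.card_pos
    exact_mod_cast this.ne'
  have h5 : (Fintype.card (Cj c) : ℚ) * (Nat.card Y : ℚ) * gap p (⊤ : Subgroup A) ⊤ b
      = (Fintype.card (Cj c) : ℚ) * (Nat.card Y : ℚ) * gap p Y Y (b * c) := by
    rw [mul_assoc (Fintype.card (Cj c) : ℚ) (Nat.card Y : ℚ) (gap p Y Y (b * c)), h2, h1]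
    ring
  exact mul_left_cancel₀ (mul_ne_zero hι hYp) h5

end Pool.Agent.Lib.P0c8ca5.Bw
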