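import Mathlib
import Pool.Agent.Lib.P0c8ca5O.YTw
import Pool.Agent.Lib.P0c8ca5O.IrB
import Pool.Agent.Lib.P0c8ca5P.FrH

/-!
# The element `b 1 ⊗ ⋯ ⊗ b p` of the group algebra of the wreath product
-/

namespace Pool.Agent.Lib.P0c8ca5.Wr

open MonoidAlgebra

set_option linter.unusedSectionVars false

section
variable {p : ℕ} [Fact p.Prime] {k : Type*} [Field k] {G : Type*} [Group G] [Finite G]

/-- the element `b 1 ⊗ ⋯ ⊗ b p` -/
noncomputable def elF (p : ℕ) [Fact p.Prime] (b : Cp p → MonoidAlgebra k G) :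
    MonoidAlgebra k (WG p G) :=
  MonoidAlgebra.ofCoeff (Finsupp.equivFunOnFinite.symm (tn fun q => (b q).coeff))

theorem coeff_elF (b : Cp p → MonoidAlgebra k G) (x : WG p G) :
    (elF p b).coeff x = tn (fun q => (b q).coeff) x := rfl

theorem elF_eq_tr (b : Cp p → MonoidAlgebra k G) :
    elF p b = tr (BlkEAux.ps1 p G) (pt b) := by
  ext x
  by_cases hx : x ∈ bs p G
  · rw [coeff_tr' (BlkEAux.ps1 p G) _ hx, coeff_pt, coeff_elF, tn_of (mem_bs.1 hx)]
    rfl
  · rw [coeff_tr_of_notMem _ _ hx, coeff_elF, tn_not (fun h => hx (mem_bs.2 h))]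

theorem isBlock_elF [IsAlgClosed k] {b : Cp p → MonoidAlgebra k G}
    (hb : ∀ q, IsBlock (⊤ : Subgroup G) (b q)) : IsBlock (bs p G) (elF p b) := by
  rw [elF_eq_tr]
  exact tr_isBlock _ (isBlock_pt hb)

theorem elF_suppIn (b : Cp p → MonoidAlgebra k G) : SuppIn (bs p G) (elF p b) := by
  intro x hx
  rw [mem_bs]
  by_contra h
  exact hx (by rw [coeff_elF, tn_not h])

/-- conjugation permutes the factors -/
theorem cj_elF {b : Cp p → MonoidAlgebra k G} (hb : ∀ q, InvBy (⊤ : Subgroup G) (b q))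
    (a : WG p G) : cj a (elF p b) = elF p (fun q => b (a.right⁻¹ * q)) := by
  ext x
  rw [coeff_cj, coeff_elF, tn_conj, coeff_elF]
  congr 1
  funext q y
  have h1 := hb (a.right⁻¹ * q) (a.left q)⁻¹ (Subgroup.mem_top _) y
  rw [inv_inv] at h1
  exact h1

/-- the dual element -/
theorem elF_dual (b b' : Cp p → MonoidAlgebra k G) (h : ∀ q x, (b' q).coeff x = (b q).coeff x⁻¹)
    (x : WG p G) (hx : x.right = 1) : (elF p b').coeff x = (elF p b).coeff x⁻¹ := by
  have h1 : (x⁻¹).right = 1 := by rw [RegularWreathProduct.inv_right, hx, inv_one]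
  rw [coeff_elF, coeff_elF, tn_of hx, tn_of h1]
  refine Finset.prod_congr rfl fun q _ => ?_
  have h2 : (x⁻¹).left q = (x.left q)⁻¹ := by
    change (x.left (x.right * q))⁻¹ = _
    rw [hx, one_mul]
  rw [h2, h q]

end

section
variable {p : ℕ} [Fact p.Prime] {k : Type*} [Field k] {G : Type*} [Group G] [Finite G]
  {R : Cp p → Subgroup G}
  {ψ : ↥(⊤ : Subgroup (∀ q, NQ (R q))) ≃* ↥(sec (bs p G) (ps R))}

open SecWAux

theorem proj_elF (hψ : IsSE R ψ) (b : Cp p → MonoidAlgebra k G) :
    proj (ps R) (elF p b) = tr ψ (pt (fun q => proj (R q) (b q))) := by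
  classical
  haveI : Fintype G := Fintype.ofFinite G
  haveI : Finite (WG p G) := Finite.of_equiv _ (RegularWreathProduct.equivProd G (Cp p)).symm
  haveI : Fintype (WG p G) := Fintype.ofFinite _
  ext w
  obtain ⟨n, hn, rfl⟩ := qm_surj w
  rw [coeff_proj]
  by_cases hr : n.right = 1
  · have h := (mem_norm_ps hr).1 hn
    rw [coeff_tr_pt hψ _ hn hr h]
    have h1 : ∀ q, (proj (R q) (b q)).coeff (qm (R q) (n.left q) (h q)) =
        ∑ y ∈ (Finset.univ : Finset G), if (n.left q)⁻¹ * y ∈ R q then (b q).coeff y else 0 :=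
      fun q => coeff_proj (b q) (h q)
    rw [Finset.prod_congr rfl fun q _ => h1 q,
      Finset.prod_univ_sum (fun _ : Cp p => (Finset.univ : Finset G))
        (fun q y => if (n.left q)⁻¹ * y ∈ R q then (b q).coeff y else 0), Fintype.piFinset_univ]
    symm
    refine Finset.sum_of_injOn (fun y : Cp p → G => (⟨y, 1⟩ : WG p G)) ?_ ?_ ?_ ?_
    · intro y _ z _ hyz
      exact congrArg RegularWreathProduct.left hyz
    · intro y _
      exact Finset.mem_coe.2 (Finset.mem_univ _)
    · intro x _ hx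
      rw [if_neg]
      intro h2
      apply hx
      have h3 := (mem_ps.1 h2).1
      rw [RegularWreathProduct.mul_right, inv_right' hr, one_mul] at h3
      exact ⟨x.left, Finset.mem_coe.2 (Finset.mem_univ _), RegularWreathProduct.ext rfl h3.symm⟩
    · intro y _
      rw [Finset.prod_ite_zero, coeff_elF, tn_of rfl]
      by_cases h2 : ∀ q, (n.left q)⁻¹ * y q ∈ R q
      · rw [if_pos fun q _ => h2 q, if_pos ((inv_mul_mem hr y).2 h2)]
      · rw [if_neg fun h3 => h2 fun q => h3 q (Finset.mem_univ q),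
          if_neg fun h3 => h2 ((inv_mul_mem hr y).1 h3)]
  · rw [coeff_tr_of_notMem ψ _ fun h => hr (mem_bs.1 ((qm_mem_sec_iff (ps_le R)).1 h))]
    refine Finset.sum_eq_zero fun x _ => ?_
    by_cases h2 : n⁻¹ * x ∈ ps R
    · rw [if_pos h2, coeff_elF, tn_not]
      intro h3
      have h4 := (mem_ps.1 h2).1
      rw [RegularWreathProduct.mul_right, h3, mul_one, RegularWreathProduct.inv_right,
        inv_eq_one] at h4
      exact hr h4
    · rw [if_neg h2]

end

section
variable {p : ℕ} [Fact p.Prime] {k : Type*} [Field k] {G : Type*} [Group G] [Fintype G]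
  [Fintype (WG p G)]

theorem conv_tnF (b : Cp p → MonoidAlgebra k G) (f : Cp p → G → k) :
    conv (elF p b) (tn f) = tn (fun q => conv (b q) (f q)) := by
  classical
  funext x
  change ∑ h : WG p G, (elF p b).coeff h * tn f (h * x) = _
  by_cases hx : x.right = 1
  · rw [tn_of hx]
    change _ = ∏ q, ∑ g : G, (b q).coeff g * f q (g * x.left q)
    rw [Finset.prod_univ_sum, Fintype.piFinset_univ]
    symm
    refine Fintype.sum_of_injective (fun g : Cp p → G => (⟨g, 1⟩ : WG p G)) ?_ _ _ ?_ ?_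
    · intro g g' h
      exact congrArg (fun z : WG p G => z.left) h
    · intro h hh
      have h1 : h.right ≠ 1 := by
        intro h1
        apply hh
        refine ⟨h.left, ?_⟩
        exact RegularWreathProduct.ext rfl h1.symm
      rw [coeff_elF, tn_not h1, zero_mul]
    · intro g
      have h1 : ((⟨g, 1⟩ : WG p G) * x).right = 1 := by
        rw [RegularWreathProduct.mul_right, hx, mul_one]
      rw [coeff_elF, tn_of rfl, tn_of h1, ← Finset.prod_mul_distrib]
      refine Finset.prod_congr rfl fun q _ => ?_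
      have h2 : ((⟨g, 1⟩ : WG p G) * x).left q = g q * x.left q := by
        rw [RegularWreathProduct.mul_left, Pi.mul_apply, inv_one, one_mul]
      rw [h2]
  · rw [tn_not hx]
    refine Finset.sum_eq_zero fun h _ => ?_
    rw [coeff_elF]
    by_cases hh : h.right = 1
    · have h1 : (h * x).right ≠ 1 := by
        rw [RegularWreathProduct.mul_right, hh, one_mul]
        exact hx
      rw [tn_not h1, mul_zero]
    · rw [tn_not hh, zero_mul]

/-- the irreducible characters of the base group in `b 1 ⊗ ⋯ ⊗ b p` -/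
theorem exists_equivIF [IsAlgClosed k] [CharP k p] {b : Cp p → MonoidAlgebra k G}
    (hb : ∀ q, InvBy (⊤ : Subgroup G) (b q)) (hbb : ∀ q, b q * b q = b q) :
    ∃ Φ : (∀ q : Cp p, ↥(Ich (⊤ : Subgroup G) (b q))) ≃ ↥(Ich (bs p G) (elF p b)),
      ∀ t, (Φ t).1 = tn fun q => (t q).1 := by
  have hmem : ∀ t : ∀ q : Cp p, ↥(Ich (⊤ : Subgroup G) (b q)),
      (tn fun q => (t q).1) ∈ Ich (bs p G) (elF p b) := by
    intro t
    refine ⟨tn_mem_IrrCh fun q => (t q).2.1, ?_⟩
    rw [conv_tnF]
    congr 1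
    funext q
    exact (t q).2.2
  have hbij : Function.Bijective
      (fun t : ∀ q : Cp p, ↥(Ich (⊤ : Subgroup G) (b q)) =>
        (⟨tn fun q => (t q).1, hmem t⟩ : ↥(Ich (bs p G) (elF p b)))) := by
    constructor
    · intro t t' h
      have h1 : (tn fun q => (t q).1) = tn fun q => (t' q).1 := congrArg Subtype.val h
      have h2 := tn_inj (fun q => (t q).2.1) (fun q => (t' q).2.1) h1
      funext q
      exact Subtype.ext (congrFun h2 q)
    · rintro ⟨η, hη1, hη2⟩
      obtain ⟨χ, hχ, rfl⟩ := exists_tn_of_mem hη1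
      have hne : tn χ ≠ 0 :=
        (chi_linearIndependent (k := k) (bs p G)).ne_zero
          (⟨tn χ, tn_mem_IrrCh hχ⟩ : IrrCh k (bs p G))
      have hall : ∀ q, conv (b q) (χ q) = χ q := by
        intro q
        by_contra hq
        have h0 : conv (b q) (χ q) = 0 :=
          conv_eq_zero_of_ne (N := (⊤ : Subgroup G)) (fun x _ => Subgroup.mem_top x) (hb q) (hbb q)
            (⟨χ q, hχ q⟩ : IrrCh k (⊤ : Subgroup G)) hq
        apply hne
        rw [← hη2, conv_tnF]
        funext x
        by_cases hx : x.right = 1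
        · rw [tn_of hx]
          refine Finset.prod_eq_zero (Finset.mem_univ q) ?_
          rw [h0]
          rfl
        · rw [tn_not hx]
          rfl
      exact ⟨fun q => ⟨χ q, hχ q, hall q⟩, rfl⟩
  exact ⟨Equiv.ofBijective _ hbij, fun t => rfl⟩

end

end Pool.Agent.Lib.P0c8ca5.Wr
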