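import Mathlib
import Pool.Agent.Lib.P0c8ca5Bw.ElF

/-!
# WsFa: blocks of defect zero of the sections of the base group at a product of subgroups

PROOF (as YTwAux in P0c8ca5O.YTw). Take `ψ` from `exists_secEquiv R` (P0c8ca5O.SecW). The map `φ ↦ tr ψ (pt φ)` is a bijection from the families `φ q` in
`{f | IsDZ p (sec ⊤ (R q)) f ∧ f * proj (R q) (b q) = f}` (`YTwAux.sec_top`: `sec ⊤ (R q) = ⊤`) onto the set on the left: `isDZ_pt`, `tr_isDZ`; the condition on the product: `proj_elF hψ`,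
`tr_mul`, `pt_mul_eq_iff` (as `YTwAux.mul_iff`; `proj (R q) (b q)` is idempotent: `proj_idem`); injective: `tr_injOn`, `pt_idem_inj`; surjective: `exists_pt_of_isDZ (tr_isDZ ψ.symm hΦ)`,
`tr_tr_symm`. Then `Nat.card_congr` and `Nat.card_pi`.
`card_normF`: `x ↦ x.left` is a bijection from `bs p G ⊓ normalizer (ps R)` to the families of elements of the normalizers (`mem_norm_ps`, P0c8ca5O.SecW); `Nat.card_pi`.
-/

namespace Pool.Agent.Lib.P0c8ca5.Wr

open MonoidAlgebra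

set_option linter.unusedSectionVars false

variable {p : ℕ} [Fact p.Prime] {k : Type*} [Field k] [IsAlgClosed k] [CharP k p] {G : Type*}
  [Group G] [Finite G]

namespace Bw.WsFaAux

theorem mul_iffF {b : Cp p → MonoidAlgebra k G} (hb : ∀ q, IsBlock (⊤ : Subgroup G) (b q))
    {R : Cp p → Subgroup G} (hR : ∀ q, IsPGroup p (R q))
    {ψ : ↥(⊤ : Subgroup (∀ q, NQ (R q))) ≃* ↥(sec (bs p G) (ps R))} (hψ : IsSE R ψ)
    {φ : ∀ q, MonoidAlgebra k (NQ (R q))} (hφ : ∀ q, φ q ≠ 0) :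
    tr ψ (pt φ) * proj (ps R) (elF p b) = tr ψ (pt φ) ↔
      ∀ q, φ q * proj (R q) (b q) = φ q := by
  have _ := Fintype.ofFinite G
  have hc : ∀ q, proj (R q) (b q) * proj (R q) (b q) = proj (R q) (b q) :=
    fun q => proj_idem (hb q).invBy (hb q).idem (hR q)
  rw [proj_elF hψ, ← tr_mul ψ (YTwAux.suppIn_top _) (YTwAux.suppIn_top _),
    ← pt_mul_eq_iff hφ hc]
  exact ⟨fun h => tr_injOn ψ (YTwAux.suppIn_top _) (YTwAux.suppIn_top _) h, fun h => by rw [h]⟩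

end Bw.WsFaAux

open Bw.WsFaAux YTwAux

theorem card_dzF {b : Cp p → MonoidAlgebra k G} (hb : ∀ q, IsBlock (⊤ : Subgroup G) (b q))
    {R : Cp p → Subgroup G} (hR : ∀ q, IsPGroup p (R q)) :
    Nat.card {f : MonoidAlgebra k (NQ (ps R)) | IsDZ p (sec (bs p G) (ps R)) f ∧
        f * proj (ps R) (elF p b) = f}
      = ∏ q, Nat.card {f : MonoidAlgebra k (NQ (R q)) | IsDZ p (sec (⊤ : Subgroup G) (R q)) f ∧
        f * proj (R q) (b q) = f} := by
  obtain ⟨ψ, hψ⟩ := exists_secEquiv R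
  have hmem : ∀ t : ∀ q, ↥{f : MonoidAlgebra k (NQ (R q)) |
      IsDZ p (sec (⊤ : Subgroup G) (R q)) f ∧ f * proj (R q) (b q) = f},
      IsDZ p (sec (bs p G) (ps R)) (tr ψ (pt fun q => (t q).1)) ∧
        tr ψ (pt fun q => (t q).1) * proj (ps R) (elF p b) = tr ψ (pt fun q => (t q).1) := by
    intro t
    have hφ' : ∀ q, IsDZ p (⊤ : Subgroup (NQ (R q))) (t q).1 := fun q => by
      rw [← sec_top (R q)]
      exact (t q).2.1
    exact ⟨tr_isDZ ψ (isDZ_pt hφ'),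
      (mul_iffF hb hR hψ fun q => (hφ' q).blk.ne_zero).2 fun q => (t q).2.2⟩
  rw [← Nat.card_pi]
  symm
  refine Nat.card_congr (Equiv.ofBijective
    (fun t => ⟨tr ψ (pt fun q => (t q).1), hmem t⟩) ⟨fun t t' h => ?_, ?_⟩)
  · have h1 : tr ψ (pt fun q => (t q).1) = tr ψ (pt fun q => (t' q).1) := congrArg Subtype.val h
    have h2 := tr_injOn ψ (suppIn_top _) (suppIn_top _) h1
    have h3 := pt_idem_inj h2 (fun q => (t q).2.1.blk.idem) (fun q => (t' q).2.1.blk.idem)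
      (fun q => (t' q).2.1.blk.ne_zero)
    funext q
    exact Subtype.ext (congrFun h3 q)
  · rintro ⟨Φ, hΦ, hΦb⟩
    obtain ⟨φ, hφ, hφ2⟩ := exists_pt_of_isDZ (tr_isDZ ψ.symm hΦ)
    have hΦ2 : Φ = tr ψ (pt φ) := by rw [← hφ2, tr_tr_symm ψ hΦ.blk.suppIn]
    subst hΦ2
    have h1 : ∀ q, φ q * proj (R q) (b q) = φ q :=
      (mul_iffF hb hR hψ fun q => (hφ q).blk.ne_zero).1 hΦb
    exact ⟨fun q => ⟨φ q, by rw [sec_top]; exact hφ q, h1 q⟩, rfl⟩

theorem card_normF (R : Cp p → Subgroup G) :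
    Nat.card ↥(bs p G ⊓ Subgroup.normalizer (ps R : Set (WG p G)))
      = ∏ q, Nat.card ↥((⊤ : Subgroup G) ⊓ Subgroup.normalizer (R q : Set G)) := by
  rw [← Nat.card_pi]
  refine Nat.card_congr (Equiv.ofBijective
    (fun x q => ⟨x.1.left q, Subgroup.mem_top _,
      (mem_norm_ps (mem_bs.1 x.2.1)).1 x.2.2 q⟩) ⟨fun x y h => ?_, fun t => ?_⟩)
  · apply Subtype.ext
    refine RegularWreathProduct.ext ?_ ?_
    · funext q
      exact congrArg Subtype.val (congrFun h q)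
    · rw [mem_bs.1 x.2.1, mem_bs.1 y.2.1]
  · refine ⟨⟨⟨fun q => (t q).1, 1⟩, mem_bs.2 rfl,
      (mem_norm_ps (R := R) rfl).2 fun q => (t q).2.2⟩, ?_⟩
    rfl

end Pool.Agent.Lib.P0c8ca5.Wr
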