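import Mathlib
import Pool.Agent.Lib.P0c8ca5Bw.WsFa

/-!
# WsFb: the weights of the base group in `b 1 ⊗ ⋯ ⊗ b p`

`Fr.Ws p K c` (P0c8ca5P.Fam) `= ∑ Q ≤ K p-subgroup, |K ⊓ N(Q)| * #{f | IsDZ p (sec K Q) f ∧ f * proj Q c = f}`.
PROOF. Only `Q = ps R` contributes (`exists_ps_of_isDZ`, P0c8ca5O.RadW: if `Q` is not of this form, there is no block of defect zero, the factor is `Nat.card` of an empty set); `R ↦ ps R` is
injective (`YTwAux.ps_inj`), `ps R` is a p-group iff all `R q` are (`isPGroup_ps`, `isPGroup_of_ps`), `ps_le R`. So the sum is the sum over the families `R` in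
`Fintype.piFinset (fun _ => P)`, `P` the p-subgroups of `G`, of the product over `q` (`card_normF`, `card_dzF`); `Finset.prod_univ_sum`.
`card_bsF`: `x ↦ x.left` is a bijection from the base group to `Cp p → G` (`RegularWreathProduct.equivProd`, or `BlkEAux.ps1`), `|Cp p| = p`.
`card_irrF`: `card_irr_inv` (P0c8ca5N.ChD) for `X = ⊥`: the left side is `Nat.card ↥(Ich (bs p G) (elF p b))` and the factors are `Nat.card ↥(Ich ⊤ (b q))`; `exists_equivIF` (ElF), `Nat.card_pi`.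
-/

namespace Pool.Agent.Lib.P0c8ca5.Wr

open MonoidAlgebra

set_option linter.unusedSectionVars false

variable {p : ℕ} [Fact p.Prime] {k : Type*} [Field k] [IsAlgClosed k] [CharP k p] {G : Type*}
  [Group G]

namespace WsFbAux

theorem card_ich {k : Type*} [Field k] [IsAlgClosed k] {A : Type*} [Group A] [Fintype A]
    {N : Subgroup A} {e : MonoidAlgebra k A} (he : SuppIn N e) (hinv : InvBy N e)
    (hee : e * e = e) :
    Nat.card (Quotient (irrInvSetoid N ⊥ e)) = Nat.card ↥(Ich N e) := by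
  rw [card_irr_inv (X := ⊥) bot_le he hinv hee]
  refine Nat.card_congr ⟨fun χ => ⟨χ.1.1, χ.1.2, χ.2.1⟩, fun χ => ⟨⟨χ.1, χ.2.1⟩, χ.2.2, ?_⟩,
    fun χ => rfl, fun χ => rfl⟩
  intro h hh x
  rw [Subgroup.mem_bot] at hh
  rw [hh, one_mul, inv_one, mul_one]

end WsFbAux

theorem Ws_elF [Fintype G] [Fintype (WG p G)] {b : Cp p → MonoidAlgebra k G}
    (hb : ∀ q, IsBlock (⊤ : Subgroup G) (b q)) :
    Fr.Ws p (bs p G) (elF p b) = ∏ q, Fr.Ws p (⊤ : Subgroup G) (b q) := by
  classical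
  unfold Fr.Ws
  rw [Finset.prod_univ_sum]
  symm
  refine Finset.sum_of_injOn (fun R : Cp p → Subgroup G => ps R) ?_ ?_ ?_ ?_
  · intro R _ R' _ h
    exact YTwAux.ps_inj h
  · intro R hR
    have hR' := Fintype.mem_piFinset.1 (Finset.mem_coe.1 hR)
    refine Finset.mem_coe.2 (Finset.mem_filter.2 ⟨Finset.mem_univ _, ps_le R, isPGroup_ps ?_⟩)
    intro q
    exact (Finset.mem_filter.1 (hR' q)).2.2
  · intro Q hQ hn
    obtain ⟨-, hQ1, hQ2⟩ := Finset.mem_filter.1 hQ
    refine mul_eq_zero_of_right _ ?_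
    by_contra hne
    obtain ⟨⟨f, hf⟩⟩ := (Nat.card_ne_zero.1 hne).1
    obtain ⟨R, rfl⟩ := exists_ps_of_isDZ hQ1 hQ2 hf.1
    apply hn
    refine ⟨R, Finset.mem_coe.2 (Fintype.mem_piFinset.2 fun q => Finset.mem_filter.2
      ⟨Finset.mem_univ _, le_top, isPGroup_of_ps hQ2 q⟩), rfl⟩
  · intro R hR
    have hR' := Fintype.mem_piFinset.1 hR
    have hp : ∀ q, IsPGroup p (R q) := fun q => (Finset.mem_filter.1 (hR' q)).2.2
    rw [Finset.prod_mul_distrib, card_dzF hb hp, card_normF R]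

theorem card_bsF (p : ℕ) [Fact p.Prime] (G : Type*) [Group G] [Finite G] :
    Nat.card ↥(bs p G) = Nat.card G ^ p := by
  rw [← Nat.card_congr (BlkEAux.ps1 p G).toEquiv, Subgroup.card_top, Nat.card_fun]
  congr 1
  exact Nat.card_zmod p

theorem card_irrF [Finite G] {b : Cp p → MonoidAlgebra k G}
    (hb : ∀ q, IsBlock (⊤ : Subgroup G) (b q)) :
    Nat.card (Quotient (irrInvSetoid (bs p G) ⊥ (elF p b)))
      = ∏ q, Nat.card (Quotient (irrInvSetoid (⊤ : Subgroup G) ⊥ (b q))) := by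
  classical
  have : Fintype G := Fintype.ofFinite G
  have : Finite (WG p G) := Finite.of_equiv _ (RegularWreathProduct.equivProd G (Cp p)).symm
  have : Fintype (WG p G) := Fintype.ofFinite _
  have hB := isBlock_elF hb
  obtain ⟨Φ, -⟩ := exists_equivIF (fun q => (mem_fixAlg.1 (hb q).mem).2) (fun q => (hb q).idem)
  rw [WsFbAux.card_ich (mem_fixAlg.1 hB.mem).1 (mem_fixAlg.1 hB.mem).2 hB.idem,
    ← Nat.card_congr Φ, Nat.card_pi]
  refine Finset.prod_congr rfl fun q _ => ?_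
  rw [WsFbAux.card_ich (mem_fixAlg.1 (hb q).mem).1 (mem_fixAlg.1 (hb q).mem).2 (hb q).idem]

end Pool.Agent.Lib.P0c8ca5.Wr
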