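import Mathlib
import Pool.Agent.Lib.P0c8ca5Bw.WsFb
import Pool.Agent.Lib.P0c8ca5Bw.GapW
import Pool.Agent.Lib.P0c8ca5Bw.DuB

/-!
# NR: a nonreal 2-block `b` of `G` and the real 2-block of `G ≀ C_2` over `b ⊗ b*`

PROOF. `p = 2`, `Cp 2 = Multiplicative (ZMod 2)` has two elements. Let `β q = if q = 1 then b else du b`, `c = elF 2 β`, a block of `bs 2 G` (`isBlock_elF`, `du_block`), `bs_normal`.
(1) `cj g c = elF 2 (fun q => β (g.right⁻¹ * q))` (`cj_elF`). If `g.right = 1` this is `c`; if `g.right ≠ 1` it is `c' = elF 2 (fun q => if q = 1 then du b else b)`, and `c' ≠ c`: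
`elF_eq_tr`, `tr_injOn`, `pt_idem_inj` would give `du b = b`. So `g ∈ bs 2 G ↔ cj g c = c`.
(2) There is a block `E` of `⊤` with `E * c ≠ 0` (`c ≠ 0` and `1` is the sum of the blocks, `WSumAux.sum_blocks`; see `Lam_of_blk` in P0c8ca5V.TFin). `E * c` is a block of `bs 2 G`
(`Fr.isBlock_stab`, P0c8ca5P.FrH) and `(E * c) * c = E * c ≠ 0`, so `E * c = c` (`IsBlock.eq_or_mul_eq_zero`).
(3) `gap_stab`: `gap 2 ⊤ ⊤ E = gap 2 (bs 2 G) (bs 2 G) c`.
(4) `E` is real: `du c = elF 2 (fun q => du (β q)) = c'` (`elF_dual`; outside the base group both sides vanish; `du_du`), `c' = cj g c` for any `g` with `g.right ≠ 1` (e.g. `⟨1, Multiplicative.ofAdd 1⟩`).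
`du E * du c = du (c * E) = du c` (`du_mul`, `E` central), so `du E * cj g c = cj g c`, and conjugating with `g⁻¹` (`du E` is central, `cj_mul`, `cj_top`) `du E * c = c`. So
`E * du E * c = c ≠ 0`, `E * du E ≠ 0`, `E = du E` (`IsBlock.eq_or_mul_eq_zero`).
(5) Let `l = Nat.card (Quotient (irrInvSetoid ⊤ ⊥ b))`, `W = Ws 2 ⊤ b`, `n = |G|`. `gap_Ws`: `n * gap 2 ⊤ ⊤ b = n l - W` and `|bs| * gap (bs) (bs) c = |bs| * l(c) - Ws 2 (bs) c` with
`|bs| = n ^ 2` (`card_bsF`), `l(c) = l * l` (`card_irrF`, `card_irr_du`), `Ws 2 (bs) c = W * W` (`Ws_elF`, `Ws_du`). So `n² * gap E = n² l² - W² = (n l - W)(n l + W) = n g (2 n l - n g)`,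
`g = gap 2 ⊤ ⊤ b`. Cancel `n²`.
-/

namespace Pool.Agent.Lib.P0c8ca5.Bw

open MonoidAlgebra Wr

set_option linter.unusedSectionVars false

variable {k : Type*} [Field k] [IsAlgClosed k] [CharP k 2] {G : Type*} [Group G] [Finite G]

namespace NRAux

theorem cp2 : ∀ a q : Cp 2, a ≠ 1 → (a⁻¹ * q = 1 ↔ q ≠ 1) := by decide

open Classical in
/-- the two factors -/
noncomputable def bet (b b' : MonoidAlgebra k G) : Cp 2 → MonoidAlgebra k G :=
  fun q => if q = 1 then b else b'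

theorem bet_one (b b' : MonoidAlgebra k G) : bet b b' 1 = b := if_pos rfl

theorem bet_ne (b b' : MonoidAlgebra k G) {q : Cp 2} (h : q ≠ 1) : bet b b' q = b' := if_neg h

theorem bet_all {P : MonoidAlgebra k G → Prop} {b b' : MonoidAlgebra k G} (h : P b) (h' : P b')
    (q : Cp 2) : P (bet b b' q) := by
  by_cases hq : q = 1
  · rw [hq, bet_one]
    exact h
  · rw [bet_ne _ _ hq]
    exact h'

/-- conjugation of the product -/
theorem cj_bet {b b' : MonoidAlgebra k G} (hb : InvBy (⊤ : Subgroup G) b)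
    (hb' : InvBy (⊤ : Subgroup G) b') (g : WG 2 G) :
    cj g (elF 2 (bet b b')) = if g.right = 1 then elF 2 (bet b b') else elF 2 (bet b' b) := by
  rw [cj_elF (bet_all hb hb')]
  by_cases hg : g.right = 1
  · rw [if_pos hg, hg]
    congr 1
    funext q
    rw [inv_one, one_mul]
  · rw [if_neg hg]
    congr 1
    funext q
    have h1 := cp2 g.right q hg
    by_cases hq : q = 1
    · rw [hq, bet_one, bet_ne]
      intro h2
      rw [hq] at h1
      exact (h1.1 h2) rfl
    · rw [h1.2 hq, bet_one, bet_ne _ _ hq]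

/-- the swapped product is different -/
theorem bet_swap_ne {b b' : MonoidAlgebra k G} (hb : IsBlock (⊤ : Subgroup G) b)
    (hb' : IsBlock (⊤ : Subgroup G) b') (hne : b' ≠ b) :
    elF 2 (bet b' b) ≠ elF 2 (bet b b') := by
  intro h
  rw [elF_eq_tr, elF_eq_tr] at h
  have h1 := tr_injOn _ (fun _ _ => Subgroup.mem_top _) (fun _ _ => Subgroup.mem_top _) h
  have h2 := pt_idem_inj h1 (fun q => bet_all (P := fun z => z * z = z) hb'.idem hb.idem q)
    (fun q => bet_all (P := fun z => z * z = z) hb.idem hb'.idem q)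
    (fun q => bet_all (P := fun z => z ≠ 0) hb.ne_zero hb'.ne_zero q)
  have h3 := congrFun h2 1
  rw [bet_one, bet_one] at h3
  exact hne h3

/-- some block of the whole group covers `c` -/
theorem exists_block {A : Type*} [Group A] [Fintype A] {c : MonoidAlgebra k A} (hc : c ≠ 0) :
    ∃ E : MonoidAlgebra k A, IsBlock (⊤ : Subgroup A) E ∧ E * c ≠ 0 := by
  classical
  let Bl : Finset (MonoidAlgebra k A) := (finite_isBlock (k := k) (⊤ : Subgroup A)).toFinset
  have hBl : ∀ b, b ∈ Bl ↔ IsBlock (⊤ : Subgroup A) b ∧ b * 1 ≠ 0 := by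
    intro b
    rw [Set.Finite.mem_toFinset, mul_one]
    exact ⟨fun hb => ⟨hb, IsBlock.ne_zero hb⟩, fun hb => hb.1⟩
  have h1 := WSumAux.sum_blocks (p := 2) (fixAlg k (⊤ : Subgroup A) ⊤).one_mem (one_mul 1) Bl hBl
  by_contra hno
  push Not at hno
  apply hc
  rw [← one_mul c, ← h1, Finset.sum_mul]
  exact Finset.sum_eq_zero (fun E hE => hno E ((hBl E).1 hE).1)

/-- the dual of the product -/
theorem du_bet (b : MonoidAlgebra k G) [Finite (WG 2 G)] :
    du (elF 2 (bet b (du b))) = elF 2 (bet (du b) b) := by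
  ext x
  rw [coeff_du]
  by_cases hx : x.right = 1
  · refine (elF_dual (bet b (du b)) (bet (du b) b) ?_ x hx).symm
    intro q y
    by_cases hq : q = 1
    · rw [hq, bet_one, bet_one, coeff_du]
    · rw [bet_ne _ _ hq, bet_ne _ _ hq, coeff_du, inv_inv]
  · rw [coeff_elF, coeff_elF, tn_not hx, tn_not]
    rw [RegularWreathProduct.inv_right]
    exact inv_ne_one.2 hx

theorem prod_bet {M : Type*} [CommMonoid M] (F : MonoidAlgebra k G → M) {b b' : MonoidAlgebra k G}
    (h : F b' = F b) : ∏ q : Cp 2, F (bet b b' q) = F b ^ 2 := by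
  have h1 : ∀ q : Cp 2, F (bet b b' q) = F b := fun q =>
    bet_all (P := fun z => F z = F b) rfl h q
  rw [Finset.prod_congr rfl fun q _ => h1 q, Finset.prod_const, Finset.card_univ]
  rfl

end NRAux

open NRAux

theorem exists_real {b : MonoidAlgebra k G} (hb : IsBlock (⊤ : Subgroup G) b) (hne : du b ≠ b) :
    ∃ E : MonoidAlgebra k (WG 2 G), IsBlock (⊤ : Subgroup (WG 2 G)) E ∧
      (∀ x, E.coeff x⁻¹ = E.coeff x) ∧
      gap 2 (⊤ : Subgroup (WG 2 G)) ⊤ E = gap 2 (⊤ : Subgroup G) ⊤ b *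
        (2 * (Nat.card (Quotient (irrInvSetoid (⊤ : Subgroup G) ⊥ b)) : ℚ)
          - gap 2 (⊤ : Subgroup G) ⊤ b) := by
  classical
  have : Fintype G := Fintype.ofFinite G
  have : Finite (WG 2 G) := Finite.of_equiv _ (RegularWreathProduct.equivProd G (Cp 2)).symm
  have : Fintype (WG 2 G) := Fintype.ofFinite _
  have hb' : IsBlock (⊤ : Subgroup G) (du b) := du_block hb
  have hbl : ∀ q, IsBlock (⊤ : Subgroup G) (bet b (du b) q) := bet_all hb hb'
  have hc : IsBlock (bs 2 G) (elF 2 (bet b (du b))) := isBlock_elF hbl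
  have hcj := cj_bet hb.invBy hb'.invBy
  have hsw := bet_swap_ne hb hb' hne
  have hY : ∀ g, g ∈ bs 2 G ↔ cj g (elF 2 (bet b (du b))) = elF 2 (bet b (du b)) := by
    intro g
    rw [mem_bs, hcj]
    by_cases hg : g.right = 1
    · rw [if_pos hg]
      exact ⟨fun _ => rfl, fun _ => hg⟩
    · rw [if_neg hg]
      exact ⟨fun h => absurd h hg, fun h => absurd h hsw⟩
  obtain ⟨c, hcdef⟩ : ∃ c : MonoidAlgebra k (WG 2 G), c = elF 2 (bet b (du b)) := ⟨_, rfl⟩
  rw [← hcdef] at hc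
  have hY' : ∀ g, g ∈ bs 2 G ↔ cj g c = c := by
    rw [hcdef]
    exact hY
  obtain ⟨E, hE, hEc⟩ := exists_block hc.ne_zero
  have hst : IsBlock (bs 2 G) (E * c) := Fr.isBlock_stab (p := 2) bs_normal hE hc hEc hY'
  have hEc1 : E * c = c := by
    rcases hst.eq_or_mul_eq_zero hc with h | h
    · exact h
    · rw [mul_assoc, hc.idem] at h
      exact absurd h hEc
  have hgap : gap 2 (⊤ : Subgroup (WG 2 G)) ⊤ E = gap 2 (bs 2 G) (bs 2 G) c := by
    rw [gap_stab bs_normal hE hc hEc hY', hEc1]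
  -- `E` is real
  have hdE : IsBlock (⊤ : Subgroup (WG 2 G)) (du E) := du_block hE
  obtain ⟨g, hg⟩ : ∃ g : WG 2 G, g.right ≠ 1 := by
    refine ⟨⟨1, Multiplicative.ofAdd 1⟩, ?_⟩
    change (Multiplicative.ofAdd 1 : Cp 2) ≠ 1
    decide
  have hduc : du c = cj g c := by
    rw [hcdef, du_bet, hcj, if_neg hg]
  have h1 : du E * du c = du c := by
    rw [← du_mul, ← Fr.comm_top hE.mem, hEc1]
  have h2 : du E * c = c := by
    have h3 := congrArg (cj g⁻¹) h1
    rw [hduc, cj_mul, Fr.cj_top hdE.mem, cj_cj, inv_mul_cancel, cj_one_left] at h3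
    exact h3
  have hreal : E = du E := by
    rcases hE.eq_or_mul_eq_zero hdE with h | h
    · exact h
    · exfalso
      apply hc.ne_zero
      have h3 : E * (du E * c) = c := by rw [h2, hEc1]
      rw [← h3, ← mul_assoc, h, zero_mul]
  refine ⟨E, hE, fun x => ?_, ?_⟩
  · rw [← coeff_du, ← hreal]
  · have g1 := gap_Ws (p := 2) hb
    have g2 := gap_Ws (p := 2) hc
    rw [hgap]
    have hn : Nat.card ↥(⊤ : Subgroup G) = Nat.card G := Subgroup.card_top
    have hl : Nat.card (Quotient (irrInvSetoid (bs 2 G) ⊥ c)) =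
        Nat.card (Quotient (irrInvSetoid (⊤ : Subgroup G) ⊥ b)) ^ 2 := by
      rw [hcdef, card_irrF hbl]
      exact prod_bet (fun z => Nat.card (Quotient (irrInvSetoid (⊤ : Subgroup G) ⊥ z)))
        (card_irr_du 2 hb)
    have hW : Fr.Ws 2 (bs 2 G) c = Fr.Ws 2 (⊤ : Subgroup G) b ^ 2 := by
      rw [hcdef, Ws_elF hbl]
      exact prod_bet (fun z => Fr.Ws 2 (⊤ : Subgroup G) z) (Ws_du hb)
    rw [hn] at g1
    rw [card_bsF, hl, hW] at g2
    push_cast at g2
    have hpos : (Nat.card G : ℚ) ≠ 0 := by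
      exact_mod_cast (Nat.card_pos (α := G)).ne'
    have hWq : (Fr.Ws 2 (⊤ : Subgroup G) b : ℚ) = (Nat.card G : ℚ) *
        (Nat.card (Quotient (irrInvSetoid (⊤ : Subgroup G) ⊥ b)) : ℚ) -
        (Nat.card G : ℚ) * gap 2 (⊤ : Subgroup G) ⊤ b := by
      rw [g1]
      ring
    rw [hWq] at g2
    apply mul_left_cancel₀ (pow_ne_zero 2 hpos)
    rw [g2]
    ring

end Pool.Agent.Lib.P0c8ca5.Bw
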