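import Mathlib
import Pool.Agent.Lib.P0c8ca5V.DA
import Pool.Agent.Lib.P0c8ca5Bw.Defs

/-! The sum over the triples in `T` generating a subgroup containing `H = O^p(T)`, for `dS`. -/

namespace Pool.Agent.Lib.P0c8ca5.Bw

variable {p : ℕ} {A : Type*} [Group A]

open DAAux

theorem dS_cT {S : Set A} (hS : CInv S) {m : A → ℤ} (hm : IsWt p ⊤ m) (g : A) (t : A × A × A) :
    dS S m (cT g t) = dS S m t := by
  classical
  have e : cmt (cT g t).1 (cT g t).2.1 * (cT g t).2.2 = g * (cmt t.1 t.2.1 * t.2.2) * g⁻¹ := by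
    simp [cT, cmt, mul_assoc]
  have e2 : m (cT g t).2.2 = m t.2.2 := hm.conj g (Subgroup.mem_top g) _
  unfold dS
  rw [e, e2]
  by_cases c1 : cmt t.1 t.2.1 * t.2.2 ∈ S
  · rw [if_pos ((hS g _).2 c1), if_pos c1]
  · rw [if_neg (fun h => c1 ((hS g _).1 h)), if_neg c1]

theorem bS_cg {S : Set A} (hS : CInv S) {m : A → ℤ} (hm : IsWt p ⊤ m) (g : A) (U : Subgroup A) :
    bS p S (cg g U) m = bS p S U m := by
  unfold bS
  rw [← finsum_comp_equiv (cT g)]
  apply finsum_congr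
  intro t
  rw [gen_cT, Opr_cg, cg_le_cg_iff, cg_le_cg_iff, dS_cT hS hm]

open Classical in
/-- Suppose that `p |U|_p` divides `bS p S U m` for all `U ≤ T` with `O^p(U) = O^p(T)` and
`O_p(U) = 1`. Then `p |T|_p` divides the sum of `dW * fK` over the triples in `T` generating a group
containing `O^p(T)`. Proof: expand `fK`; for a chain `σ` with `O^p(T) ≤ sN σ` the sum over the
triples in `T ⊓ sN σ` is `bS p S (T ⊓ sN σ) m`; by `exact_zero` and `fK_zero` the chains with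
`O_p(T ⊓ sN σ) ≠ 1` contribute zero (`NoP_up`); the others by `orb_dvd_p`. -/
theorem sum_T [Fact p.Prime] [Finite A] {S : Set A} (hS : CInv S) {T : Subgroup A} {m : A → ℤ}
    (hm : IsWt p ⊤ m)
    (h : ∀ U : Subgroup A, U ≤ T → Opr p U = Opr p T → NoP p U →
      (p : ℤ) * (ordProj[p] (Nat.card U) : ℕ) ∣ bS p S U m) :
    (p : ℤ) * (ordProj[p] (Nat.card T) : ℕ) ∣
      ∑ᶠ t : A × A × A, (if gen t ≤ T ∧ Opr p T ≤ gen t then dS S m t * fK p (gen t) else 0) := by
  haveI : Fintype A := Fintype.ofFinite A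
  haveI : Fintype (Subgroup A) := Fintype.ofFinite _
  -- the sum over the chains
  have key : ∑ᶠ t : A × A × A,
      (if gen t ≤ T ∧ Opr p T ≤ gen t then dS S m t * fK p (gen t) else 0) =
      ∑ σ : Finset (Subgroup A), (if IsCh p σ ∧ Opr p T ≤ sN σ then
        (-1) ^ σ.card * bS p S (T ⊓ sN σ) m else 0) := by
    rw [finsum_eq_sum_of_fintype]
    have e1 : ∀ t : A × A × A,
        (if gen t ≤ T ∧ Opr p T ≤ gen t then dS S m t * fK p (gen t) else 0) =
        ∑ σ : Finset (Subgroup A), (if gen t ≤ T ∧ Opr p T ≤ gen t then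
          dS S m t * (if IsCh p σ then (-1) ^ σ.card * (if gen t ≤ sN σ then 1 else 0) else 0)
          else 0) := by
      intro t
      split_ifs with ht
      · rw [← Finset.mul_sum, fK, chS, finsum_eq_sum_of_fintype]
      · rw [Finset.sum_const_zero]
    rw [Finset.sum_congr rfl (fun t _ => e1 t), Finset.sum_comm]
    apply Finset.sum_congr rfl
    intro σ _
    split_ifs with hσ1 hσ2 hσ2
    · obtain ⟨_, hσ2⟩ := hσ2
      have hU : Opr p T ≤ T ⊓ sN σ := le_inf (Opr_le T) hσ2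
      have hO : Opr p (T ⊓ sN σ) = Opr p T := Opr_eq_of_le hU inf_le_left
      rw [bS, finsum_eq_sum_of_fintype, Finset.mul_sum]
      apply Finset.sum_congr rfl
      intro t _
      rw [hO, le_inf_iff]
      by_cases c1 : gen t ≤ T <;> by_cases c2 : Opr p T ≤ gen t <;> by_cases c3 : gen t ≤ sN σ <;>
        simp [c1, c2, c3, mul_comm]
    · apply Finset.sum_eq_zero
      intro t _
      split_ifs with c1 c2
      · exact absurd ⟨hσ1, c1.2.trans c2⟩ hσ2
      · simp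
      · rfl
    · exact absurd hσ2.1 hσ1
    · simp
  rw [key]
  -- the chains with a normal p-subgroup cancel
  have hz : ∀ U : Subgroup A, (Opr p T ≤ U ∧ ¬ NoP p U) → U ≤ T →
      ∑ᶠ x : {x : {σ : Finset (Subgroup A) // IsCh p σ ∧ Opr p T ≤ sN σ} // T ⊓ sN x.1 = U},
        ((-1 : ℤ)) ^ x.1.1.card = 0 := by
    intro U hU hUT
    refine exact_zero (X := {σ : Finset (Subgroup A) // IsCh p σ ∧ Opr p T ≤ sN σ}) T
      (fun x => T ⊓ sN x.1) (fun x => inf_le_left) (fun x => (-1) ^ x.1.card)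
      (fun U => Opr p T ≤ U ∧ ¬ NoP p U) ?_ ?_ U hU hUT
    · rintro U U' ⟨h1, h2⟩ h3 h4
      refine ⟨h1.trans h3, fun h5 => h2 ?_⟩
      refine NoP_up h3 ?_ h5
      rw [Opr_eq_of_le h1 (h3.trans h4), Opr_eq_of_le (h1.trans h3) h4]
    · rintro U ⟨h1, h2⟩ h3
      have h4 : fK p U = 0 := by
        unfold NoP at h2
        push Not at h2
        obtain ⟨R, hR1, hR2, hR3, hR4⟩ := h2
        exact fK_zero hR1 hR2 hR3 hR4
      rw [← h4, fK, chS]
      rw [finsum_sub (fun x : {σ : Finset (Subgroup A) // IsCh p σ ∧ Opr p T ≤ sN σ} =>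
        U ≤ T ⊓ sN x.1) (fun x => (-1) ^ x.1.card)]
      rw [finsum_sub (fun σ : Finset (Subgroup A) => IsCh p σ ∧ Opr p T ≤ sN σ)
        (fun σ => if U ≤ T ⊓ sN σ then (-1) ^ σ.card else 0)]
      apply finsum_congr
      intro σ
      by_cases c1 : IsCh p σ <;> by_cases c2 : U ≤ sN σ
      · have c3 : Opr p T ≤ sN σ := h1.trans c2
        have c4 : U ≤ T ⊓ sN σ := le_inf h3 c2
        simp [c1, c2, c3, c4]
      · have c4 : ¬ U ≤ T ⊓ sN σ := fun c => c2 (c.trans inf_le_right)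
        simp [c1, c2, c4]
      · simp [c1]
      · simp [c1]
  have hz' : ∑ σ : Finset (Subgroup A), (if (IsCh p σ ∧ Opr p T ≤ sN σ) ∧ ¬ NoP p (T ⊓ sN σ) then
        (-1) ^ σ.card * bS p S (T ⊓ sN σ) m else 0) = 0 := by
    have e2 : ∑ σ : Finset (Subgroup A), (if (IsCh p σ ∧ Opr p T ≤ sN σ) ∧ ¬ NoP p (T ⊓ sN σ) then
        (-1) ^ σ.card * bS p S (T ⊓ sN σ) m else 0) =
        ∑ x : {σ : Finset (Subgroup A) // IsCh p σ ∧ Opr p T ≤ sN σ},
          (if ¬ NoP p (T ⊓ sN x.1) then (-1) ^ x.1.card * bS p S (T ⊓ sN x.1) m else 0) := by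
      rw [← finsum_eq_sum_of_fintype, ← finsum_eq_sum_of_fintype,
        finsum_sub (fun σ : Finset (Subgroup A) => IsCh p σ ∧ Opr p T ≤ sN σ)
        (fun σ => if ¬ NoP p (T ⊓ sN σ) then (-1) ^ σ.card * bS p S (T ⊓ sN σ) m else 0)]
      apply finsum_congr
      intro σ
      by_cases c1 : IsCh p σ ∧ Opr p T ≤ sN σ
      · by_cases c2 : NoP p (T ⊓ sN σ)
        · rw [if_neg (fun h => h.2 c2), if_pos c1, if_neg (fun h => h c2)]
        · rw [if_pos ⟨c1, c2⟩, if_pos c1, if_pos c2]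
      · rw [if_neg (fun h => c1 h.1), if_neg c1]
    rw [e2, ← Finset.sum_fiberwise (s := Finset.univ)
      (g := fun x : {σ : Finset (Subgroup A) // IsCh p σ ∧ Opr p T ≤ sN σ} => T ⊓ sN x.1)]
    apply Finset.sum_eq_zero
    intro U _
    by_cases hU : (Opr p T ≤ U ∧ ¬ NoP p U) ∧ U ≤ T
    · have h1 := hz U hU.1 hU.2
      rw [finsum_sub (fun x : {σ : Finset (Subgroup A) // IsCh p σ ∧ Opr p T ≤ sN σ} =>
        T ⊓ sN x.1 = U) (fun x => (-1) ^ x.1.card), finsum_eq_sum_of_fintype,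
        ← Finset.sum_filter] at h1
      calc _ = ∑ x ∈ Finset.univ.filter (fun x : {σ : Finset (Subgroup A) //
            IsCh p σ ∧ Opr p T ≤ sN σ} => T ⊓ sN x.1 = U), (-1) ^ x.1.card * bS p S U m := by
            apply Finset.sum_congr rfl
            intro x hx
            rw [Finset.mem_filter] at hx
            rw [hx.2, if_pos hU.1.2]
        _ = 0 := by rw [← Finset.sum_mul, h1, zero_mul]
    · apply Finset.sum_eq_zero
      intro x hx
      rw [Finset.mem_filter] at hx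
      rw [if_neg]
      intro hn
      apply hU
      rw [← hx.2]
      exact ⟨⟨le_inf (Opr_le T) x.2.2, hn⟩, inf_le_left⟩
  have hs : ∑ σ : Finset (Subgroup A), (if IsCh p σ ∧ Opr p T ≤ sN σ then
        (-1) ^ σ.card * bS p S (T ⊓ sN σ) m else 0) =
      ∑ σ : Finset (Subgroup A), (if (IsCh p σ ∧ Opr p T ≤ sN σ) ∧ NoP p (T ⊓ sN σ) then
        (-1) ^ σ.card * bS p S (T ⊓ sN σ) m else 0) := by
    have e3 : ∑ σ : Finset (Subgroup A), (if IsCh p σ ∧ Opr p T ≤ sN σ then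
        (-1) ^ σ.card * bS p S (T ⊓ sN σ) m else 0) =
      ∑ σ : Finset (Subgroup A), (if (IsCh p σ ∧ Opr p T ≤ sN σ) ∧ NoP p (T ⊓ sN σ) then
        (-1) ^ σ.card * bS p S (T ⊓ sN σ) m else 0) +
      ∑ σ : Finset (Subgroup A), (if (IsCh p σ ∧ Opr p T ≤ sN σ) ∧ ¬ NoP p (T ⊓ sN σ) then
        (-1) ^ σ.card * bS p S (T ⊓ sN σ) m else 0) := by
      rw [← Finset.sum_add_distrib]
      apply Finset.sum_congr rfl
      intro σ _
      by_cases c1 : IsCh p σ ∧ Opr p T ≤ sN σ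
      · by_cases c2 : NoP p (T ⊓ sN σ)
        · rw [if_pos c1, if_pos ⟨c1, c2⟩, if_neg (fun h => h.2 c2), add_zero]
        · rw [if_pos c1, if_neg (fun h => c2 h.2), if_pos ⟨c1, c2⟩, zero_add]
      · rw [if_neg c1, if_neg (fun h => c1 h.1), if_neg (fun h => c1 h.1), add_zero]
    rw [e3, hz', add_zero]
  rw [hs]
  -- orbits
  refine @orb_dvd_p p _ T (Finset (Subgroup A)) _ _ (actT T) _ _ ?_ p ?_
  · intro t σ
    change (if (IsCh p (cgF (t : A) σ) ∧ Opr p T ≤ sN (cgF (t : A) σ)) ∧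
      NoP p (T ⊓ sN (cgF (t : A) σ)) then (-1) ^ (cgF (t : A) σ).card *
        bS p S (T ⊓ sN (cgF (t : A) σ)) m else 0) = _
    have hT : cg (t : A) T = T := cg_mem_self t.2
    have hO : cg (t : A) (Opr p T) = Opr p T := by rw [← Opr_cg, hT]
    have e1 : T ⊓ sN (cgF (t : A) σ) = cg (t : A) (T ⊓ sN σ) := by rw [sN_cgF, cg_inf, hT]
    have e2 : Opr p T ≤ sN (cgF (t : A) σ) ↔ Opr p T ≤ sN σ := by
      rw [sN_cgF]
      conv_lhs => rw [← hO]
      exact cg_le_cg_iff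
    rw [e1, e2, isCh_cgF, noP_cg, card_cgF, bS_cg hS hm]
  · intro σ
    split_ifs with hσ
    · obtain ⟨⟨c1, c2⟩, c3⟩ := hσ
      rw [card_stab c1]
      apply Dvd.dvd.mul_left
      exact h _ inf_le_left (Opr_eq_of_le (le_inf (Opr_le T) c2) inf_le_left) c3
    · exact dvd_zero _

end Pool.Agent.Lib.P0c8ca5.Bw
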