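import Mathlib
import Pool.Agent.Lib.P0c8ca5V.DB
import Pool.Agent.Lib.P0c8ca5Bw.DA

/-! The sum over the triples with `O^p(<a,b,c>) = H`, for `dS`. -/

namespace Pool.Agent.Lib.P0c8ca5.Bw

variable {p : ℕ} {A : Type*} [Group A]

open DAAux DBAux

open Classical in
/-- Suppose that `p |U|_p` divides `bS p S U m` for all `U` with `O^p(U) = H` and `O_p(U) = 1`. Then
`p |N(H)|_p` divides the sum of `dW * fK` over the triples `t` with `O^p(gen t) = H`. Proof: if
`H ≠ O^p(H)`, the sum is empty. Sum `sum_T` for `T = upS H P` over all `P`; every triple is counted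
`1 + p j` times (`card_upS_over`), the error is divisible by `p |N(H)|_p` by `orb_dvd_p` and
`cent_dvd_fK`. -/
theorem sum_H [Fact p.Prime] [Finite A] {S : Set A} (hS : CInv S) {H : Subgroup A} {m : A → ℤ}
    (hm : IsWt p ⊤ m)
    (h : ∀ U : Subgroup A, Opr p U = H → NoP p U →
      (p : ℤ) * (ordProj[p] (Nat.card U) : ℕ) ∣ bS p S U m) :
    (p : ℤ) * (ordProj[p] (Nat.card ↥(Subgroup.normalizer (H : Set A))) : ℕ) ∣
      ∑ᶠ t : A × A × A, (if Opr p (gen t) = H then dS S m t * fK p (gen t) else 0) := by
  haveI : Fintype A := Fintype.ofFinite A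
  haveI : Fintype (Sylow p (NQ H)) := Fintype.ofFinite _
  by_cases hH : Opr p H = H
  swap
  · have h0 : ∀ t : A × A × A,
        (if Opr p (gen t) = H then dS S m t * fK p (gen t) else 0) = 0 := by
      intro t
      rw [if_neg]
      intro e
      apply hH
      have h1 : Opr p (Opr p (gen t)) = Opr p (gen t) := Opr_eq_of_le le_rfl (Opr_le _)
      rwa [e] at h1
    rw [finsum_congr h0, finsum_zero]
    exact dvd_zero _
  rw [finsum_eq_sum_of_fintype]
  -- the groups `upS H P`
  have hO : ∀ P : Sylow p (NQ H), Opr p (upS H P) = H := by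
    intro P
    apply le_antisymm
    · exact Opr_le_of_pow (le_upS H P) (upS_le H P) (fun x hx => upS_pow H P hx)
    · conv_lhs => rw [← hH]
      exact Opr_mono (le_upS H P)
  have hP : ∀ P : Sylow p (NQ H),
      (p : ℤ) * (ordProj[p] (Nat.card ↥(Subgroup.normalizer (H : Set A))) : ℕ) ∣
        ∑ t : A × A × A, (if gen t ≤ upS H P ∧ H ≤ gen t then dS S m t * fK p (gen t) else 0) := by
    intro P
    have h1 := sum_T hS (T := upS H P) hm (fun U _ hU hU' => h U (hU.trans (hO P)) hU')
    rw [upS_card, hO P, finsum_eq_sum_of_fintype] at h1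
    exact h1
  -- the sum over all `P`
  have hSS : (p : ℤ) * (ordProj[p] (Nat.card ↥(Subgroup.normalizer (H : Set A))) : ℕ) ∣
      ∑ t : A × A × A, (if Opr p (gen t) = H then
        (nP p H (gen t) : ℤ) * (dS S m t * fK p (gen t)) else 0) := by
    have h1 := Finset.dvd_sum (s := Finset.univ) (fun P _ => hP P)
    rw [Finset.sum_comm] at h1
    have h2 : ∀ t : A × A × A, ∑ P : Sylow p (NQ H),
        (if gen t ≤ upS H P ∧ H ≤ gen t then dS S m t * fK p (gen t) else 0) =
        (if Opr p (gen t) = H then
        (nP p H (gen t) : ℤ) * (dS S m t * fK p (gen t)) else 0) := by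
      intro t
      split_ifs with ht
      · have h3 : H ≤ gen t := by rw [← ht]; exact Opr_le _
        simp only [h3, and_true]
        rw [← Finset.sum_filter, Finset.sum_const, nP, Nat.card_eq_fintype_card,
          Fintype.card_subtype, nsmul_eq_mul]
      · apply Finset.sum_eq_zero
        intro P _
        rw [if_neg]
        rintro ⟨h3, h4⟩
        apply ht
        have h5 : Opr p (gen t) = Opr p (upS H P) :=
          Opr_eq_of_le (by rw [hO P]; exact h4) h3
        rw [h5, hO P]
    rw [Finset.sum_congr rfl (fun t _ => h2 t)] at h1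
    exact h1
  -- the error term
  have hE : (p : ℤ) * (ordProj[p] (Nat.card ↥(Subgroup.normalizer (H : Set A))) : ℕ) ∣
      ∑ t : A × A × A, (if Opr p (gen t) = H then
        ((nP p H (gen t) : ℤ) - 1) * (dS S m t * fK p (gen t)) else 0) := by
    refine @orb_dvd_p p _ (Subgroup.normalizer (H : Set A)) (A × A × A) _ _ (actN _) _ _ ?_ p ?_
    · intro g t
      change (if Opr p (gen (cT (g : A) t)) = H then
        ((nP p H (gen (cT (g : A) t)) : ℤ) - 1) * (dS S m (cT (g : A) t) *
          fK p (gen (cT (g : A) t))) else 0) = _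
      have h1 : cg (g : A) H = H := cg_eq_self_iff.2 g.2
      have h2 : cg (g : A) (Opr p (gen t)) = H ↔ Opr p (gen t) = H := by
        constructor
        · intro c
          exact cg_injective (g : A) (c.trans h1.symm)
        · intro c
          rw [c, h1]
      rw [gen_cT, Opr_cg, nP_cg g.2, dS_cT hS hm, fK_conj]
      by_cases h3 : Opr p (gen t) = H
      · rw [if_pos (h2.2 h3), if_pos h3]
      · rw [if_neg (fun c => h3 (h2.1 c)), if_neg h3]
    · intro t
      split_ifs with ht
      · have h1 : (p : ℤ) ∣ (nP p H (gen t) : ℤ) - 1 := by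
          have h2 : nP p H (gen t) ≡ 1 [MOD p] := by
            refine card_upS_over ?_ ?_ ?_
            · rw [← ht]; exact Opr_le _
            · rw [← ht]; exact Opr_normal _
            · intro x hx
              obtain ⟨n, hn⟩ := Opr_pow (p := p) hx
              rw [ht] at hn
              exact ⟨n, hn⟩
          have h3 := (Nat.modEq_iff_dvd.1 h2.symm)
          simpa using h3
        have h4 : ((ordProj[p] (Nat.card (@MulAction.stabilizer
            (Subgroup.normalizer (H : Set A)) (A × A × A) _ (actN _) t)) : ℕ) : ℤ) ∣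
            fK p (gen t) := by
          refine dvd_trans ?_ (cent_dvd_fK (gen t))
          exact_mod_cast Nat.ordProj_dvd_ordProj_of_dvd Nat.card_pos.ne' (card_stabT _ t) p
        exact mul_dvd_mul h1 (Dvd.dvd.mul_left h4 _)
      · exact dvd_zero _
  have hd := dvd_sub hSS hE
  rw [← Finset.sum_sub_distrib] at hd
  have hfin : ∀ t : A × A × A, (if Opr p (gen t) = H then dS S m t * fK p (gen t) else 0) =
      ((if Opr p (gen t) = H then (nP p H (gen t) : ℤ) * (dS S m t * fK p (gen t)) else 0) -
        (if Opr p (gen t) = H then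
          ((nP p H (gen t) : ℤ) - 1) * (dS S m t * fK p (gen t)) else 0)) := by
    intro t
    split_ifs
    · ring
    · ring
  rw [Finset.sum_congr rfl (fun t _ => hfin t)]
  exact hd

end Pool.Agent.Lib.P0c8ca5.Bw
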