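import Mathlib
import Pool.Agent.Lib.P0c8ca5V.DC
import Pool.Agent.Lib.P0c8ca5Bw.DB

/-! The sum of `dS * fK` over all triples. -/

namespace Pool.Agent.Lib.P0c8ca5.Bw

variable {p : ℕ} {A : Type*} [Group A]

open DCAux

theorem dS_up (S : Set A) (U : Subgroup A) (m : A → ℤ) (t : ↥U × ↥U × ↥U) :
    dS S m (up U t) = dS {x : ↥U | (x : A) ∈ S} (fun x : ↥U => m x) t := by
  classical
  unfold dS
  rw [cmt_up]
  rfl

/-- transport between the subgroup `U` of `A` and the group `U` -/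
theorem bS_dn (S : Set A) (U : Subgroup A) (m : A → ℤ) :
    bS p {x : ↥U | (x : A) ∈ S} (⊤ : Subgroup ↥U) (fun x => m x) = bS p S U m := by
  classical
  unfold bS
  have h1 : ∀ t : ↥U × ↥U × ↥U, (if gen t ≤ ⊤ ∧ Opr p (⊤ : Subgroup ↥U) ≤ gen t
      then dS {x : ↥U | (x : A) ∈ S} (fun x : ↥U => m x) t else 0) =
      (if gen (up U t) ≤ U ∧ Opr p U ≤ gen (up U t) then dS S m (up U t) else 0) := by
    intro t
    rw [dS_up, gen_up, Opr_top U,
      Subgroup.map_le_map_iff_of_injective U.subtype_injective]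
    have h2 : (gen t).map U.subtype ≤ U := by
      rintro _ ⟨y, -, rfl⟩
      exact y.2
    simp only [le_top, h2, true_and]
  rw [finsum_congr h1, ← finsum_mem_range (f := fun t : A × A × A =>
    if gen t ≤ U ∧ Opr p U ≤ gen t then dS S m t else 0) (up_injective U), range_up,
    finsum_mem_def]
  refine finsum_congr (fun t => ?_)
  by_cases h : gen t ≤ U
  · rw [Set.indicator_of_mem (show t ∈ {t | gen t ≤ U} from h)]
  · rw [Set.indicator_of_notMem (show t ∉ {t | gen t ≤ U} from h), if_neg (fun h' => h h'.1)]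

theorem cInv_dn {S : Set A} (hS : CInv S) (U : Subgroup A) : CInv {x : ↥U | (x : A) ∈ S} := by
  intro g u
  exact hS (g : A) (u : A)

open Classical in
/-- the sum over the triples with `O^p(gen t) = H` -/
noncomputable def FS (p : ℕ) (S : Set A) (m : A → ℤ) (H : Subgroup A) : ℤ :=
  ∑ᶠ t : A × A × A, (if Opr p (gen t) = H then dS S m t * fK p (gen t) else 0)

theorem FS_cg [Fact p.Prime] [Finite A] {S : Set A} (hS : CInv S) {m : A → ℤ} (hm : IsWt p ⊤ m)
    (g : A) (H : Subgroup A) : FS p S m (cg g H) = FS p S m H := by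
  classical
  unfold FS
  rw [← finsum_comp_equiv (DAAux.cT g)]
  refine finsum_congr (fun t => ?_)
  rw [DAAux.gen_cT, Opr_cg, dS_cT hS hm, fK_conj]
  have h : cg g (Opr p (gen t)) = cg g H ↔ Opr p (gen t) = H := by
    constructor
    · intro h
      have := congrArg (cg g⁻¹) h
      rwa [cg_cg, cg_cg, inv_mul_cancel, cg_one, cg_one] at this
    · intro h
      rw [h]
  simp only [h]

theorem sum_FS [Finite A] (S : Set A) (m : A → ℤ) :
    eS p S m = ∑ᶠ H : Subgroup A, FS p S m H := by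
  classical
  have := Fintype.ofFinite A
  have := Fintype.ofFinite (Subgroup A)
  simp only [FS, eS, finsum_eq_sum_of_fintype]
  rw [Finset.sum_comm]
  refine Finset.sum_congr rfl (fun t _ => ?_)
  rw [Finset.sum_ite_eq]
  simp

theorem nS_conj [Finite A] {S : Set A} (hS : CInv S) (H : Subgroup A) (g : A) {m : A → ℤ}
    (hm : ∀ x, m (g * x * g⁻¹) = m x) : nS S (cg g H) m = nS S H m := by
  classical
  unfold nS
  rw [← finsum_comp_equiv (DAAux.cT g)]
  refine finsum_congr (fun t => ?_)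
  have e : cmt (DAAux.cT g t).1 (DAAux.cT g t).2.1 * (DAAux.cT g t).2.2
      = g * (cmt t.1 t.2.1 * t.2.2) * g⁻¹ := by
    simp [DAAux.cT, cmt, mul_assoc]
  have e2 : m (DAAux.cT g t).2.2 = m t.2.2 := hm t.2.2
  have e3 : ((DAAux.cT g t).1 ∈ cg g H ∧ (DAAux.cT g t).2.1 ∈ cg g H ∧
      (DAAux.cT g t).2.2 ∈ cg g H) ↔ (t.1 ∈ H ∧ t.2.1 ∈ H ∧ t.2.2 ∈ H) := by
    refine and_congr (ChOrbAux.mem_cg' g t.1 H) (and_congr (ChOrbAux.mem_cg' g t.2.1 H)
      (ChOrbAux.mem_cg' g t.2.2 H))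
  rw [e, e2]
  simp only [e3, hS g]

theorem nS_dvd [Finite A] {S : Set A} (hS : CInv S) (H : Subgroup A) {m : A → ℤ}
    (hm : IsWt p H m) : (Nat.card H : ℤ) ∣ nS S H m := by
  classical
  have h1 : nS S H m = ∑ᶠ t : ↥H × ↥H, ∑ᶠ c : H,
      if cmt (t.1 : A) t.2 * (c : A) ∈ S then m (c : A) else 0 := by
    unfold nS
    exact FrobAux.triple_sum H m (fun a b c => cmt a b * c ∈ S)
  rw [h1, comm_sum H (fun x => ∑ᶠ c : H, if x * (c : A) ∈ S then m (c : A) else 0)
    (fun h hh x => ?_)]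
  · exact Dvd.intro _ rfl
  · refine (finsum_comp_equiv (MulAut.conj (⟨h, hh⟩ : H)).toEquiv).symm.trans ?_
    refine finsum_congr fun c => ?_
    have e1 : (((MulAut.conj (⟨h, hh⟩ : H)).toEquiv c : H) : A) = h * c * h⁻¹ := by
      simp
    rw [e1, hm.conj h hh]
    have e2 : h * x * h⁻¹ * (h * c * h⁻¹) = h * (x * c) * h⁻¹ := by group
    rw [e2]
    simp only [hS h]

/-- double counting -/
theorem eS_chS [Finite A] (p : ℕ) (S : Set A) (m : A → ℤ) :
    eS p S m = chS p (fun U => nS S U m) := by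
  classical
  have := Fintype.ofFinite A
  have := Fintype.ofFinite (Subgroup A)
  have hn : ∀ U : Subgroup A, nS S U m = ∑ t : A × A × A, (if gen t ≤ U then dS S m t else 0) := by
    intro U
    unfold nS dS
    rw [finsum_eq_sum_of_fintype]
    refine Finset.sum_congr rfl (fun t _ => ?_)
    simp only [CBAux.gen_le]
    by_cases h : t.1 ∈ U ∧ t.2.1 ∈ U ∧ t.2.2 ∈ U
    · by_cases h1 : cmt t.1 t.2.1 * t.2.2 ∈ S
      · rw [if_pos ⟨h, h1⟩, if_pos h, if_pos h1]
      · rw [if_neg (fun h2 => h1 h2.2), if_pos h, if_neg h1]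
    · rw [if_neg (fun h2 => h h2.1), if_neg h]
  unfold eS chS
  rw [finsum_eq_sum_of_fintype, finsum_eq_sum_of_fintype]
  have e2 : ∀ t : A × A × A, dS S m t * fK p (gen t) = ∑ σ : Finset (Subgroup A),
      if IsCh p σ then (-1) ^ σ.card * (if gen t ≤ sN σ then dS S m t else 0) else 0 := by
    intro t
    rw [fK, chS, finsum_eq_sum_of_fintype, Finset.mul_sum]
    refine Finset.sum_congr rfl (fun σ _ => ?_)
    by_cases hc : IsCh p σ
    · rw [if_pos hc, if_pos hc]
      by_cases hg : gen t ≤ sN σ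
      · rw [if_pos hg, if_pos hg]
        ring
      · rw [if_neg hg, if_neg hg]
        ring
    · rw [if_neg hc, if_neg hc, mul_zero]
  rw [Finset.sum_congr rfl (fun t _ => e2 t), Finset.sum_comm]
  refine Finset.sum_congr rfl (fun σ _ => ?_)
  by_cases hc : IsCh p σ
  · simp only [hc, if_true]
    rw [hn, Finset.mul_sum]
  · simp [hc]

theorem eS_dvd [Fact p.Prime] [Finite A] {S : Set A} (hS : CInv S) {m : A → ℤ}
    (hm : IsWt p ⊤ m) : (Nat.card A : ℤ) ∣ eS p S m := by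
  rw [eS_chS]
  have h := chS_dvd (p := p) (fun U : Subgroup A => nS S U m)
    (fun g U => nS_conj hS U g (fun x => CBAux.wt_conj hm g x)) 1
    (fun σ _ => by rw [one_mul]; exact nS_dvd hS (sN σ) (CBAux.isWt_of_top hm (sN σ)))
  rwa [one_mul] at h

/-- from the numbers of the generating triples to the sum over all triples -/
theorem eS_of_bS [Fact p.Prime] [Finite A] {S : Set A} (hS : CInv S) {m : A → ℤ}
    (hm : IsWt p ⊤ m) (h : ∀ U : Subgroup A, NoP p U →
      (p : ℤ) * (ordProj[p] (Nat.card U) : ℕ) ∣ bS p S U m) :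
    (p : ℤ) * (Nat.card A : ℤ) ∣ eS p S m := by
  have h1 : (p : ℤ) * (ordProj[p] (Nat.card A) : ℕ) ∣ eS p S m := by
    rw [sum_FS]
    refine sub_dvd_p _ (fun g U => FS_cg hS hm g U) _ (fun K => ?_)
    exact sum_H hS hm (fun U _ hU2 => h U hU2)
  have h2 : (Nat.card A : ℤ) ∣ eS p S m := eS_dvd hS hm
  have h3 : ((ordCompl[p] (Nat.card A) : ℕ) : ℤ) ∣ eS p S m :=
    dvd_trans (by exact_mod_cast Nat.ordCompl_dvd (Nat.card A) p) h2
  have h4 : IsCoprime ((p : ℤ) * (ordProj[p] (Nat.card A) : ℕ))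
      ((ordCompl[p] (Nat.card A) : ℕ) : ℤ) := by
    have h5 : Nat.Coprime (p * ordProj[p] (Nat.card A)) (ordCompl[p] (Nat.card A)) := by
      have h6 := Nat.coprime_ordCompl (Fact.out : p.Prime) (Nat.card_pos (α := A)).ne'
      rw [Nat.coprime_mul_iff_left]
      exact ⟨h6, h6.pow_left _⟩
    have := h5.isCoprime
    exact_mod_cast this
  have h7 := h4.mul_dvd h1 h3
  have h8 : (p : ℤ) * (ordProj[p] (Nat.card A) : ℕ) * ((ordCompl[p] (Nat.card A) : ℕ) : ℤ)
      = (p : ℤ) * (Nat.card A : ℤ) := by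
    rw [mul_assoc]
    congr 1
    exact_mod_cast Nat.ordProj_mul_ordCompl_eq_self (Nat.card A) p
  rwa [h8] at h7

/-- splitting the nontrivial p-elements into `S` and the rest -/
theorem eA_sub_eE_split [Finite A] {S : Set A} (hP : PSet p S) (m : A → ℤ) :
    eA p m - eE p m = eS p S m + eS p {u | Pel p u ∧ u ≠ 1 ∧ u ∉ S} m := by
  classical
  rw [eA_sub_eE]
  unfold eS
  rw [← finsum_add_distrib (Set.toFinite _) (Set.toFinite _)]
  refine finsum_congr (fun t => ?_)
  rw [← add_mul]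
  congr 1
  unfold dW dS
  by_cases h1 : cmt t.1 t.2.1 * t.2.2 ∈ S
  · have h2 := hP _ h1
    rw [if_pos h2, if_pos h1, if_neg (fun h3 => h3.2.2 h1), add_zero]
  · rw [if_neg h1, zero_add]
    by_cases h2 : Pel p (cmt t.1 t.2.1 * t.2.2) ∧ cmt t.1 t.2.1 * t.2.2 ≠ 1
    · rw [if_pos h2, if_pos ⟨h2.1, h2.2, h1⟩]
    · rw [if_neg h2, if_neg (fun h3 => h2 ⟨h3.1, h3.2.1⟩)]

end Pool.Agent.Lib.P0c8ca5.Bw
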