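import Mathlib
import Pool.Agent.Lib.P0c8ca5V.TDzA

/-!
# NilA: nontrivial p-elements and the blocks of defect zero

PROOF. `dz_scalar` (P0c8ca5V.TDzA): `y * f = c • f`. Claim: `(y * f).coeff s = 0` for all p-regular `s` (this holds for every central idempotent `f`). Let
`q = p ^ n` with `x ^ q = pr p x` for all `x` (`exists_q`, P0c8ca5V.TFrb: `obtain ⟨n, hn0, hn, hfn⟩ := exists_q p k A`). Apply `ChC.Fl_pow` (P0c8ca5N.ChC; see its use in
`THpAAux.key`, P0c8ca5V.THpA) to the class function `φ x = y.coeff x⁻¹` and `a = f * single s⁻¹ 1`: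
the right side is `∑ x, a.coeff x ^ q * φ (x ^ q) = ∑ x, a.coeff x ^ q * φ (pr p x) = 0`, because `pr p x` is p-regular (`preg_pr`) and `φ` is supported on nontrivial
p-elements (a p-regular p-element is `1`: `pr_eq_self`, `pel_iff_pr`; the inverse of a p-element is one). The left side is the sum of `φ` over `a ^ q = f ^ q * single (s⁻¹) ^ q 1
= f * single s⁻¹ 1` (`s⁻¹ ^ q = s⁻¹` as `s` is p-regular; `f` central and idempotent), i.e. `∑ x, f.coeff (x * s) * y.coeff x⁻¹ = (y * f).coeff s` (substitute; `coeff_mul_fin`).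
Now choose `s` with `f.coeff s ≠ 0` (`f ≠ 0`); `s` is p-regular (`osima hf.blk.mem hf.blk.idem`). So `c * f.coeff s = 0`, `c = 0`.
-/

namespace Pool.Agent.Lib.P0c8ca5.Bw

open MonoidAlgebra

set_option linter.unusedSectionVars false

variable {p : ℕ} {k : Type*} [Field k] {A : Type*} [Group A] [Finite A]
variable [Fact p.Prime] [CharP k p] [IsAlgClosed k]

namespace NilAAux

theorem pel_inv {x : A} : Pel p x⁻¹ ↔ Pel p x := by
  unfold Pel
  refine exists_congr fun n => ?_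
  rw [inv_pow, inv_eq_one]

/-- the coefficients of `y * f` at the p-regular elements vanish -/
theorem coeff_zero {f y : MonoidAlgebra k A} (hf : IsBlock (⊤ : Subgroup A) f)
    (hy : y ∈ fixAlg k (⊤ : Subgroup A) ⊤) (h : ∀ x, y.coeff x ≠ 0 → Pel p x ∧ x ≠ 1)
    {s : A} (hs : Preg p s) : (y * f).coeff s = 0 := by
  classical
  have _ := Fintype.ofFinite A
  obtain ⟨n, -, hn, -⟩ := exists_q p k A
  have hyI : InvBy (⊤ : Subgroup A) y := (mem_fixAlg.1 hy).2
  have key := ChC.Fl_pow (p := p) (k := k) (G := A) (fun x => y.coeff x⁻¹)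
    (fun u v => by
      have e2 : (u * v)⁻¹ = v⁻¹ * (v * u)⁻¹ * v⁻¹⁻¹ := by group
      rw [e2, hyI v⁻¹ (Subgroup.mem_top _)]) (f * single s⁻¹ 1) n
  have hR : ∑ g : A, (f * single s⁻¹ (1 : k)).coeff g ^ p ^ n * y.coeff (g ^ p ^ n)⁻¹ = 0 := by
    refine Finset.sum_eq_zero fun g _ => ?_
    have hz : y.coeff (g ^ p ^ n)⁻¹ = 0 := by
      by_contra hne
      rw [hn] at hne
      obtain ⟨h1, h2⟩ := h _ hne
      rw [pel_inv, pel_iff_pr, pr_eq_self (preg_pr g)] at h1
      rw [h1, inv_one] at h2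
      exact h2 rfl
    rw [hz, mul_zero]
  have hq : f ^ p ^ n = f :=
    IsIdempotentElem.pow_eq hf.idem (pow_pos (Fact.out : p.Prime).pos n).ne'
  have hs' : s⁻¹ ^ p ^ n = s⁻¹ := by rw [hn, pr_eq_self (by rw [Preg, orderOf_inv]; exact hs)]
  rw [(THpAAux.comm hf.mem s⁻¹).mul_pow, hq, single_pow, one_pow, hs', ChC.Fl_apply, hR] at key
  rw [coeff_mul_fin, ← key]
  refine Fintype.sum_equiv (Equiv.inv A) _ _ fun u => ?_
  rw [Equiv.inv_apply, inv_inv, coeff_mul_single_apply, inv_inv, mul_one, mul_comm]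

end NilAAux

/-- a central element supported on nontrivial p-elements annihilates the blocks of defect zero -/
theorem dz_pel {f y : MonoidAlgebra k A} (hf : IsDZ p (⊤ : Subgroup A) f)
    (hy : y ∈ fixAlg k (⊤ : Subgroup A) ⊤) (h : ∀ x, y.coeff x ≠ 0 → Pel p x ∧ x ≠ 1) :
    y * f = 0 := by
  obtain ⟨c, hc⟩ := dz_scalar hf hy
  obtain ⟨s, hs⟩ : ∃ s, f.coeff s ≠ 0 := by
    by_contra hcon
    push Not at hcon
    apply hf.blk.ne_zero
    ext x
    rw [hcon x]
    rfl
  have h1 := NilAAux.coeff_zero hf.blk hy h (osima hf.blk.mem hf.blk.idem hs)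
  rw [hc, coeff_smul_apply, smul_eq_mul] at h1
  have h2 : c = 0 := (mul_eq_zero.1 h1).resolve_right hs
  rw [hc, h2, zero_smul]

end Pool.Agent.Lib.P0c8ca5.Bw
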