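import Mathlib
import Pool.Agent.Lib.P0c8ca5Bw.NilA

/-!
# NilB: products of central elements with disjoint Brauer supports are nilpotent

PROOF. Suppose `y * z` is not nilpotent. The sum of the blocks of `⊤` is `1` (`WSumAux.sum_blocks`, see its use in `Lam_of_blk`, P0c8ca5V.TFin), all commute; so there is a block
`f` with `y * z * f` not nilpotent, and by `blk_nilp_or_unit` (P0c8ca5V.TDefs) there is `w ∈ fixAlg k ⊤ ⊤` with `y * z * w * f = f`.
Let `D` be a maximal member of the finite set of the p-subgroups `P` with `HasBr P f` (`⊥` is one: `f ≠ 0`). `proj D` (P0c8ca5.Sect) is multiplicative on the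
elements of `fixAlg k ⊤ ⊤` (`proj_mul hD`), so `proj D y * proj D z * proj D w * proj D f = proj D f`, and `proj D f ≠ 0` (as `HasBr D f`: the element `x ∈ centralizer D` with
`f.coeff x ≠ 0`; look for the lemma `hasBr_of_proj` and its converse `proj_ne_zero_of..`; if `proj D f` could vanish, use the restriction to the centralizer, `resS_mul`).
`proj D f` is a central idempotent of `k[NQ D]`; choose a block `g` of `NQ D` with `g * proj D f = g` (`exists_block..`). `g` is of defect zero: a nontrivial p-subgroup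
`P/D` of `NQ D` with `HasBr (P/D) g` gives `HasBr P f` with `D < P` (grep `IsDZ` in P0c8ca5/WeightsA..C, P0c8ca5N: this argument is in the library in the form
`maximal => IsDZ`), contradiction.
`proj D y = a • 1 + y₁` with `a = (proj D y).coeff 1` and `y₁` supported on nontrivial p-elements of `NQ D` (images of p-elements are p-elements), both central; `dz_pel`: `y₁ * g = 0`.
So `a • (proj D z * proj D w * g) = g ≠ 0`, hence `a ≠ 0` and `proj D z ≠ 0`. `a ≠ 0` gives `u ∈ D` with `y.coeff u ≠ 0` (`coeff_proj`). `proj D z ≠ 0` gives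
`c ∈ centralizer D` with `z.coeff c ≠ 0` (`hasBr_of_proj`). `c` commutes with `u ∈ D`: contradiction to `h`.
-/

namespace Pool.Agent.Lib.P0c8ca5.Bw

open MonoidAlgebra

set_option linter.unusedSectionVars false

variable {p : ℕ} {k : Type*} [Field k] {A : Type*} [Group A] [Finite A]
variable [Fact p.Prime] [CharP k p] [IsAlgClosed k]

namespace NilBAux

theorem hasBr_restrict {D : Subgroup A} {f : MonoidAlgebra k A} (h : HasBr D f) :
    resS (Subgroup.centralizer (D : Set A) : Set A) f ≠ 0 := by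
  intro h0
  obtain ⟨x, hx, hxf⟩ := h
  apply hxf
  rw [← coeff_resS_of_mem f (S := (Subgroup.centralizer (D : Set A) : Set A)) hx, h0]
  rfl

/-- the projection depends only on the restriction to the centralizer -/
theorem proj_res [Fintype A] {D : Subgroup A} (hD : IsPGroup p D) {f : MonoidAlgebra k A}
    (hf : InvBy D f) : proj D (resS (Subgroup.centralizer (D : Set A) : Set A) f) = proj D f := by
  classical
  ext w
  obtain ⟨n, hn, rfl⟩ := qm_surj w
  have hn' := Subgroup.mem_normalizer_iff.1 hn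
  rw [coeff_proj, coeff_proj]
  rw [sum_conj_eq (p := p) hD (fun x => if n⁻¹ * x ∈ D then f.coeff x else 0) ?_
    (Finset.univ.filter (fun x => x ∈ Subgroup.centralizer (D : Set A))) (fun x => by simp)]
  · rw [Finset.sum_filter]
    refine Finset.sum_congr rfl fun x _ => ?_
    by_cases hx : x ∈ Subgroup.centralizer (D : Set A)
    · rw [if_pos hx, coeff_resS_of_mem _ hx]
    · rw [if_neg hx, coeff_resS_of_notMem _ hx]
      split_ifs <;> rfl
  · intro d hd x
    have h5 : n⁻¹ * d * n ∈ D := by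
      apply (hn' _).2
      have e2 : n * (n⁻¹ * d * n) * n⁻¹ = d := by group
      rw [e2]; exact hd
    have hcond : n⁻¹ * (d * x * d⁻¹) ∈ D ↔ n⁻¹ * x ∈ D := by
      have e1 : n⁻¹ * (d * x * d⁻¹) = (n⁻¹ * d * n) * (n⁻¹ * x) * d⁻¹ := by group
      rw [e1, D.mul_mem_cancel_right (D.inv_mem hd), D.mul_mem_cancel_left h5]
    simp only [hcond]
    rw [hf d hd x]

/-- idempotents are not killed by the projection if they are not killed by the Brauer map -/
theorem proj_ne_zero [Fintype A] {D : Subgroup A} (hD : IsPGroup p D) {f : MonoidAlgebra k A}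
    (hf : InvBy D f) (hff : f * f = f) (h : HasBr D f) : proj D f ≠ 0 := by
  classical
  intro h0
  set c := resS (Subgroup.centralizer (D : Set A) : Set A) f with hc
  have hc0 : c ≠ 0 := hasBr_restrict h
  have hcc : c * c = c := by
    rw [hc, ← resS_mul (p := p) hD hf hf, hff]
  have hpc : proj D c = 0 := by rw [hc, proj_res (p := p) hD hf, h0]
  have hcs : ∀ x, c.coeff x ≠ 0 → x ∈ Subgroup.centralizer (D : Set A) := by
    intro x hx
    by_contra hxD
    exact hx (coeff_resS_of_notMem f hxD)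
  have hcomm : ∀ d ∈ D, Commute (single d (1 : k)) c := by
    have h1 : InvBy D c := by
      intro d hd x
      by_cases hx : x ∈ Subgroup.centralizer (D : Set A)
      · have e : d * x * d⁻¹ = x := by
          rw [Subgroup.mem_centralizer_iff.1 hx d hd]; group
        rw [e]
      · have hx' : ¬ d * x * d⁻¹ ∈ Subgroup.centralizer (D : Set A) := by
          intro h2
          apply hx
          have e : d * (d * x * d⁻¹) = d * x * d⁻¹ * d := Subgroup.mem_centralizer_iff.1 h2 d hd
          have e2 : d * x * d⁻¹ = x := by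
            have e3 : d * (d * x * d⁻¹) = d * x := by rw [e]; group
            exact mul_left_cancel e3
          rwa [e2] at h2
        have h3 : c.coeff x = 0 := by
          by_contra h4
          exact hx (hcs x h4)
        have h5 : c.coeff (d * x * d⁻¹) = 0 := by
          by_contra h4
          exact hx' (hcs _ h4)
        rw [h3, h5]
    exact fun d hd => invBy_iff_commute.1 h1 d hd
  obtain ⟨w, hw0, hwD, hwc⟩ := exists_fixed (k := k) hD (radMul (k := k) D) c hc0
  have hcw : c * w = w := by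
    clear hw0 hwD
    induction hwc using AddSubgroup.closure_induction with
    | mem w hw =>
      obtain ⟨v, rfl⟩ := hw
      change c * radMul D v c = radMul D v c
      rw [radMul_apply, ← mul_assoc, ← (hcomm v v.2).eq, mul_assoc, hcc]
    | zero => rw [mul_zero]
    | add a b _ _ ha hb => rw [mul_add, ha, hb]
    | neg a _ ha => rw [mul_neg, ha]
  have hinv : ∀ v ∈ D, ∀ x, w.coeff (v * x) = w.coeff x := by
    intro v hv x
    have h1 := hwD ⟨v⁻¹, D.inv_mem hv⟩
    rw [radMul_apply] at h1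
    have h2 := congrArg (fun a : MonoidAlgebra k A => a.coeff x) h1
    simp only [coeff_single_mul_apply, one_mul, inv_inv] at h2
    exact h2
  apply hw0
  rw [← hcw]
  ext y
  change (c * w).coeff y = 0
  have hch : ∀ u : NQ D, ∃ n : A, ∃ hn, u = qm D n hn := fun u => by
    obtain ⟨n, hn, e⟩ := qm_surj u
    exact ⟨n, hn, e⟩
  choose N hN hNu using hch
  have h1 := sum_qm (R := D) c (fun u => w.coeff ((N u)⁻¹ * y))
  have h2 : ∑ u : NQ D, (proj D c).coeff u * w.coeff ((N u)⁻¹ * y) = 0 := by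
    refine Finset.sum_eq_zero fun u _ => ?_
    rw [hpc]
    change (0 : k) * _ = 0
    rw [zero_mul]
  have h3 : ∀ x : ↥(Subgroup.normalizer (D : Set A)),
      w.coeff ((N (qm D x x.2))⁻¹ * y) = w.coeff ((x : A)⁻¹ * y) := by
    intro x
    have h4 := hNu (qm D x x.2)
    have h5 := qm_eq_iff.1 h4.symm
    have e : (N (qm D x x.2))⁻¹ * y = ((N (qm D x x.2))⁻¹ * x) * ((x : A)⁻¹ * y) := by group
    rw [e, hinv _ h5]
  rw [coeff_mul_fin]
  have h6 : ∑ x : A, c.coeff x * w.coeff (x⁻¹ * y)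
      = ∑ x : ↥(Subgroup.normalizer (D : Set A)), c.coeff (x : A) * w.coeff ((x : A)⁻¹ * y) := by
    rw [← Finset.sum_filter_of_ne (p := fun x => x ∈ Subgroup.normalizer (D : Set A))]
    · apply Finset.sum_subtype
      intro x; simp
    · intro x _ hx
      exact Subgroup.centralizer_le_normalizer _ (hcs x (left_ne_zero_of_mul hx))
  rw [h6]
  rw [h2] at h1
  rw [h1]
  exact Finset.sum_congr rfl fun x _ => by rw [h3]

/-- the Brauer supports of the blocks below the projection lift -/
theorem hasBr_pre [Fintype A] {R : Subgroup A} (hR : IsPGroup p R)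
    {b : MonoidAlgebra k A} (hb' : InvBy ⊤ b)
    {b' : MonoidAlgebra k (NQ R)} (hblk : IsBlock (⊤ : Subgroup (NQ R)) b')
    (hcb : proj R b * b' = b') {P' : Subgroup (NQ R)} (hpP' : IsPGroup p P') (hbr : HasBr P' b') :
    HasBr (pre R P') b := by
  classical
  have hpP : IsPGroup p (pre R P') := isPGroup_pre hR hpP'
  have hres := resS_mul (p := p) hpP' ((proj_invBy hb' R).mono (le_top : P' ≤ ⊤))
    (hblk.invBy.mono le_top)
  rw [hcb] at hres
  obtain ⟨w, hw, hw0⟩ : ∃ w ∈ Subgroup.centralizer (P' : Set (NQ R)), (proj R b).coeff w ≠ 0 := by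
    by_contra hcon
    push Not at hcon
    have h1 : resS (Subgroup.centralizer (P' : Set (NQ R)) : Set (NQ R)) (proj R b) = 0 := by
      ext w
      by_cases hw : w ∈ (Subgroup.centralizer (P' : Set (NQ R)) : Set (NQ R))
      · rw [coeff_resS_of_mem _ hw, hcon w hw]
        rfl
      · rw [coeff_resS_of_notMem _ hw]
        rfl
    rw [h1, zero_mul] at hres
    exact hasBr_restrict hbr hres
  obtain ⟨n, hnR, rfl⟩ := qm_surj w
  rw [coeff_proj] at hw0
  rw [Subgroup.mem_centralizer_iff] at hw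
  rw [sum_conj_eq (p := p) hpP (fun x => if n⁻¹ * x ∈ R then b.coeff x else 0) ?_
    (Finset.univ.filter (fun x => x ∈ Subgroup.centralizer (pre R P' : Set A)))
    (fun x => by simp)] at hw0
  · obtain ⟨x, hx, hx0⟩ := Finset.exists_ne_zero_of_sum_ne_zero hw0
    rw [Finset.mem_filter] at hx
    refine ⟨x, hx.2, fun h0 => hx0 ?_⟩
    rw [h0]
    split_ifs <;> rfl
  · intro d hd x
    obtain ⟨hdR, hd2⟩ := mem_pre.1 hd
    have h1 := hw _ hd2
    have h2 : n⁻¹ * d * n * d⁻¹ ∈ R := by
      have h3 : qm R (n⁻¹ * d * n * d⁻¹) ((Subgroup.normalizer (R : Set A)).mul_mem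
          ((Subgroup.normalizer (R : Set A)).mul_mem ((Subgroup.normalizer (R : Set A)).mul_mem
            ((Subgroup.normalizer (R : Set A)).inv_mem hnR) hdR) hnR)
          ((Subgroup.normalizer (R : Set A)).inv_mem hdR)) = 1 := by
        change (qm R n hnR)⁻¹ * qm R d hdR * qm R n hnR * (qm R d hdR)⁻¹ = 1
        rw [mul_assoc (qm R n hnR)⁻¹, h1]
        group
      exact qm_eq_one_iff.1 h3
    have hcond : n⁻¹ * (d * x * d⁻¹) ∈ R ↔ n⁻¹ * x ∈ R := by
      have e1 : n⁻¹ * (d * x * d⁻¹) = (n⁻¹ * d * n * d⁻¹) * (d * (n⁻¹ * x) * d⁻¹) := by group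
      rw [e1, R.mul_mem_cancel_left h2]
      exact ((Subgroup.mem_normalizer_iff.1 hdR) _).symm
    simp only [hcond]
    rw [hb' d (Subgroup.mem_top d) x]

variable (p) in
include p in
/-- some block does not annihilate a nonnilpotent central element -/
theorem exists_blk {y : MonoidAlgebra k A} (hy : y ∈ fixAlg k (⊤ : Subgroup A) ⊤)
    (hn : ¬ IsNilpotent y) : ∃ f, IsBlock (⊤ : Subgroup A) f ∧ ¬ IsNilpotent (y * f) := by
  classical
  have _ := Fintype.ofFinite A
  let Bl : Finset (MonoidAlgebra k A) := (finite_isBlock (k := k) (⊤ : Subgroup A)).toFinset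
  have hBl : ∀ b, b ∈ Bl ↔ IsBlock (⊤ : Subgroup A) b ∧ b * 1 ≠ 0 := by
    intro b
    rw [Set.Finite.mem_toFinset, mul_one]
    exact ⟨fun hb => ⟨hb, IsBlock.ne_zero hb⟩, fun hb => hb.1⟩
  have h1 := WSumAux.sum_blocks (p := p) (fixAlg k (⊤ : Subgroup A) ⊤).one_mem (one_mul 1) Bl hBl
  have h2 : y = ∑ b ∈ Bl, y * b := by
    rw [← Finset.mul_sum, h1, mul_one]
  by_contra hcon
  push Not at hcon
  apply hn
  rw [h2]
  have hm : ∀ b ∈ Bl, y * b ∈ fixAlg k (⊤ : Subgroup A) ⊤ := fun b hb =>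
    (fixAlg k (⊤ : Subgroup A) ⊤).mul_mem hy ((hBl b).1 hb).1.mem
  refine Commute.isNilpotent_sum (fun b hb => hcon b ((hBl b).1 hb).1) (fun b c hb hc => ?_)
  exact commute_of (mem_fixAlg.1 (hm b hb)).1 (mem_fixAlg.1 (hm c hc)).2

theorem proj_mem [Fintype A] {D : Subgroup A} {y : MonoidAlgebra k A}
    (hy : y ∈ fixAlg k (⊤ : Subgroup A) ⊤) : proj D y ∈ fixAlg k (⊤ : Subgroup (NQ D)) ⊤ :=
  mem_fixAlg.2 ⟨fun x _ => Subgroup.mem_top x, proj_invBy (mem_fixAlg.1 hy).2 D⟩

/-- a block of `NQ D` below a nonzero projection -/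
theorem exists_below [Fintype A] {D : Subgroup A} {c : MonoidAlgebra k (NQ D)}
    (hc : c ∈ fixAlg k (⊤ : Subgroup (NQ D)) ⊤) (hcc : c * c = c) (hc0 : c ≠ 0) :
    ∃ g, IsBlock (⊤ : Subgroup (NQ D)) g ∧ c * g = g := by
  let d : fixAlg k (⊤ : Subgroup (NQ D)) ⊤ := ⟨c, hc⟩
  have hd0 : d ≠ 0 := fun h => hc0 (congrArg Subtype.val h)
  have hdd : d * d = d := Subtype.ext hcc
  obtain ⟨f, hf, hfd⟩ := exists_prim_le k hd0 hdd
  refine ⟨f.1, isBlock_of_primIdem hf, ?_⟩
  have h1 : d * f = f := by rw [mul_comm]; exact hfd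
  exact congrArg Subtype.val h1

end NilBAux

theorem nilp_top {y z : MonoidAlgebra k A} (hy : y ∈ fixAlg k (⊤ : Subgroup A) ⊤)
    (hz : z ∈ fixAlg k (⊤ : Subgroup A) ⊤) (hp : ∀ x, y.coeff x ≠ 0 → Pel p x ∧ x ≠ 1)
    (h : ∀ u c, y.coeff u ≠ 0 → z.coeff c ≠ 0 → u * c ≠ c * u) : IsNilpotent (y * z) := by
  classical
  have _ := Fintype.ofFinite A
  by_contra hnil
  have hyz : y * z ∈ fixAlg k (⊤ : Subgroup A) ⊤ := (fixAlg k (⊤ : Subgroup A) ⊤).mul_mem hy hz
  obtain ⟨f, hf, hnf⟩ := NilBAux.exists_blk p hyz hnil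
  obtain ⟨w, hw, hwf⟩ := (blk_nilp_or_unit hf hyz).resolve_left hnf
  obtain ⟨D, hDd, -⟩ := exists_defect (p := p) (N := (⊤ : Subgroup A)) (P := ⊥) bot_le
    IsPGroup.of_bot hf.hasBr_bot
  have hD : IsPGroup p D := hDd.isPGroup
  have hyI : InvBy (⊤ : Subgroup A) y := (mem_fixAlg.1 hy).2
  have hzI : InvBy (⊤ : Subgroup A) z := (mem_fixAlg.1 hz).2
  have hwI : InvBy (⊤ : Subgroup A) w := (mem_fixAlg.1 hw).2
  have hyzI : InvBy (⊤ : Subgroup A) (y * z) := (mem_fixAlg.1 hyz).2
  have hyzw : y * z * w ∈ fixAlg k (⊤ : Subgroup A) ⊤ :=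
    (fixAlg k (⊤ : Subgroup A) ⊤).mul_mem hyz hw
  have hprod : proj D y * proj D z * proj D w * proj D f = proj D f := by
    rw [← proj_mul hD (hyI.mono le_top) (hzI.mono le_top),
      ← proj_mul hD (hyzI.mono le_top) (hwI.mono le_top),
      ← proj_mul hD ((mem_fixAlg.1 hyzw).2.mono le_top) (hf.invBy.mono le_top), hwf]
  have hpf0 : proj D f ≠ 0 :=
    NilBAux.proj_ne_zero hD (hf.invBy.mono le_top) hf.idem hDd.br
  have hpff : proj D f * proj D f = proj D f := by
    rw [← proj_mul hD (hf.invBy.mono le_top) (hf.invBy.mono le_top), hf.idem]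
  obtain ⟨g, hg, hfg⟩ := NilBAux.exists_below (NilBAux.proj_mem hf.mem) hpff hpf0
  have hgdz : IsDZ p (⊤ : Subgroup (NQ D)) g := by
    refine ⟨hg, fun P _ hpP hbr => ?_⟩
    have h1 := NilBAux.hasBr_pre hD hf.invBy hg hfg hpP hbr
    have h2 : pre D P = D := hDd.max _ le_top (isPGroup_pre hD hpP) h1 (le_pre P)
    rw [eq_bot_iff]
    intro u hu
    obtain ⟨x, hx, rfl⟩ := qm_surj u
    have h3 : x ∈ pre D P := mem_pre.2 ⟨hx, hu⟩
    rw [h2] at h3
    rw [Subgroup.mem_bot, qm_eq_one_iff]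
    exact h3
  have hg1 : proj D y * proj D z * proj D w * g = g := by
    rw [← hfg, ← mul_assoc, hprod]
  -- the image of `y`
  set a := (proj D y).coeff 1 with ha
  have hy1m : proj D y - a • (1 : MonoidAlgebra k (NQ D)) ∈ fixAlg k (⊤ : Subgroup (NQ D)) ⊤ :=
    (fixAlg k (⊤ : Subgroup (NQ D)) ⊤).sub_mem (NilBAux.proj_mem hy)
      ((fixAlg k (⊤ : Subgroup (NQ D)) ⊤).smul_mem (fixAlg k (⊤ : Subgroup (NQ D)) ⊤).one_mem a)
  have hy1 : (proj D y - a • (1 : MonoidAlgebra k (NQ D))) * g = 0 := by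
    refine dz_pel hgdz hy1m fun u hu => ?_
    have hco : (proj D y - a • (1 : MonoidAlgebra k (NQ D))).coeff u
        = (proj D y).coeff u - a * (1 : MonoidAlgebra k (NQ D)).coeff u := rfl
    rw [hco, coeff_one'] at hu
    have hu1 : u ≠ 1 := by
      rintro rfl
      rw [if_pos rfl, mul_one, ← ha, sub_self] at hu
      exact hu rfl
    rw [if_neg hu1, mul_zero, sub_zero] at hu
    refine ⟨?_, hu1⟩
    obtain ⟨n, hn, rfl⟩ := qm_surj u
    rw [coeff_proj] at hu
    obtain ⟨x, -, hx⟩ := Finset.exists_ne_zero_of_sum_ne_zero hu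
    have hxD : n⁻¹ * x ∈ D := by
      by_contra hc
      rw [if_neg hc] at hx
      exact hx rfl
    rw [if_pos hxD] at hx
    have hxN : x ∈ Subgroup.normalizer (D : Set A) := by
      have := (Subgroup.normalizer (D : Set A)).mul_mem hn (Subgroup.le_normalizer hxD)
      rwa [mul_inv_cancel_left] at this
    have he : qm D n hn = qm D x hxN := qm_eq_iff.2 hxD
    obtain ⟨m, hm⟩ := (hp x hx).1
    refine ⟨m, ?_⟩
    rw [he, ← qm_pow hxN _ ((Subgroup.normalizer (D : Set A)).pow_mem hxN _), qm_eq_one_iff, hm]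
    exact D.one_mem
  have hyg : proj D y * g = a • g := by
    rw [sub_mul, smul_mul_assoc, one_mul, sub_eq_zero] at hy1
    exact hy1
  have hcz : proj D z * g = g * proj D z :=
    (commute_of (fun x _ => Subgroup.mem_top x) hg.invBy)
  have hcw : proj D w * g = g * proj D w :=
    (commute_of (fun x _ => Subgroup.mem_top x) hg.invBy)
  have hg2 : a • (g * (proj D z * proj D w)) = g := by
    calc a • (g * (proj D z * proj D w)) = (proj D y * g) * (proj D z * proj D w) := by
          rw [hyg, smul_mul_assoc]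
      _ = proj D y * (g * proj D z) * proj D w := by simp only [mul_assoc]
      _ = proj D y * proj D z * (g * proj D w) := by rw [← hcz]; simp only [mul_assoc]
      _ = g := by rw [← hcw, ← mul_assoc, hg1]
  have ha0 : a ≠ 0 := by
    intro h0
    rw [h0, zero_smul] at hg2
    exact hg.ne_zero hg2.symm
  have hz0 : proj D z ≠ 0 := by
    intro h0
    rw [h0, zero_mul, mul_zero, smul_zero] at hg2
    exact hg.ne_zero hg2.symm
  obtain ⟨c, hcD, hc0⟩ := hasBr_of_proj hD (hzI.mono le_top) hz0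
  have h1m : (1 : A) ∈ Subgroup.normalizer (D : Set A) :=
    (Subgroup.normalizer (D : Set A)).one_mem
  have ha1 : a = (proj D y).coeff (qm D 1 h1m) := rfl
  rw [ha1, coeff_proj] at ha0
  obtain ⟨u, -, hu⟩ := Finset.exists_ne_zero_of_sum_ne_zero ha0
  have huD : u ∈ D := by
    by_contra hc
    rw [inv_one, one_mul, if_neg hc] at hu
    exact hu rfl
  rw [inv_one, one_mul, if_pos huD] at hu
  exact h u c hu hc0 (Subgroup.mem_centralizer_iff.1 hcD u huD)

end Pool.Agent.Lib.P0c8ca5.Bw
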