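import Mathlib
import Pool.Agent.Lib.P0c8ca5Bw.NilB
import Pool.Agent.Lib.P0c8ca5Bw.DC

/-!
# NilC: the functional `TS` vanishes on `z` if `z` vanishes on the centralizers of the elements of `S`

PROOF. `nilp_sub`: transport to the group `↥U`: `dn U` (P0c8ca5N.TrC: `MonoidAlgebra.comapDomain Subtype.val ..`, see also `R2bAux.dnH`); it is multiplicative on elements supported in
`U`, `dn` of an element of `fixAlg k U U` is in `fixAlg k ⊤ ⊤`; `IsNilpotent (dn U y * dn U z)` by `nilp_top`; `dn U` is injective on the elements supported in `U`.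
(`Pel p` and `≠ 1` for elements of `↥U`: `DCAux.pel_coe`.)
`TS_eq_zero`: every term vanishes: `trE_nilpotent` (P0c8ca5V.R2b) with `H = sN σ`, `z = hI k S (sN σ) * rz (sN σ) z`: `hI k S U` and `rz U z` are in `fixAlg k U U` (`hC`; `z` is
central), `nilp_sub` with `y = hI k S U`: `hI_coeff`: `u⁻¹ ∈ S`; if `u * c = c * u` then `c * u⁻¹ = u⁻¹ * c`, so `z.coeff c = 0`.
-/

namespace Pool.Agent.Lib.P0c8ca5.Bw

open MonoidAlgebra

set_option linter.unusedSectionVars false

variable {p : ℕ} {k : Type*} [Field k] {A : Type*} [Group A] [Fintype A]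
variable [Fact p.Prime] [CharP k p] [IsAlgClosed k]

namespace NilCAux

theorem dn_mem {U : Subgroup A} {y : MonoidAlgebra k A} (hy : y ∈ fixAlg k U U) :
    R2bAux.dnH U y ∈ fixAlg k (⊤ : Subgroup ↥U) ⊤ := by
  rw [mem_fixAlg] at hy ⊢
  refine ⟨fun x _ => Subgroup.mem_top x, fun g _ x => ?_⟩
  rw [R2bAux.coeff_dnH, R2bAux.coeff_dnH]
  exact hy.2 g g.2 x

theorem hI_mem {S : Set A} (hC : CInv S) (U : Subgroup A) : hI k S U ∈ fixAlg k U U := by
  classical
  rw [mem_fixAlg]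
  refine ⟨fun x hx => ?_, fun g hg x => ?_⟩
  · rw [hI_coeff] at hx
    by_contra h
    exact hx (if_neg (fun h' => h h'.2))
  · rw [hI_coeff, hI_coeff]
    have e1 : (g * x * g⁻¹)⁻¹ = g * x⁻¹ * g⁻¹ := by group
    have e2 : g * x * g⁻¹ ∈ U ↔ x ∈ U := by
      rw [U.mul_mem_cancel_right (U.inv_mem hg), U.mul_mem_cancel_left hg]
    rw [e1]
    simp only [hC g x⁻¹, e2]

theorem rz_mem {z : MonoidAlgebra k A} (hz : z ∈ fixAlg k (⊤ : Subgroup A) ⊤) (U : Subgroup A) :
    rz U z ∈ fixAlg k U U := by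
  classical
  rw [mem_fixAlg] at hz ⊢
  refine ⟨fun x hx => ?_, fun g hg x => ?_⟩
  · rw [rz_coeff] at hx
    by_contra h
    exact hx (if_neg h)
  · rw [rz_coeff, rz_coeff]
    have e2 : g * x * g⁻¹ ∈ U ↔ x ∈ U := by
      rw [U.mul_mem_cancel_right (U.inv_mem hg), U.mul_mem_cancel_left hg]
    simp only [e2, hz.2 g (Subgroup.mem_top g) x]

end NilCAux

theorem nilp_sub {U : Subgroup A} {y z : MonoidAlgebra k A} (hy : y ∈ fixAlg k U U)
    (hz : z ∈ fixAlg k U U) (hp : ∀ x, y.coeff x ≠ 0 → Pel p x ∧ x ≠ 1)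
    (h : ∀ u c, y.coeff u ≠ 0 → z.coeff c ≠ 0 → u * c ≠ c * u) : IsNilpotent (y * z) := by
  have h1 : IsNilpotent (R2bAux.dnH U y * R2bAux.dnH U z) := by
    refine nilp_top (p := p) (NilCAux.dn_mem hy) (NilCAux.dn_mem hz) (fun x hx => ?_)
      (fun u c hu hc he => ?_)
    · obtain ⟨h2, h3⟩ := hp (x : A) hx
      exact ⟨DCAux.pel_coe x |>.1 h2, fun h4 => h3 (by rw [h4]; rfl)⟩
    · exact h (u : A) (c : A) hu hc (congrArg Subtype.val he)
  have h2 : MonoidAlgebra.mapDomainRingHom k U.subtype (R2bAux.dnH U y) = y :=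
    R2bAux.up_dnH (mem_fixAlg.1 hy).1
  have h3 : MonoidAlgebra.mapDomainRingHom k U.subtype (R2bAux.dnH U z) = z :=
    R2bAux.up_dnH (mem_fixAlg.1 hz).1
  have h4 := h1.map (MonoidAlgebra.mapDomainRingHom k U.subtype)
  rwa [map_mul, h2, h3] at h4

theorem TS_eq_zero {S : Set A} (hC : CInv S) (hP : PSet p S) {z : MonoidAlgebra k A}
    (hz : z ∈ fixAlg k (⊤ : Subgroup A) ⊤)
    (h : ∀ u ∈ S, ∀ c, c * u = u * c → z.coeff c = 0) : TS p S z = 0 := by
  classical
  unfold TS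
  refine Finset.sum_eq_zero fun σ _ => ?_
  have h1 := (fixAlg k (sN σ) (sN σ)).mul_mem (NilCAux.hI_mem (k := k) hC (sN σ))
    (NilCAux.rz_mem hz (sN σ))
  rw [mem_fixAlg] at h1
  have h2 : IsNilpotent (hI k S (sN σ) * rz (sN σ) z) := by
    refine nilp_sub (p := p) (NilCAux.hI_mem (k := k) hC (sN σ)) (NilCAux.rz_mem hz (sN σ))
      (fun x hx => ?_) (fun u c hu hc he => ?_)
    · rw [hI_coeff] at hx
      have h3 : x⁻¹ ∈ S := by
        by_contra h4
        exact hx (if_neg (fun h' => h4 h'.1))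
      obtain ⟨⟨n, hn⟩, h5⟩ := hP _ h3
      refine ⟨⟨n, ?_⟩, fun h6 => h5 (by rw [h6, inv_one])⟩
      rw [inv_pow, inv_eq_one] at hn
      exact hn
    · rw [hI_coeff] at hu
      have h3 : u⁻¹ ∈ S := by
        by_contra h4
        exact hu (if_neg (fun h' => h4 h'.1))
      rw [rz_coeff] at hc
      by_cases h5 : c ∈ sN σ
      · rw [if_pos h5] at hc
        apply hc
        apply h _ h3 c
        have h6 : Commute u c := he
        exact (h6.inv_left.eq).symm
      · exact hc (if_neg h5)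
  rw [trE_nilpotent (p := p) h1.1 h1.2 h2, mul_zero]

end Pool.Agent.Lib.P0c8ca5.Bw
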