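import Mathlib
import Pool.Agent.Lib.P0c8ca5Bw.Defs

/-!
# ChR: sums over the chains and sums over the representatives of the classes of chains

PROOF of `sum_chR`. `actS` (P0c8ca5V.ChOrb, `ChOrbAux.actS`) is the action of `A` on the finite sets of subgroups, `g • σ = cgS g σ`. Let
`F σ = if IsCh p σ then |sN σ| * w σ else 0`, an invariant function (`isCh_cgS`, `sN_cgS`, `card_cg`). Sum by orbits (`Finset.sum_fiberwise`, as in
`OrbAux.dvd_sum_orbits`, P0c8ca5V.Orb): an orbit of chains with representative `σ` (`Quotient.out`) contributes `|orbit| * |sN σ| * w σ = |A| * w σ`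
because the stabilizer of a chain is `sN σ` (`cgS_eq_iff`) (`OrbAux.card_orbit_mul`). The members of `chR p A` are exactly the `Quotient.out` of the orbits of chains.
-/

namespace Pool.Agent.Lib.P0c8ca5.Bw

variable {p : ℕ} {A : Type*} [Group A] [Finite A]

theorem isCh_of_mem_chR {σ : Finset (Subgroup A)} (h : σ ∈ chR p A) : IsCh p σ := by
  unfold chR at h
  rw [Set.Finite.mem_toFinset] at h
  exact h.1

namespace ChRAux

open Classical in
theorem sum_orbits {T X : Type*} [Group T] [MulAction T X] [Fintype X] (F : X → ℤ)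
    (hF : ∀ (t : T) (x : X), F (t • x) = F x) :
    ∑ x : X, F x = ∑ ω : Quotient (MulAction.orbitRel T X),
      (Nat.card (MulAction.orbit T ω.out) : ℤ) * F ω.out := by
  have hs : ∑ x : X, F x = ∑ ω : Quotient (MulAction.orbitRel T X),
      ∑ x ∈ Finset.univ.filter (fun x => (⟦x⟧ : Quotient (MulAction.orbitRel T X)) = ω), F x := by
    rw [Finset.sum_fiberwise]
  rw [hs]
  refine Finset.sum_congr rfl fun ω _ => ?_
  have hmem : ∀ x : X, (⟦x⟧ : Quotient (MulAction.orbitRel T X)) = ω ↔
      x ∈ MulAction.orbit T ω.out := by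
    intro x
    rw [← MulAction.orbitRel_apply]
    constructor
    · intro h
      apply Quotient.exact
      rw [h, Quotient.out_eq]
    · intro h
      rw [← Quotient.out_eq ω]
      exact Quotient.sound h
  have h1 : ∀ x ∈ Finset.univ.filter
      (fun x => (⟦x⟧ : Quotient (MulAction.orbitRel T X)) = ω), F x = F ω.out := by
    intro x hx
    rw [Finset.mem_filter] at hx
    obtain ⟨t, ht⟩ := (hmem x).1 hx.2
    rw [← ht]
    exact hF t _
  rw [Finset.sum_congr rfl h1, Finset.sum_const, nsmul_eq_mul]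
  congr 2
  rw [Nat.card_eq_card_toFinset]
  congr 1
  ext x
  rw [Finset.mem_filter, Set.mem_toFinset, ← hmem x]
  simp

end ChRAux

open Classical in
theorem sum_chR (p : ℕ) (w : Finset (Subgroup A) → ℤ)
    (hw : ∀ g σ, IsCh p σ → w (ChOrbAux.cgS g σ) = w σ) :
    ∑ᶠ σ : Finset (Subgroup A), (if IsCh p σ then (Nat.card ↥(sN σ) : ℤ) * w σ else 0)
      = (Nat.card A : ℤ) * ∑ σ ∈ chR p A, w σ := by
  have : Fintype (Subgroup A) := Fintype.ofFinite _
  rw [finsum_eq_sum_of_fintype]
  let _ := ChOrbAux.actS (A := A)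
  have hF : ∀ (t : A) (σ : Finset (Subgroup A)),
      (if IsCh p (t • σ) then (Nat.card ↥(sN (t • σ)) : ℤ) * w (t • σ) else 0) =
        if IsCh p σ then (Nat.card ↥(sN σ) : ℤ) * w σ else 0 := by
    intro t σ
    have e : t • σ = ChOrbAux.cgS t σ := rfl
    rw [e]
    by_cases h : IsCh p σ
    · rw [if_pos h, if_pos ((ChOrbAux.isCh_cgS t σ).2 h), ChOrbAux.sN_cgS, card_cg, hw t σ h]
    · rw [if_neg h, if_neg fun h' => h ((ChOrbAux.isCh_cgS t σ).1 h')]
  rw [ChRAux.sum_orbits (T := A)
    (fun σ : Finset (Subgroup A) => if IsCh p σ then (Nat.card ↥(sN σ) : ℤ) * w σ else 0) hF]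
  have h1 : ∀ ω : Quotient (MulAction.orbitRel A (Finset (Subgroup A))),
      (Nat.card (MulAction.orbit A ω.out) : ℤ) *
        (if IsCh p ω.out then (Nat.card ↥(sN ω.out) : ℤ) * w ω.out else 0) =
      if IsCh p ω.out then (Nat.card A : ℤ) * w ω.out else 0 := by
    intro ω
    by_cases h : IsCh p ω.out
    · rw [if_pos h, if_pos h, ← mul_assoc]
      congr 1
      have e : MulAction.stabilizer A ω.out = sN ω.out := by
        ext g
        rw [MulAction.mem_stabilizer_iff]
        exact ChOrbAux.cgS_eq_iff h g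
      have h2 := OrbAux.card_orbit_mul (T := A) ω.out
      rw [e] at h2
      exact_mod_cast h2
    · rw [if_neg h, if_neg h, mul_zero]
  rw [Finset.sum_congr rfl fun ω _ => h1 ω, ← Finset.sum_filter, Finset.mul_sum]
  refine Finset.sum_nbij (fun ω => ω.out) ?_ ?_ ?_ fun ω _ => rfl
  · intro ω hω
    rw [Finset.mem_filter] at hω
    unfold chR
    rw [Set.Finite.mem_toFinset]
    refine ⟨hω.2, ?_⟩
    exact congrArg Quotient.out (Quotient.out_eq ω)
  · intro ω _ ω' _ h
    have h2 : (⟦ω.out⟧ : Quotient (MulAction.orbitRel A (Finset (Subgroup A)))) = ⟦ω'.out⟧ :=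
      congrArg _ h
    rwa [Quotient.out_eq, Quotient.out_eq] at h2
  · intro σ hσ
    have h2 := Finset.mem_coe.1 hσ
    unfold chR at h2
    rw [Set.Finite.mem_toFinset] at h2
    refine ⟨(⟦σ⟧ : Quotient (MulAction.orbitRel A (Finset (Subgroup A)))), ?_, h2.2⟩
    rw [Finset.mem_coe, Finset.mem_filter]
    refine ⟨Finset.mem_univ _, ?_⟩
    have h3 : (⟦σ⟧ : Quotient (MulAction.orbitRel A (Finset (Subgroup A)))).out = σ := h2.2
    rw [h3]
    exact h2.1

end Pool.Agent.Lib.P0c8ca5.Bw
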