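import Mathlib
import Pool.Agent.Lib.P0c8ca5V.TCnt
import Pool.Agent.Lib.P0c8ca5Bw.DC

/-!
# NsT: the number of the triples in `U` with `[a, b] c ∈ S` as a trace

PROOF (as `nA_trE` in P0c8ca5V.TCnt). Let `m' w = ∑ u : A, if u ∈ S ∧ u ∈ U ∧ w ∈ U then m (w * u) else 0`;
`m' (h x h⁻¹) = m' x` for `h ∈ U` (`hC`, `hm`). `nE U m' = ∑_{a, b ∈ U} m' ((cmt a b)⁻¹)
= ∑_{a, b ∈ U} ∑_{u ∈ S ∩ U} m ((cmt a b)⁻¹ * u) = ∑_{a, b, c ∈ U, cmt a b * c ∈ S} m c = nS S U m` (`c = (cmt a b)⁻¹ * u`).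
Apply `nE_trE` (R2b) to `m'`. The cast of `m' w` is the coefficient of `hI k S U * rz U (zel k m)` at `w`: by `coeff_mul_fin`
this coefficient is `∑ v, [v⁻¹ ∈ S, v ∈ U] * [v⁻¹ * w ∈ U] m (v⁻¹ * w)`; substitute `v = u⁻¹`; it is `∑_{u ∈ S ∩ U} [u * w ∈ U] m (u * w)`, and
`m (u * w) = m (w * u)` as `w * u = u⁻¹ * (u * w) * u`, `u ∈ U`.
-/

namespace Pool.Agent.Lib.P0c8ca5.Bw

open MonoidAlgebra

set_option linter.unusedSectionVars false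

variable {k : Type*} [Field k] {A : Type*} [Group A] [Fintype A]

namespace NsTAux

open Classical in
/-- the coefficients of `hI * rz (zel m)` -/
noncomputable def ms (S : Set A) (U : Subgroup A) (m : A → ℤ) (w : A) : ℤ :=
  ∑ v : A, if (v⁻¹ ∈ S ∧ v ∈ U) ∧ v⁻¹ * w ∈ U then m (v⁻¹ * w) else 0

theorem ms_coeff (S : Set A) (U : Subgroup A) (m : A → ℤ) (w : A) :
    ((ms S U m w : ℤ) : k) = (hI k S U * rz U (zel k m)).coeff w := by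
  classical
  unfold ms
  rw [coeff_mul_fin, Int.cast_sum]
  refine Finset.sum_congr rfl fun v _ => ?_
  rw [hI_coeff, rz_coeff, zel_coeff]
  by_cases h1 : v⁻¹ ∈ S ∧ v ∈ U
  · by_cases h2 : v⁻¹ * w ∈ U
    · rw [if_pos ⟨h1, h2⟩, if_pos h1, if_pos h2, one_mul]
    · rw [if_neg (fun h => h2 h.2), if_pos h1, if_neg h2, mul_zero, Int.cast_zero]
  · rw [if_neg (fun h => h1 h.1), if_neg h1, zero_mul, Int.cast_zero]

theorem mem_conj (U : Subgroup A) {h : A} (hh : h ∈ U) (x : A) : h * x * h⁻¹ ∈ U ↔ x ∈ U := by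
  constructor
  · intro hx
    have := U.mul_mem (U.mul_mem (U.inv_mem hh) hx) hh
    have e : h⁻¹ * (h * x * h⁻¹) * h = x := by group
    rwa [e] at this
  · intro hx
    exact U.mul_mem (U.mul_mem hh hx) (U.inv_mem hh)

theorem ms_conj {S : Set A} (hC : CInv S) (U : Subgroup A) {m : A → ℤ}
    (hm : ∀ h ∈ U, ∀ x, m (h * x * h⁻¹) = m x) (h : A) (hh : h ∈ U) (x : A) :
    ms S U m (h * x * h⁻¹) = ms S U m x := by
  classical
  unfold ms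
  rw [← Equiv.sum_comp (MulAut.conj h).toEquiv]
  refine Finset.sum_congr rfl fun v _ => ?_
  have e1 : (MulAut.conj h).toEquiv v = h * v * h⁻¹ := rfl
  have e2 : (h * v * h⁻¹)⁻¹ * (h * x * h⁻¹) = h * (v⁻¹ * x) * h⁻¹ := by group
  have e3 : (h * v * h⁻¹)⁻¹ = h * v⁻¹ * h⁻¹ := by group
  rw [e1, e2, e3, hm h hh]
  have i1 : h * v⁻¹ * h⁻¹ ∈ S ↔ v⁻¹ ∈ S := hC h v⁻¹
  by_cases h1 : (v⁻¹ ∈ S ∧ v ∈ U) ∧ v⁻¹ * x ∈ U
  · rw [if_pos h1, if_pos ⟨⟨i1.2 h1.1.1, (mem_conj U hh v).2 h1.1.2⟩, (mem_conj U hh _).2 h1.2⟩]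
  · rw [if_neg h1, if_neg]
    intro h2
    exact h1 ⟨⟨i1.1 h2.1.1, (mem_conj U hh v).1 h2.1.2⟩, (mem_conj U hh _).1 h2.2⟩

theorem ms_inv {S : Set A} (hC : CInv S) (U : Subgroup A) (m : A → ℤ) {w : A} (hw : w ∈ U) :
    ms S U m w⁻¹ = ∑ c : A, @ite ℤ (c ∈ U ∧ w * c ∈ S) (Classical.propDecidable _) (m c) 0 := by
  classical
  unfold ms
  rw [← Equiv.sum_comp ((Equiv.mulRight w).trans (Equiv.inv A))]
  refine Finset.sum_congr rfl fun c _ => ?_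
  have e1 : ((Equiv.mulRight w).trans (Equiv.inv A)) c = (c * w)⁻¹ := rfl
  have e2 : ((c * w)⁻¹)⁻¹ * w⁻¹ = c := by group
  have e3 : ((c * w)⁻¹)⁻¹ = c * w := inv_inv _
  rw [e1, e2, e3]
  have i1 : w * c ∈ S ↔ c * w ∈ S := by
    have := hC w (c * w)
    have e : w * (c * w) * w⁻¹ = w * c := by group
    rwa [e] at this
  by_cases h1 : c ∈ U ∧ w * c ∈ S
  · rw [if_pos h1, if_pos ⟨⟨i1.1 h1.2, U.inv_mem (U.mul_mem h1.1 hw)⟩, h1.1⟩]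
  · rw [if_neg h1, if_neg]
    intro h2
    exact h1 ⟨h2.2, i1.2 h2.1.1⟩

theorem cmt_mem (U : Subgroup A) {a b : A} (ha : a ∈ U) (hb : b ∈ U) : cmt a b ∈ U := by
  unfold cmt
  exact U.mul_mem (U.mul_mem (U.mul_mem ha hb) (U.inv_mem ha)) (U.inv_mem hb)

theorem nE_ms {S : Set A} (hC : CInv S) (U : Subgroup A) (m : A → ℤ) :
    nE U (ms S U m) = nS S U m := by
  classical
  unfold nE nS
  rw [finsum_eq_sum_of_fintype, finsum_eq_sum_of_fintype, Fintype.sum_prod_type,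
    Fintype.sum_prod_type]
  refine Finset.sum_congr rfl fun a _ => ?_
  rw [Fintype.sum_prod_type]
  refine Finset.sum_congr rfl fun b _ => ?_
  by_cases hab : a ∈ U ∧ b ∈ U
  · rw [if_pos hab, ms_inv hC U m (cmt_mem U hab.1 hab.2)]
    refine Finset.sum_congr rfl fun c _ => ?_
    by_cases h : c ∈ U ∧ cmt a b * c ∈ S
    · rw [if_pos h, if_pos ⟨⟨hab.1, hab.2, h.1⟩, h.2⟩]
    · rw [if_neg h, if_neg (fun h' => h ⟨h'.1.2.2, h'.2⟩)]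
  · rw [if_neg hab]
    symm
    refine Finset.sum_eq_zero fun c _ => ?_
    rw [if_neg (fun h' => hab ⟨h'.1.1, h'.1.2.1⟩)]

end NsTAux

theorem nS_trE {S : Set A} (hC : CInv S) (U : Subgroup A) {m : A → ℤ}
    (hm : ∀ h ∈ U, ∀ x, m (h * x * h⁻¹) = m x) :
    ∃ t : ℤ, nS S U m = (Nat.card U : ℤ) * t ∧
      (t : k) = trE k U (fun x => (hI k S U * rz U (zel k m)).coeff x) := by
  obtain ⟨t, h1, h2⟩ := nE_trE (k := k) U (m := NsTAux.ms S U m)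
    (fun h hh x => NsTAux.ms_conj hC U hm h hh x)
  refine ⟨t, ?_, ?_⟩
  · rw [← NsTAux.nE_ms hC, h1]
  · rw [h2]
    congr 1
    funext x
    exact NsTAux.ms_coeff S U m x

end Pool.Agent.Lib.P0c8ca5.Bw
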