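import Mathlib
import Pool.Agent.Lib.P0c8ca5Bw.NsT
import Pool.Agent.Lib.P0c8ca5Bw.ChR

/-!
# TSl: the functional `TS`

PROOF. `TS_add`, `TS_smul`: `rz` is linear (coefficients), `mul_add`, `mul_smul_comm`, `trE_add`, `trE_smul` (P0c8ca5V.TDefs).
`eS_TS`: `eS_chS` (Bw.DC): `eS p S m = chS p (fun U => nS S U m)`. For every `U` choose `t U` with `nS S U m = |U| * t U` and
`(t U : k) = trE k U ..` (`nS_trE`). By `nS_conj` `t (cg g U) = t U` (`card_cg`; cancel the order of `U`). With `w σ = (-1) ^ σ.card * t (sN σ)`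
(`card_cgS`, `sN_cgS` of ChOrbAux) `sum_chR` gives `eS p S m = |A| * ∑ σ ∈ chR p A, w σ`; cast to `k`.
-/

namespace Pool.Agent.Lib.P0c8ca5.Bw

open MonoidAlgebra

set_option linter.unusedSectionVars false

variable {p : ℕ} {k : Type*} [Field k] {A : Type*} [Group A] [Fintype A]

namespace TSlAux

theorem rz_add (U : Subgroup A) (y z : MonoidAlgebra k A) : rz U (y + z) = rz U y + rz U z := by
  classical
  ext x
  rw [coeff_add, Finsupp.add_apply, rz_coeff, rz_coeff, rz_coeff, coeff_add, Finsupp.add_apply]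
  split_ifs
  · rfl
  · rw [add_zero]

theorem rz_smul (U : Subgroup A) (c : k) (z : MonoidAlgebra k A) : rz U (c • z) = c • rz U z := by
  classical
  ext x
  rw [coeff_smul, Finsupp.smul_apply, rz_coeff, rz_coeff, coeff_smul, Finsupp.smul_apply]
  split_ifs
  · rfl
  · rw [smul_zero]

end TSlAux

theorem TS_add (S : Set A) (y z : MonoidAlgebra k A) :
    TS p S (y + z) = TS p S y + TS p S z := by
  unfold TS
  rw [← Finset.sum_add_distrib]
  refine Finset.sum_congr rfl (fun σ _ => ?_)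
  rw [← mul_add, ← trE_add]
  congr 2
  funext x
  rw [TSlAux.rz_add, mul_add, coeff_add, Finsupp.add_apply]

theorem TS_smul (S : Set A) (c : k) (z : MonoidAlgebra k A) :
    TS p S (c • z) = c * TS p S z := by
  unfold TS
  rw [Finset.mul_sum]
  refine Finset.sum_congr rfl (fun σ _ => ?_)
  rw [mul_left_comm, ← trE_smul (sN σ) c]
  congr 2
  funext x
  rw [TSlAux.rz_smul, mul_smul_comm, coeff_smul, Finsupp.smul_apply, smul_eq_mul]

theorem eS_TS {S : Set A} (hC : CInv S) {m : A → ℤ} (hm : ∀ h x, m (h * x * h⁻¹) = m x) :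
    ∃ t : ℤ, eS p S m = (Nat.card A : ℤ) * t ∧ (t : k) = TS p S (zel k m) := by
  classical
  choose t ht1 ht2 using fun U : Subgroup A => nS_trE (k := k) hC U (fun h _ x => hm h x)
  have htc : ∀ (g : A) (U : Subgroup A), t (cg g U) = t U := by
    intro g U
    have h1 := nS_conj hC U g (m := m) (fun x => hm g x)
    rw [ht1, ht1, card_cg] at h1
    have h2 : (Nat.card U : ℤ) ≠ 0 := by
      have : 0 < Nat.card U := Nat.card_pos
      exact_mod_cast this.ne'
    exact mul_left_cancel₀ h2 h1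
  refine ⟨∑ σ ∈ chR p A, (-1) ^ σ.card * t (sN σ), ?_, ?_⟩
  · have h3 := sum_chR p (A := A) (fun σ => (-1) ^ σ.card * t (sN σ)) (by
      intro g σ _
      change (-1) ^ (ChOrbAux.cgS g σ).card * t (sN (ChOrbAux.cgS g σ)) = _
      rw [ChOrbAux.card_cgS, ChOrbAux.sN_cgS, htc])
    rw [← h3, eS_chS]
    unfold chS
    refine finsum_congr (fun σ => ?_)
    split_ifs
    · change (-1) ^ σ.card * nS S (sN σ) m = _
      rw [ht1]
      ring
    · rfl
  · push_cast
    unfold TS
    refine Finset.sum_congr rfl (fun σ _ => ?_)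
    rw [ht2]

end Pool.Agent.Lib.P0c8ca5.Bw
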