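import Mathlib
import Pool.Agent.Lib.P0c8ca5V.TFin
import Pool.Agent.Lib.P0c8ca5V.Loc
import Pool.Agent.Lib.P0c8ca5Bw.TSl
import Pool.Agent.Lib.P0c8ca5Bw.NilC

/-!
# Asm: the functional `Lam` as a sum of the functionals `TS` of the sections

`TQ p S Q z` is `TS` of the image of `z` in `k[N(Q)/Q]`.
PROOF of `Lam_eq` (compare `Lam_zel` in P0c8ca5V.TFin). For a p-subgroup `Q` let `e Q = eL p (mb Q m) - nA p ⊤ (mb Q m)`. By `eE_eL`, `nA_eA` (for `mb Q m`, `mb_isWt Q hm`) and `h`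
`e Q` is `- eS p (S Q) (mb Q m)` modulo `p |NQ Q|`; `eS p (S Q) (mb Q m) = |NQ Q| * s` with `(s : k) = TS p (S Q) (zel k (mb Q m))` (`eS_TS`) and
`zel k (mb Q m) = proj Q (zel k m)` (`proj_zel`). So `e Q = |NQ Q| * w Q` with `(w Q : k) = - TQ p S Q (zel k m)` (`CharP`). Let `w Q = 0` if `Q` is not a p-group.
`FF p m Q = |Q| * e Q` (`CCAux.FF`), so `FF p m Q = |N(Q)| * w Q` for p-subgroups (`CCAux.card_NQ`), `FF p m Q = 0 ` otherwise; by `CCAux.FF_cg` `w (cg g Q) = w Q`.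
`CCAux.diff_eq`: `nL p ⊤ m - wS p m = ∑ᶠ Q, FF p m Q = ∑ Q ∈ D, |N(Q)| * w Q`, `D` the p-subgroups, `= |A| * ∑ Q ∈ TT p A, w Q` (`TFinAux.sum_crepZ` for `H = ⊤`, as in `Lam_zel`).
`Lam_zel`: `nL p ⊤ m - wS p m = |A| * t` with `(t : k) = Lam p (zel k m)`; so `t = ∑ Q ∈ TT p A, w Q`; cast to `k` (`mem_TT`).
`TQ_add`, `TQ_smul`: `proj_add`, `proj_smul`, `TS_add`, `TS_smul` (see `WQ_add`, `WQ_smul` in TFin).
-/

namespace Pool.Agent.Lib.P0c8ca5.Bw

open MonoidAlgebra TFinAux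

set_option linter.unusedSectionVars false

variable {p : ℕ} {k : Type*} [Field k] {A : Type*} [Group A] [Fintype A]

/-- the functional `TS` of the section `N(Q)/Q` -/
noncomputable def TQ (p : ℕ) (S : ∀ Q : Subgroup A, Set (NQ Q)) (Q : Subgroup A)
    (z : MonoidAlgebra k A) : k :=
  letI : Fintype (NQ Q) := Fintype.ofFinite _
  TS p (S Q) (proj Q z)

theorem TQ_add (S : ∀ Q : Subgroup A, Set (NQ Q)) (Q : Subgroup A) (y z : MonoidAlgebra k A) :
    TQ p S Q (y + z) = TQ p S Q y + TQ p S Q z := by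
  unfold TQ
  letI : Fintype (NQ Q) := Fintype.ofFinite _
  rw [proj_add, TS_add]

theorem TQ_smul (S : ∀ Q : Subgroup A, Set (NQ Q)) (Q : Subgroup A) (c : k)
    (z : MonoidAlgebra k A) : TQ p S Q (c • z) = c * TQ p S Q z := by
  unfold TQ
  letI : Fintype (NQ Q) := Fintype.ofFinite _
  rw [proj_smul, TS_smul]

variable [Fact p.Prime] [CharP k p] [IsAlgClosed k]

namespace AsmAux

/-- the local term as a multiple of the order of `N(Q)/Q` -/
theorem loc_term {m : A → ℤ} (hm : IsWt p ⊤ m) (S : ∀ Q : Subgroup A, Set (NQ Q))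
    (hC : ∀ Q, CInv (S Q)) (Q : Subgroup A)
    (h : (p : ℤ) * (Nat.card (NQ Q) : ℤ) ∣
      eA p (mb Q m) - eE p (mb Q m) - eS p (S Q) (mb Q m)) :
    ∃ w : ℤ, eL p (mb Q m) - nA p (⊤ : Subgroup (NQ Q)) (mb Q m) = (Nat.card (NQ Q) : ℤ) * w ∧
      (w : k) = - TQ p S Q (zel k m) := by
  letI : Fintype (NQ Q) := Fintype.ofFinite _
  have hmb := mb_isWt (p := p) Q hm
  have e1 := eE_eL (p := p) hmb
  have e2 := nA_eA (p := p) hmb
  obtain ⟨s, hs1, hs2⟩ := eS_TS (p := p) (k := k) (hC Q) (m := mb Q m)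
    (fun g x => hmb.conj g (Subgroup.mem_top g) x)
  have e3 : (p : ℤ) * (Nat.card (NQ Q) : ℤ) ∣
      (eL p (mb Q m) - nA p (⊤ : Subgroup (NQ Q)) (mb Q m)) + eS p (S Q) (mb Q m) := by
    have e4 : (eL p (mb Q m) - nA p (⊤ : Subgroup (NQ Q)) (mb Q m)) + eS p (S Q) (mb Q m)
        = -((nA p (⊤ : Subgroup (NQ Q)) (mb Q m) - eA p (mb Q m))
          + (eE p (mb Q m) - eL p (mb Q m))
          + (eA p (mb Q m) - eE p (mb Q m) - eS p (S Q) (mb Q m))) := by ring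
    rw [e4, dvd_neg]
    exact dvd_add (dvd_add e2 e1) h
  obtain ⟨c, hc⟩ := e3
  refine ⟨(p : ℤ) * c - s, ?_, ?_⟩
  · rw [hs1] at hc
    linear_combination hc
  · have e5 : TQ p S Q (zel k m) = TS p (S Q) (zel k (mb Q m)) := by
      unfold TQ
      rw [proj_zel]
    rw [e5, ← hs2]
    push_cast
    rw [CharP.cast_eq_zero, zero_mul, zero_sub]

theorem card_nor_cg (g : A) (Q : Subgroup A) :
    Nat.card ↥(Subgroup.normalizer ((cg g Q : Subgroup A) : Set A)) =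
      Nat.card ↥(Subgroup.normalizer (Q : Set A)) := by
  rw [← cg_normalizer, card_cg]

end AsmAux

open AsmAux

theorem Lam_eq {m : A → ℤ} (hm : IsWt p ⊤ m) (S : ∀ Q : Subgroup A, Set (NQ Q))
    (hC : ∀ Q, CInv (S Q))
    (h : ∀ Q : Subgroup A, IsPGroup p Q → (p : ℤ) * (Nat.card (NQ Q) : ℤ) ∣
      eA p (mb Q m) - eE p (mb Q m) - eS p (S Q) (mb Q m)) :
    Lam p (zel k m) = - ∑ Q ∈ TT p A, TQ p S Q (zel k m) := by
  classical
  letI : Fintype (Subgroup A) := Fintype.ofFinite _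
  let D : Finset (Subgroup A) := Finset.univ.filter (fun Q : Subgroup A => IsPGroup p Q)
  have hw : ∀ Q : Subgroup A, ∃ w : ℤ, CCAux.FF p m Q =
      (Nat.card ↥(Subgroup.normalizer (Q : Set A)) : ℤ) * w ∧
      (IsPGroup p Q → (w : k) = - TQ p S Q (zel k m)) ∧ (¬ IsPGroup p Q → w = 0) := by
    intro Q
    by_cases hQ : IsPGroup p Q
    · obtain ⟨w, hw1, hw2⟩ := loc_term (k := k) hm S hC Q (h Q hQ)
      refine ⟨w, ?_, fun _ => hw2, fun h1 => absurd hQ h1⟩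
      unfold CCAux.FF
      rw [if_pos hQ, hw1, ← CCAux.card_NQ Q]
      push_cast
      ring
    · refine ⟨0, ?_, fun h1 => absurd h1 hQ, fun _ => rfl⟩
      unfold CCAux.FF
      rw [if_neg hQ, mul_zero]
  choose w hw1 hw2 hw3 using hw
  have hwc : ∀ T ∈ D, ∀ h ∈ (⊤ : Subgroup A), w (cg h T) = w T := by
    intro T _ g _
    have h1 := CCAux.FF_cg hm g T
    rw [hw1, hw1, card_nor_cg] at h1
    have hpos : (Nat.card ↥(Subgroup.normalizer (T : Set A)) : ℤ) ≠ 0 := by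
      exact_mod_cast (Nat.card_pos (α := ↥(Subgroup.normalizer (T : Set A)))).ne'
    exact mul_left_cancel₀ hpos h1
  have h3 := sum_crepZ (⊤ : Subgroup A) D
    (fun T hT h _ => by
      rw [Finset.mem_filter] at hT ⊢
      exact ⟨Finset.mem_univ _, isPGroup_cg hT.2⟩) w hwc
  have hcard : (Nat.card (⊤ : Subgroup A)) = Nat.card A :=
    Nat.card_congr Subgroup.topEquiv.toEquiv
  have h4 : nL p (⊤ : Subgroup A) m - wS p m = (Nat.card A : ℤ) * ∑ T ∈ TT p A, w T := by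
    have h5 : TT p A = D.filter (fun Q => crep ⊤ Q = Q) := rfl
    rw [h5, ← hcard, ← h3, CCAux.diff_eq hm, finsum_eq_sum_of_fintype]
    symm
    rw [Finset.sum_filter]
    refine Finset.sum_congr rfl (fun Q _ => ?_)
    rw [hw1, top_inf_eq]
    by_cases hQ : IsPGroup p Q
    · rw [if_pos hQ]
    · rw [if_neg hQ, hw3 Q hQ, mul_zero]
  obtain ⟨t, ht, ht'⟩ := Lam_zel (k := k) hm
  have hpos : (Nat.card A : ℤ) ≠ 0 := by exact_mod_cast (Nat.card_pos (α := A)).ne'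
  have h6 : t = ∑ T ∈ TT p A, w T := mul_left_cancel₀ hpos (ht.symm.trans h4)
  rw [← ht', h6]
  push_cast
  rw [← Finset.sum_neg_distrib]
  exact Finset.sum_congr rfl (fun Q hQ => hw2 Q (mem_TT hQ))

end Pool.Agent.Lib.P0c8ca5.Bw
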