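import Mathlib
import Pool.Agent.Lib.P0c8ca5V.TFin
import Pool.Agent.Lib.P0c8ca5Bw.DC

/-!
# Hyp: the image of a block in a section and the centralizers of p-elements

PROOF of `proj_zero`. Suppose `(proj Q e).coeff c ≠ 0`. By `coeff_proj` (P0c8ca5.Sect) there is a lift `d ∈ N(Q)` of `c`; the coefficient is the sum of
`e.coeff x` over the lifts `x` of `c` (`x ∈ d Q`); `Q` acts by conjugation on the lifts, `e.coeff` is invariant: so modulo `p` only the lifts `x ∈ centralizer Q` count
(`sum_eq_sum_fixed` of P0c8ca5.Basic; this is the argument of `hasBr_of_proj`), hence there is a lift `x ∈ centralizer Q` of `c` with `e.coeff x ≠ 0`. `x` is p-regular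
(`osima he.mem he.idem`). `y` is a lift of `u`, `y` is a p-element (of `N(Q)`), `x` and `y` commute modulo `Q`: `[x, y] ∈ Q`. Let `R = Q ⊔ zpowers y`, a p-group (`y` normalizes
`Q`), normalized by `x`: `x y x⁻¹ ∈ y Q`. `x` centralizes `Q` and `x y x⁻¹ = y q`, `q ∈ Q`; by induction `x ^ n * y * x ^ (-n) = y * q ^ n` (`x` commutes with `q`), for
`n = orderOf x`: `q ^ n = 1`, `n` prime to `p` and `q` a p-element, so `q = 1`: `x` commutes with `y`. By `h` `e.coeff x = 0`, contradiction.
-/

namespace Pool.Agent.Lib.P0c8ca5.Bw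

open MonoidAlgebra

set_option linter.unusedSectionVars false

variable {p : ℕ} {k : Type*} [Field k] {A : Type*} [Group A] [Finite A]
variable [Fact p.Prime] [CharP k p] [IsAlgClosed k]

/-- a p-regular element centralizing the p-group `Q` and commuting with a p-element modulo `Q`
commutes with it -/
theorem HypAux.commute_of_reg {Q : Subgroup A} (hQ : IsPGroup p Q) {x y : A} (_hy : Pel p y)
    (hreg : Preg p x) (hxc : ∀ q ∈ (Q : Set A), q * x = x * q)
    (hq0 : (y * x)⁻¹ * (x * y) ∈ Q) : x * y = y * x := by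
  obtain ⟨q, hq⟩ : ∃ q, q = (y * x)⁻¹ * (x * y) := ⟨_, rfl⟩
  rw [← hq] at hq0
  have e1 : x * y = y * q * x := by
    have h1 : q * x = x * q := hxc q hq0
    rw [mul_assoc, h1, ← mul_assoc, hq]
    group
  have hxq : q * x = x * q := hxc q hq0
  have hpow : ∀ n : ℕ, x ^ n * y = y * q ^ n * x ^ n := by
    intro n
    induction n with
    | zero => simp
    | succ n ih =>
      have h2 : x * q ^ n = q ^ n * x := (Commute.pow_right (show Commute x q from hxq.symm) n)
      calc x ^ (n + 1) * y = x * (x ^ n * y) := by rw [pow_succ', mul_assoc]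
        _ = x * y * q ^ n * x ^ n := by rw [ih]; simp only [mul_assoc]
        _ = y * q * (x * q ^ n) * x ^ n := by rw [e1]; simp only [mul_assoc]
        _ = y * (q * q ^ n) * (x * x ^ n) := by rw [h2]; simp only [mul_assoc]
        _ = y * q ^ (n + 1) * x ^ (n + 1) := by rw [← pow_succ', ← pow_succ']
  have h3 := hpow (orderOf x)
  rw [pow_orderOf_eq_one, one_mul, mul_one] at h3
  have h4 : q ^ orderOf x = 1 := by
    have := h3.symm
    rwa [mul_eq_left] at this
  obtain ⟨a, ha⟩ := hQ ⟨q, hq0⟩
  have h5 : q ^ p ^ a = 1 := by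
    have := congrArg Subtype.val ha
    simpa using this
  have h6 : orderOf q ∣ Nat.gcd (orderOf x) (p ^ a) :=
    Nat.dvd_gcd (orderOf_dvd_of_pow_eq_one h4) (orderOf_dvd_of_pow_eq_one h5)
  have h7 : Nat.gcd (orderOf x) (p ^ a) = 1 := by
    have : Nat.Coprime (orderOf x) p :=
      ((Nat.Prime.coprime_iff_not_dvd Fact.out).2 hreg).symm
    exact this.pow_right a
  rw [h7, Nat.dvd_one, orderOf_eq_one_iff] at h6
  rw [e1, h6, mul_one]

/-- If the block `e` vanishes at all elements commuting with the p-element `y` of `N(Q)`, then the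
image of `e` in `N(Q)/Q` vanishes at all elements commuting with the image of `y`. -/
theorem proj_zero {e : MonoidAlgebra k A} (he : IsBlock (⊤ : Subgroup A) e) {Q : Subgroup A}
    (hQ : IsPGroup p Q) (y : ↥(Subgroup.normalizer (Q : Set A))) (hy : Pel p (y : A))
    (h : ∀ x : A, x * y = y * x → e.coeff x = 0) (c : NQ Q)
    (hc : c * QuotientGroup.mk y = QuotientGroup.mk y * c) : (proj Q e).coeff c = 0 := by
  classical
  cases nonempty_fintype A
  obtain ⟨-, hinv⟩ := mem_fixAlg.1 he.mem
  obtain ⟨n, hn, rfl⟩ := qm_surj c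
  have hn' := Subgroup.mem_normalizer_iff.1 hn
  rw [coeff_proj]
  rw [sum_conj_eq (p := p) hQ (fun x => if n⁻¹ * x ∈ Q then e.coeff x else 0) ?_
    (Finset.univ.filter (fun x => x ∈ Subgroup.centralizer (Q : Set A))) (fun x => by simp)]
  · apply Finset.sum_eq_zero
    intro x hx
    rw [Finset.mem_filter] at hx
    by_cases hxQ : n⁻¹ * x ∈ Q
    · rw [if_pos hxQ]
      by_contra h0
      have hreg : Preg p x := osima he.mem he.idem h0
      apply h0
      apply h
      have hxc := Subgroup.mem_centralizer_iff.1 hx.2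
      have hxn : x ∈ Subgroup.normalizer (Q : Set A) := by
        have := (Subgroup.normalizer (Q : Set A)).mul_mem hn (Subgroup.le_normalizer hxQ)
        rwa [mul_inv_cancel_left] at this
      have hcx : qm Q n hn = qm Q x hxn := qm_eq_iff.2 hxQ
      have hc2 : qm Q (x * y) ((Subgroup.normalizer (Q : Set A)).mul_mem hxn y.2) =
          qm Q (y * x) ((Subgroup.normalizer (Q : Set A)).mul_mem y.2 hxn) := by
        rw [hcx] at hc
        exact hc
      have hq0 : ((y : A) * x)⁻¹ * (x * y) ∈ Q := qm_eq_iff.1 hc2.symm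
      exact HypAux.commute_of_reg hQ hy hreg hxc hq0
    · exact if_neg hxQ
  · intro d hd x
    have h5 : n⁻¹ * d * n ∈ Q := by
      apply (hn' _).2
      have e2 : n * (n⁻¹ * d * n) * n⁻¹ = d := by group
      rw [e2]; exact hd
    have hcond : n⁻¹ * (d * x * d⁻¹) ∈ Q ↔ n⁻¹ * x ∈ Q := by
      have e1 : n⁻¹ * (d * x * d⁻¹) = (n⁻¹ * d * n) * (n⁻¹ * x) * d⁻¹ := by group
      rw [e1, Q.mul_mem_cancel_right (Q.inv_mem hd), Q.mul_mem_cancel_left h5]
    simp only [hcond]
    rw [hinv d (Subgroup.mem_top d) x]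

end Pool.Agent.Lib.P0c8ca5.Bw
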