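import Mathlib
import Pool.Agent.Lib.P0c8ca5V.Defs

/-! The image of a real function in a section is real. -/

namespace Pool.Agent.Lib.P0c8ca5.Bw

variable {A : Type*} [Group A]

theorem mb_real (Q : Subgroup A) {m : A → ℤ} (h : ∀ x, m x⁻¹ = m x) (y : NQ Q) :
    mb Q m y⁻¹ = mb Q m y := by
  unfold mb
  let e : {c : ↥(Subgroup.normalizer (Q : Set A)) // (QuotientGroup.mk c : NQ Q) = y} ≃
      {c : ↥(Subgroup.normalizer (Q : Set A)) // (QuotientGroup.mk c : NQ Q) = y⁻¹} :=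
    { toFun := fun c => ⟨c.1⁻¹, by rw [QuotientGroup.mk_inv, c.2]⟩
      invFun := fun c => ⟨c.1⁻¹, by rw [QuotientGroup.mk_inv, c.2, inv_inv]⟩
      left_inv := fun c => Subtype.ext (inv_inv c.1)
      right_inv := fun c => Subtype.ext (inv_inv c.1) }
  rw [← finsum_comp_equiv e]
  refine finsum_congr fun c => ?_
  change m (((c.1⁻¹ : ↥(Subgroup.normalizer (Q : Set A)))) : A) = m (c.1 : A)
  rw [Subgroup.coe_inv, h]

end Pool.Agent.Lib.P0c8ca5.Bw
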