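import Mathlib
import Pool.Agent.Lib.P0c8ca5V.RotP
import Pool.Agent.Lib.P0c8ca5Bw.DC

/-! Rotations of the triples with `[a, b] c` in `S`. -/

namespace Pool.Agent.Lib.P0c8ca5.Bw

variable {p : ℕ} {A : Type*} [Group A]

open RotAux RotPAux

variable {E : A × A × A → A × A × A}

theorem uu_mem_gen (t : A × A × A) : uu t ∈ gen t := by
  have h1 : t.1 ∈ gen t := Subgroup.subset_closure (by simp)
  have h2 : t.2.1 ∈ gen t := Subgroup.subset_closure (by simp)
  have h3 : t.2.2 ∈ gen t := Subgroup.subset_closure (by simp)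
  exact mul_mem (mul_mem (mul_mem (mul_mem h1 h2) (inv_mem h1)) (inv_mem h2)) h3

/-- no orbit is fixed by a rotation if `u` is not a `p ^ r`-th power -/
theorem no_fix [Fact p.Prime] [Finite A] {r : ℕ} (hE : IsRot (p ^ r) E)
    (hO : NoP p (⊤ : Subgroup A)) {t : A × A × A} (hno : ∀ x : A, Pel p x → x ^ p ^ r ≠ uu t)
    (ht : Opr p (⊤ : Subgroup A) ≤ gen t) (hu : Pel p (uu t)) {h : A}
    (hh : E t = cj3 h t) : False := by
  have hp : p.Prime := Fact.out
  set u := uu t with hudef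
  have h1 : h * u * h⁻¹ = u := by
    have h2 := hE.u t
    rw [hh, uu_cj3'] at h2
    exact h2
  have hcomm : Commute h u := mul_inv_eq_iff_eq_mul.1 h1
  have h2 : cj3 (h ^ p ^ r) t = cj3 u t := by
    rw [← iter_fix hE.cj hh, hE.pow]
  -- the p-part of `h`
  obtain ⟨l, hl⟩ := hu
  have fixpow : ∀ g : A, cj3 g t = t → ∀ n : ℕ, cj3 (g ^ n) t = t := by
    intro g hg n
    induction n with
    | zero => rw [pow_zero, cj3_one]
    | succ n ih => rw [pow_succ, cj3_mul, hg, ih]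
  have h3 : ∀ n : ℕ, cj3 ((h ^ p ^ r) ^ n) t = cj3 (u ^ n) t := by
    intro n
    induction n with
    | zero => rw [pow_zero, pow_zero]
    | succ n ih =>
      have h4 : (h ^ p ^ r) ^ n * u = u * (h ^ p ^ r) ^ n :=
        ((hcomm.pow_left _).pow_left _).eq
      rw [pow_succ, cj3_mul, h2, ← cj3_mul, h4, cj3_mul, ih, ← cj3_mul, ← pow_succ']
  set y := pr p h with hy
  have h4 : cj3 (y ^ p ^ (r + l)) t = t := by
    have h5 : cj3 (h ^ p ^ (r + l)) t = t := by
      rw [pow_add, pow_mul, h3, hl, cj3_one]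
    have h7 : y ^ p ^ (r + l) = (h ^ p ^ (r + l)) ^ uexp p A := by
      rw [hy]; unfold pr; rw [← pow_mul, ← pow_mul, mul_comm]
    rw [h7, fixpow _ h5]
  have h5 : cj3 y t = t := by
    have h6 : (p ^ (r + l)).Coprime (orderOf y) :=
      Nat.Coprime.pow_left _ ((Nat.Prime.coprime_iff_not_dvd hp).2 (preg_pr h))
    obtain ⟨m, hm⟩ := exists_pow_eq_self_of_coprime h6
    rw [← hm, fixpow _ h4]
  obtain ⟨x0, hx0⟩ : ∃ x0, x0 = h * y⁻¹ := ⟨_, rfl⟩
  have hx0p : Pel p x0 := by rw [hx0]; exact exists_pow_mul_inv_pr h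
  have hyinv : cj3 y⁻¹ t = t := by
    conv_lhs => rw [← h5]
    rw [← cj3_mul, inv_mul_cancel, cj3_one]
  have hx0t : E t = cj3 x0 t := by
    rw [hx0, cj3_mul, hyinv, hh]
  -- `z = u⁻¹ x0 ^ (p ^ r)` centralizes `gen t` and is a p-element
  have h6 : cj3 (x0 ^ p ^ r) t = cj3 u t := by
    rw [← iter_fix hE.cj hx0t, hE.pow]
  have h7 : cj3 (u⁻¹ * x0 ^ p ^ r) t = t := by
    rw [cj3_mul, h6, ← cj3_mul, inv_mul_cancel, cj3_one]
  have h8 := no_p_cent hO ht h7
  have h9 : Commute (u⁻¹ * x0 ^ p ^ r) u := cent_of_fix h7 (uu_mem_gen t)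
  have h10 : Commute (x0 ^ p ^ r) u := by
    have h11 : x0 ^ p ^ r = u * (u⁻¹ * x0 ^ p ^ r) := by group
    rw [h11]
    exact (Commute.refl u).mul_left h9
  have h11 : Pel p (u⁻¹ * x0 ^ p ^ r) := by
    obtain ⟨n, hn⟩ := hx0p
    refine ⟨l + n, ?_⟩
    rw [(h10.inv_right.symm).mul_pow, inv_pow, pow_add, pow_mul u, hl, one_pow, inv_one, one_mul,
      ← pow_mul, mul_comm, mul_comm (p ^ l), pow_mul, pow_mul, hn, one_pow, one_pow]
  obtain ⟨n, hn⟩ := h11
  have h12 : orderOf (u⁻¹ * x0 ^ p ^ r) = 1 := by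
    have h13 : Nat.Coprime (orderOf (u⁻¹ * x0 ^ p ^ r)) (p ^ n) :=
      Nat.Coprime.pow_right _ ((Nat.Prime.coprime_iff_not_dvd hp).2 h8).symm
    exact Nat.dvd_one.1 (h13 ▸ Nat.dvd_gcd dvd_rfl (orderOf_dvd_of_pow_eq_one hn))
  rw [orderOf_eq_one_iff] at h12
  exact hno x0 hx0p (inv_mul_eq_one.1 h12).symm

/-- the weight in `bS` -/
noncomputable def wS (p : ℕ) (S : Set A) (m : A → ℤ) (t : A × A × A) : ℤ := by
  classical
  exact if gen t ≤ (⊤ : Subgroup A) ∧ Opr p (⊤ : Subgroup A) ≤ gen t then dS S m t else 0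

theorem wS_cj3 {S : Set A} (hS : CInv S) {m : A → ℤ} (hm : IsWt p ⊤ m) (g : A) (t : A × A × A) :
    wS p S m (cj3 g t) = wS p S m t := by
  classical
  have h1 : (gen (cj3 g t) ≤ ⊤ ∧ Opr p (⊤ : Subgroup A) ≤ gen (cj3 g t)) ↔
      (gen t ≤ ⊤ ∧ Opr p (⊤ : Subgroup A) ≤ gen t) := by
    refine and_congr ⟨fun _ => le_top, fun _ => le_top⟩ ?_
    rw [gen_cj3]
    conv_lhs => rw [← map_Opr_top (p := p) g]
    exact Subgroup.map_le_map_iff_of_injective (MulAut.conj g).injective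
  have h3 : dS S m (cj3 g t) = dS S m t := by
    change (if uu (cj3 g t) ∈ S then m (g * t.2.2 * g⁻¹) else 0)
      = if uu t ∈ S then m t.2.2 else 0
    rw [hm.conj g (Subgroup.mem_top g), uu_cj3']
    exact if_congr (hS g _) rfl rfl
  unfold wS
  rw [h3]
  exact if_congr h1 rfl rfl

theorem wS_E {q : ℕ} (hE : IsRot q E) {S : Set A} {m : A → ℤ} (hm : IsWt p ⊤ m)
    (t : A × A × A) : wS p S m (E t) = wS p S m t := by
  classical
  have h3 : dS S m (E t) = dS S m t := by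
    change (if uu (E t) ∈ S then m (E t).2.2 else 0) = if uu t ∈ S then m t.2.2 else 0
    obtain ⟨g, hg⟩ := hE.c t
    rw [hE.u, hg, hm.conj g (Subgroup.mem_top g)]
  unfold wS
  rw [h3, hE.gn]

theorem of_wS_ne {S : Set A} {m : A → ℤ} {t : A × A × A} (h : wS p S m t ≠ 0) :
    Opr p (⊤ : Subgroup A) ≤ gen t ∧ uu t ∈ S := by
  classical
  unfold wS at h
  split_ifs at h with h1
  · refine ⟨h1.2, ?_⟩
    change (if uu t ∈ S then m t.2.2 else 0) ≠ 0 at h
    by_contra h2
    exact h (if_neg h2)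
  · exact absurd rfl h

/-- A rotation of order `p ^ r`, no element of `S` is a `p ^ r`-th power of a p-element: the number
of triples is divisible by `p |A|_p`. -/
theorem rot_dvd [Fact p.Prime] [Finite A] {r : ℕ} {E : A × A × A → A × A × A}
    (hE : IsRot (p ^ r) E) (hO : NoP p (⊤ : Subgroup A)) {S : Set A} (hS : CInv S)
    (hP : PSet p S) (hno : ∀ x : A, Pel p x → x ^ p ^ r ∉ S) {m : A → ℤ} (hm : IsWt p ⊤ m) :
    (p : ℤ) * (ordProj[p] (Nat.card A) : ℕ) ∣ bS p S (⊤ : Subgroup A) m := by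
  classical
  have hp : p.Prime := Fact.out
  have : Fintype A := Fintype.ofFinite A
  have hinj : Function.Injective E := by
    intro s t hst
    have h1 : E^[p ^ r] s = E^[p ^ r] t := by
      obtain ⟨n, hn⟩ := Nat.exists_eq_succ_of_ne_zero (pow_pos hp.pos r).ne'
      rw [hn, Function.iterate_succ_apply, Function.iterate_succ_apply, hst]
    rw [hE.pow, hE.pow] at h1
    have h2 : uu s = uu t := by rw [← hE.u s, hst, hE.u t]
    rw [h2] at h1
    exact (cjP (uu t)).injective h1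
  let F : Equiv.Perm (A × A × A) := Equiv.ofBijective E (Finite.injective_iff_bijective.1 hinj)
  have hFE : ∀ t, F t = E t := fun t => rfl
  let C : Subgroup (Equiv.Perm (A × A × A)) := Subgroup.zpowers F
  have hcomm : ∀ (g : A) (c : ↥C), Commute (cjH g) (C.subtype c) := by
    rintro g ⟨c, k, rfl⟩
    refine Commute.zpow_right ?_ k
    exact Equiv.ext fun t => (hE.cj g t).symm
  let Ψ : A × ↥C →* Equiv.Perm (A × A × A) := MonoidHom.noncommCoprod cjH C.subtype hcomm
  let _ : MulAction (A × ↥C) (A × A × A) := MulAction.compHom _ Ψ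
  have hsm : ∀ (g : A) (c : ↥C) (t : A × A × A),
      ((g, c) : A × ↥C) • t = cj3 g ((c : Equiv.Perm (A × A × A)) t) := fun _ _ _ => rfl
  have hwF : ∀ (k : ℤ) (t : A × A × A), wS p S m ((F ^ k) t) = wS p S m t := by
    have h1 : ∀ (n : ℕ) (t : A × A × A), wS p S m ((F ^ n) t) = wS p S m t := by
      intro n
      induction n with
      | zero => intro t; rfl
      | succ n ih =>
        intro t
        rw [pow_succ, Equiv.Perm.mul_apply, ih, hFE, wS_E hE hm]
    intro k t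
    obtain ⟨n, rfl | rfl⟩ := k.eq_nat_or_neg
    · rw [zpow_natCast, h1]
    · rw [← h1 n ((F ^ (-(n : ℤ))) t), ← Equiv.Perm.mul_apply, zpow_neg, zpow_natCast,
        mul_inv_cancel]
      rfl
  have key := orb_dvd_p (p := p) (T := A × ↥C) (X := A × A × A)
    (fun t => ((ordProj[p] (Nat.card C) : ℕ) : ℤ) * wS p S m t) ?_ (p : ℤ) ?_
  · rw [← Finset.mul_sum, Nat.card_prod, Nat.ordProj_mul p Nat.card_pos.ne' Nat.card_pos.ne'] at key
    have h1 : (((ordProj[p] (Nat.card C) : ℕ) : ℤ)) ≠ 0 := by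
      exact_mod_cast (Nat.ordProj_pos (Nat.card C) p).ne'
    have h2 : (p : ℤ) * ((ordProj[p] (Nat.card A) * ordProj[p] (Nat.card C) : ℕ) : ℤ)
        = ((ordProj[p] (Nat.card C) : ℕ) : ℤ) * ((p : ℤ) * (ordProj[p] (Nat.card A) : ℕ)) := by
      push_cast
      ring
    rw [h2] at key
    have h3 := (mul_dvd_mul_iff_left h1).1 key
    unfold bS
    rw [finsum_eq_sum_of_fintype]
    exact h3
  · rintro ⟨g, c, k, rfl⟩ t
    simp only [hsm]
    rw [wS_cj3 hS hm, hwF]
  · intro t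
    by_cases hw : wS p S m t = 0
    · simp only [hw, mul_zero]
      exact dvd_zero _
    obtain ⟨ht, huS⟩ := of_wS_ne hw
    obtain ⟨hu, hu1⟩ := hP _ huS
    refine Dvd.dvd.mul_right ?_ _
    let St : Subgroup (A × ↥C) := MulAction.stabilizer (A × ↥C) t
    let π : ↥St →* ↥C := (MonoidHom.snd A ↥C).comp St.subtype
    have hπ : ∀ s : ↥St, π s = (s : A × ↥C).2 := fun s => rfl
    have hker : ¬ p ∣ Nat.card π.ker := by
      intro h1
      obtain ⟨s, hs⟩ := exists_prime_orderOf_dvd_card' p h1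
      have h2 : ((s : ↥St) : A × ↥C).2 = 1 := s.2
      have h3 : (((s : ↥St) : A × ↥C)) • t = t := (s : ↥St).2
      have h4 : cj3 ((s : ↥St) : A × ↥C).1 t = t := by
        have h5 := hsm ((s : ↥St) : A × ↥C).1 ((s : ↥St) : A × ↥C).2 t
        rw [h2] at h5
        rw [← Prod.mk.eta (p := ((s : ↥St) : A × ↥C)), h2] at h3
        exact h5.symm.trans h3
      refine no_p_cent hO ht h4 ?_
      have h5 : ((s : ↥St) : A × ↥C).1 ^ p = 1 := by
        have h6 : s ^ p = 1 := by rw [← hs]; exact pow_orderOf_eq_one s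
        have h7 := congrArg (fun s : ↥π.ker => ((s : ↥St) : A × ↥C).1) h6
        simpa using h7
      have h6 : ((s : ↥St) : A × ↥C).1 ≠ 1 := by
        intro h7
        have h8 : s = 1 := Subtype.ext (Subtype.ext (Prod.ext h7 h2))
        rw [h8, orderOf_one] at hs
        exact hp.one_lt.ne hs
      rw [orderOf_eq_prime h5 h6]
    let E0 : ↥C := ⟨F, Subgroup.mem_zpowers F⟩
    have hcm : ∀ a b : ↥C, a * b = b * a := by
      rintro ⟨a, i, rfl⟩ ⟨b, j, rfl⟩
      apply Subtype.ext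
      exact zpow_mul_comm F i j
    have hN : π.range.Normal := ⟨fun n hn g => by
      rw [hcm g n, mul_inv_cancel_right]
      exact hn⟩
    have hidx : p ∣ π.range.index := by
      have h1 : E0 ^ p ^ r ∈ π.range := by
        refine ⟨⟨((uu t)⁻¹, E0 ^ p ^ r), ?_⟩, rfl⟩
        change cj3 (uu t)⁻¹ ((F ^ p ^ r) t) = t
        rw [← Equiv.Perm.iterate_eq_pow]
        change cj3 (uu t)⁻¹ (E^[p ^ r] t) = t
        rw [hE.pow, ← cj3_mul, inv_mul_cancel, cj3_one]
      have h2 : E0 ∉ π.range := by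
        rintro ⟨s, hs⟩
        rw [hπ] at hs
        have h3 : ((s : A × ↥C)) • t = t := s.2
        have h4 := hsm (s : A × ↥C).1 (s : A × ↥C).2 t
        rw [Prod.mk.eta, h3, hs] at h4
        have h5 : t = cj3 (s : A × ↥C).1 (E t) := h4
        refine no_fix hE hO (fun x hx hxu => hno x hx (hxu ▸ huS)) ht hu
          (h := ((s : A × ↥C).1)⁻¹) ?_
        conv_rhs => rw [h5]
        rw [← cj3_mul, inv_mul_cancel, cj3_one]
      have h3 : (QuotientGroup.mk E0 : ↥C ⧸ π.range) ^ p ^ r = 1 := by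
        rw [← QuotientGroup.mk_pow, QuotientGroup.eq_one_iff]
        exact h1
      obtain ⟨j, _, hj⟩ := (Nat.dvd_prime_pow hp).1 (orderOf_dvd_of_pow_eq_one h3)
      have h4 : j ≠ 0 := by
        rintro rfl
        rw [pow_zero, orderOf_eq_one_iff, QuotientGroup.eq_one_iff] at hj
        exact h2 hj
      have h5 : p ∣ orderOf (QuotientGroup.mk E0 : ↥C ⧸ π.range) := by
        rw [hj]
        exact dvd_pow_self p h4
      exact h5.trans (orderOf_dvd_natCard _)
    have h1 : Nat.card ↥St = Nat.card π.ker * Nat.card π.range := by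
      rw [← Subgroup.index_ker, Subgroup.card_mul_index]
    have h2 := arith hp h1 hker hidx Nat.card_pos.ne' π.range.index_ne_zero_of_finite
    rw [Subgroup.card_mul_index] at h2
    exact_mod_cast h2

end Pool.Agent.Lib.P0c8ca5.Bw
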