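import Mathlib
import Pool.Agent.Lib.P0c8ca5V.RotP
import Pool.Agent.Lib.P0c8ca5Bw.Rot

/-! Rotations of the triples with `[a, b] c` in `S`: triples and fixed triples. -/

namespace Pool.Agent.Lib.P0c8ca5.Bw

variable {p : ℕ} {A : Type*} [Group A]

open RotAux RotPAux

/-- The number of triples is congruent to the number of pairs `(x, t)`, `x` a p-element such that
`E t` is the conjugate of `t` by `x`. -/
theorem rot_congr [Fact p.Prime] [Finite A] {r : ℕ} {E : A × A × A → A × A × A}
    (hE : IsRot (p ^ r) E) (hO : NoP p (⊤ : Subgroup A)) {S : Set A} (hS : CInv S)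
    (hP : PSet p S) {m : A → ℤ} (hm : IsWt p ⊤ m) :
    (p : ℤ) * (ordProj[p] (Nat.card A) : ℕ) ∣
      bS p S (⊤ : Subgroup A) m - ∑ᶠ t : A × A × A, wS p S m t * (nX p E t : ℤ) := by
  classical
  have hp : p.Prime := Fact.out
  have : Fintype A := Fintype.ofFinite A
  have hinj := RotPAux.E_inj hE
  let F : Equiv.Perm (A × A × A) := Equiv.ofBijective E (Finite.injective_iff_bijective.1 hinj)
  have hFE : ∀ t, F t = E t := fun t => rfl
  let C : Subgroup (Equiv.Perm (A × A × A)) := Subgroup.zpowers F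
  have hcomm : ∀ (g : A) (c : ↥C), Commute (cjH g) (C.subtype c) := by
    rintro g ⟨c, k, rfl⟩
    refine Commute.zpow_right ?_ k
    exact Equiv.ext fun t => (hE.cj g t).symm
  let Ψ : A × ↥C →* Equiv.Perm (A × A × A) := MonoidHom.noncommCoprod cjH C.subtype hcomm
  let _ : MulAction (A × ↥C) (A × A × A) := MulAction.compHom _ Ψ
  have hsm : ∀ (g : A) (c : ↥C) (t : A × A × A),
      ((g, c) : A × ↥C) • t = cj3 g ((c : Equiv.Perm (A × A × A)) t) := fun _ _ _ => rfl
  have hwF : ∀ (k : ℤ) (t : A × A × A), wS p S m ((F ^ k) t) = wS p S m t := by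
    have h1 : ∀ (n : ℕ) (t : A × A × A), wS p S m ((F ^ n) t) = wS p S m t := by
      intro n
      induction n with
      | zero => intro t; rfl
      | succ n ih =>
        intro t
        rw [pow_succ, Equiv.Perm.mul_apply, ih, hFE, wS_E hE hm]
    intro k t
    obtain ⟨n, rfl | rfl⟩ := k.eq_nat_or_neg
    · rw [zpow_natCast, h1]
    · rw [← h1 n ((F ^ (-(n : ℤ))) t), ← Equiv.Perm.mul_apply, zpow_neg, zpow_natCast,
        mul_inv_cancel]
      rfl
  have hnF : ∀ (k : ℤ) (t : A × A × A), nX p E ((F ^ k) t) = nX p E t := by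
    have h1 : ∀ (n : ℕ) (t : A × A × A), nX p E ((F ^ n) t) = nX p E t := by
      intro n
      induction n with
      | zero => intro t; rfl
      | succ n ih =>
        intro t
        rw [pow_succ, Equiv.Perm.mul_apply, ih, hFE, RotPAux.nX_E hE]
    intro k t
    obtain ⟨n, rfl | rfl⟩ := k.eq_nat_or_neg
    · rw [zpow_natCast, h1]
    · rw [← h1 n ((F ^ (-(n : ℤ))) t), ← Equiv.Perm.mul_apply, zpow_neg, zpow_natCast,
        mul_inv_cancel]
      rfl
  have key := orb_dvd_p (p := p) (T := A × ↥C) (X := A × A × A)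
    (fun t => ((ordProj[p] (Nat.card C) : ℕ) : ℤ) * (wS p S m t * (1 - (nX p E t : ℤ)))) ?_ (p : ℤ) ?_
  · rw [← Finset.mul_sum, Nat.card_prod, Nat.ordProj_mul p Nat.card_pos.ne' Nat.card_pos.ne'] at key
    have h1 : (((ordProj[p] (Nat.card C) : ℕ) : ℤ)) ≠ 0 := by
      exact_mod_cast (Nat.ordProj_pos (Nat.card C) p).ne'
    have h2 : (p : ℤ) * ((ordProj[p] (Nat.card A) * ordProj[p] (Nat.card C) : ℕ) : ℤ)
        = ((ordProj[p] (Nat.card C) : ℕ) : ℤ) * ((p : ℤ) * (ordProj[p] (Nat.card A) : ℕ)) := by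
      push_cast
      ring
    rw [h2] at key
    have h3 := (mul_dvd_mul_iff_left h1).1 key
    have h4 : bS p S (⊤ : Subgroup A) m - ∑ᶠ t : A × A × A, wS p S m t * (nX p E t : ℤ)
        = ∑ t : A × A × A, wS p S m t * (1 - (nX p E t : ℤ)) := by
      unfold bS
      rw [finsum_eq_sum_of_fintype, finsum_eq_sum_of_fintype, ← Finset.sum_sub_distrib]
      refine Finset.sum_congr rfl fun t _ => ?_
      unfold wS
      ring
    rw [h4]
    exact h3
  · rintro ⟨g, c, k, rfl⟩ t
    simp only [hsm]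
    rw [wS_cj3 hS hm, hwF, RotPAux.nX_cj3 hE, hnF]
  · intro t
    by_cases hw : wS p S m t = 0
    · simp only [hw, zero_mul, mul_zero]
      exact dvd_zero _
    obtain ⟨ht, huS⟩ := of_wS_ne hw
    obtain ⟨hu, hu1⟩ := hP _ huS
    let St : Subgroup (A × ↥C) := MulAction.stabilizer (A × ↥C) t
    let π : ↥St →* ↥C := (MonoidHom.snd A ↥C).comp St.subtype
    have hπ : ∀ s : ↥St, π s = (s : A × ↥C).2 := fun s => rfl
    have hker : ¬ p ∣ Nat.card π.ker := by
      intro h1
      obtain ⟨s, hs⟩ := exists_prime_orderOf_dvd_card' p h1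
      have h2 : ((s : ↥St) : A × ↥C).2 = 1 := s.2
      have h3 : (((s : ↥St) : A × ↥C)) • t = t := (s : ↥St).2
      have h4 : cj3 ((s : ↥St) : A × ↥C).1 t = t := by
        have h5 := hsm ((s : ↥St) : A × ↥C).1 ((s : ↥St) : A × ↥C).2 t
        rw [h2] at h5
        rw [← Prod.mk.eta (p := ((s : ↥St) : A × ↥C)), h2] at h3
        exact h5.symm.trans h3
      refine no_p_cent hO ht h4 ?_
      have h5 : ((s : ↥St) : A × ↥C).1 ^ p = 1 := by
        have h6 : s ^ p = 1 := by rw [← hs]; exact pow_orderOf_eq_one s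
        have h7 := congrArg (fun s : ↥π.ker => ((s : ↥St) : A × ↥C).1) h6
        simpa using h7
      have h6 : ((s : ↥St) : A × ↥C).1 ≠ 1 := by
        intro h7
        have h8 : s = 1 := Subtype.ext (Subtype.ext (Prod.ext h7 h2))
        rw [h8, orderOf_one] at hs
        exact hp.one_lt.ne hs
      rw [orderOf_eq_prime h5 h6]
    let E0 : ↥C := ⟨F, Subgroup.mem_zpowers F⟩
    have hcm : ∀ a b : ↥C, a * b = b * a := by
      rintro ⟨a, i, rfl⟩ ⟨b, j, rfl⟩
      apply Subtype.ext
      exact zpow_mul_comm F i j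
    have hN : π.range.Normal := ⟨fun n hn g => by
      rw [hcm g n, mul_inv_cancel_right]
      exact hn⟩
    have h1 : Nat.card ↥St = Nat.card π.ker * Nat.card π.range := by
      rw [← Subgroup.index_ker, Subgroup.card_mul_index]
    by_cases hfix : ∃ h : A, E t = cj3 h t
    · obtain ⟨h, hh⟩ := hfix
      obtain ⟨q, hq⟩ := RotPAux.nX_mod hE hO ht hu hh
      have h2 := arith' hp h1 hker π.range.index_ne_zero_of_finite Nat.card_pos.ne'
      rw [Subgroup.card_mul_index] at h2
      obtain ⟨i, hi⟩ := h2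
      refine ⟨(i : ℤ) * (wS p S m t * q), ?_⟩
      rw [hq, hi]
      push_cast
      ring
    refine Dvd.dvd.mul_right ?_ _
    have hidx : p ∣ π.range.index := by
      have h1 : E0 ^ p ^ r ∈ π.range := by
        refine ⟨⟨((uu t)⁻¹, E0 ^ p ^ r), ?_⟩, rfl⟩
        change cj3 (uu t)⁻¹ ((F ^ p ^ r) t) = t
        rw [← Equiv.Perm.iterate_eq_pow]
        change cj3 (uu t)⁻¹ (E^[p ^ r] t) = t
        rw [hE.pow, ← cj3_mul, inv_mul_cancel, cj3_one]
      have h2 : E0 ∉ π.range := by
        rintro ⟨s, hs⟩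
        rw [hπ] at hs
        have h3 : ((s : A × ↥C)) • t = t := s.2
        have h4 := hsm (s : A × ↥C).1 (s : A × ↥C).2 t
        rw [Prod.mk.eta, h3, hs] at h4
        have h5 : t = cj3 (s : A × ↥C).1 (E t) := h4
        refine hfix ⟨((s : A × ↥C).1)⁻¹, ?_⟩
        conv_rhs => rw [h5]
        rw [← cj3_mul, inv_mul_cancel, cj3_one]
      have h3 : (QuotientGroup.mk E0 : ↥C ⧸ π.range) ^ p ^ r = 1 := by
        rw [← QuotientGroup.mk_pow, QuotientGroup.eq_one_iff]
        exact h1
      obtain ⟨j, _, hj⟩ := (Nat.dvd_prime_pow hp).1 (orderOf_dvd_of_pow_eq_one h3)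
      have h4 : j ≠ 0 := by
        rintro rfl
        rw [pow_zero, orderOf_eq_one_iff, QuotientGroup.eq_one_iff] at hj
        exact h2 hj
      have h5 : p ∣ orderOf (QuotientGroup.mk E0 : ↥C ⧸ π.range) := by
        rw [hj]
        exact dvd_pow_self p h4
      exact h5.trans (orderOf_dvd_natCard _)
    have h2 := arith hp h1 hker hidx Nat.card_pos.ne' π.range.index_ne_zero_of_finite
    rw [Subgroup.card_mul_index] at h2
    exact_mod_cast h2

end Pool.Agent.Lib.P0c8ca5.Bw
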