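import Mathlib
import Pool.Agent.Lib.P0c8ca5Bw.Defs

/-!
# Pairs and triples of involutions: definitions

* `pS p q s S m`: the pairs `(x, z)`, `x` a p-element with `x ^ q ∈ S`, `z ^ s = 1`, generating a
  subgroup that contains `O^p(A)`, weighted by `m` at `(x z) ^ q`.
* `tS S m`: the triples `(r, s, t)` with `r² = s² = t² = 1`, `r t = t r`, `r s` a 2-element with
  `(r s)⁴ ∈ S`, generating a subgroup that contains `O²(A)`, weighted by `m` at `(r s t)⁴`.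
* `wP S m y`: the weight of the pair `y` in `pS 2 4 2 S m`; `nI y`: the number of the `r` with `r² = 1`
  inverting `y.1` and centralizing `y.2`.
-/

namespace Pool.Agent.Lib.P0c8ca5.Bw

variable {A : Type*} [Group A]

open Classical in
/-- the pairs -/
noncomputable def pS (p q s : ℕ) (S : Set A) (m : A → ℤ) : ℤ :=
  ∑ᶠ y : A × A, if Pel p y.1 ∧ y.1 ^ q ∈ S ∧ y.2 ^ s = 1 ∧
    Opr p (⊤ : Subgroup A) ≤ Subgroup.closure {y.1, y.2} then m ((y.1 * y.2) ^ q) else 0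

open Classical in
/-- the weight of a pair -/
noncomputable def wP (S : Set A) (m : A → ℤ) (y : A × A) : ℤ :=
  if Pel 2 y.1 ∧ y.1 ^ 4 ∈ S ∧ y.2 ^ 2 = 1 ∧
    Opr 2 (⊤ : Subgroup A) ≤ Subgroup.closure {y.1, y.2} then m ((y.1 * y.2) ^ 4) else 0

/-- the number of the `r` with `r² = 1` inverting `y.1` and centralizing `y.2` -/
noncomputable def nI (y : A × A) : ℕ :=
  Nat.card {r : A // r ^ 2 = 1 ∧ r * y.1 * r⁻¹ = y.1⁻¹ ∧ r * y.2 * r⁻¹ = y.2}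

open Classical in
/-- the triples of involutions -/
noncomputable def tS (S : Set A) (m : A → ℤ) : ℤ :=
  ∑ᶠ y : A × A × A, if y.1 ^ 2 = 1 ∧ y.2.1 ^ 2 = 1 ∧ y.2.2 ^ 2 = 1 ∧
    y.1 * y.2.2 = y.2.2 * y.1 ∧ Pel 2 (y.1 * y.2.1) ∧ (y.1 * y.2.1) ^ 4 ∈ S ∧
    Opr 2 (⊤ : Subgroup A) ≤ Subgroup.closure {y.1, y.2.1, y.2.2}
    then m ((y.1 * y.2.1 * y.2.2) ^ 4) else 0

end Pool.Agent.Lib.P0c8ca5.Bw
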