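import Mathlib
import Pool.Agent.Lib.P0c8ca5V.ParX
import Pool.Agent.Lib.P0c8ca5Bw.RotP
import Pool.Agent.Lib.P0c8ca5Bw.TDef

/-! Fixed triples as pairs, for `dS`. -/

namespace Pool.Agent.Lib.P0c8ca5.Bw

variable {p : ℕ} {A : Type*} [Group A]

open RotAux ParAux

theorem par_sum [Fact p.Prime] [Finite A] {r s : ℕ} {E : A × A × A → A × A × A}
    {T : A → A → A × A × A} (hE : IsRot (p ^ r) E) (hT : IsPar (p ^ r) s E T)
    (hO : NoP p (⊤ : Subgroup A)) {S : Set A} (hP : PSet p S) {m : A → ℤ} (hm : IsWt p ⊤ m) :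
    ∑ᶠ t : A × A × A, wS p S m t * (nX p E t : ℤ) = pS p (p ^ r) s S m := by
  classical
  have : Fintype A := Fintype.ofFinite A
  unfold pS
  rw [finsum_eq_sum_of_fintype, finsum_eq_sum_of_fintype]
  have h1 : ∀ t : A × A × A, wS p S m t * (nX p E t : ℤ)
      = ∑ x : A, if Pel p x ∧ E t = cj3 x t then wS p S m t else 0 := by
    intro t
    rw [← Finset.sum_filter, Finset.sum_const, nsmul_eq_mul, mul_comm]
    congr 2
    unfold nX
    rw [Nat.card_eq_fintype_card, Fintype.card_subtype]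
  rw [Finset.sum_congr rfl (fun t _ => h1 t), Finset.sum_comm, Fintype.sum_prod_type]
  refine Finset.sum_congr rfl fun x _ => ?_
  have h2 : ∀ z : A, (if Pel p x ∧ x ^ p ^ r ∈ S ∧ z ^ s = 1 ∧
      Opr p (⊤ : Subgroup A) ≤ Subgroup.closure {x, z} then m ((x * z) ^ p ^ r) else 0)
      = if z ^ s = 1 then
        (if Pel p x ∧ E (T x z) = cj3 x (T x z) then wS p S m (T x z) else 0) else 0 := by
    intro z
    by_cases hz : z ^ s = 1
    · rw [if_pos hz]
      by_cases hx : Pel p x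
      · rw [if_pos (show Pel p x ∧ E (T x z) = cj3 x (T x z) from ⟨hx, hT.fix x z hz⟩)]
        obtain ⟨g, hg⟩ := hT.cc x z hz
        have h3 : m (T x z).2.2 = m ((x * z) ^ p ^ r) := by
          rw [hg, hm.conj g (Subgroup.mem_top g)]
        unfold wS
        change _ = if gen (T x z) ≤ (⊤ : Subgroup A) ∧ Opr p (⊤ : Subgroup A) ≤ gen (T x z) then
          (if uu (T x z) ∈ S then m (T x z).2.2 else 0) else 0
        rw [hT.u x z hz, h3, opr_iff hE hT hx hz]
        by_cases h5 : Opr p (⊤ : Subgroup A) ≤ Subgroup.closure {x, z}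
        · by_cases h6 : x ^ p ^ r ∈ S
          · rw [if_pos ⟨hx, h6, hz, h5⟩, if_pos ⟨le_top, h5⟩, if_pos h6]
          · rw [if_neg (fun h => h6 h.2.1), if_pos ⟨le_top, h5⟩, if_neg h6]
        · rw [if_neg (fun h => h5 h.2.2.2), if_neg (fun h => h5 h.2)]
      · rw [if_neg (fun h => hx h.1), if_neg (fun h => hx h.1)]
    · rw [if_neg hz, if_neg (fun h => hz h.2.2.1)]
  rw [Finset.sum_congr rfl (fun z _ => h2 z)]
  set F : A × A × A → ℤ := fun t => if Pel p x ∧ E t = cj3 x t then wS p S m t else 0 with hF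
  have h7 : ∑ z : A, (if z ^ s = 1 then
        (if Pel p x ∧ E (T x z) = cj3 x (T x z) then wS p S m (T x z) else 0) else 0)
      = ∑ z ∈ Finset.univ.filter (fun z : A => z ^ s = 1), F (T x z) :=
    (Finset.sum_filter _ _).symm
  have h8 : ∑ z ∈ Finset.univ.filter (fun z : A => z ^ s = 1), F (T x z)
      = ∑ t ∈ (Finset.univ.filter (fun z : A => z ^ s = 1)).image (fun z => T x z), F t :=
    (Finset.sum_image (fun z _ z' _ h => hT.inj x z z' h)).symm
  rw [h7, h8]
  symm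
  refine Finset.sum_subset (Finset.subset_univ _) fun t _ ht => ?_
  by_contra h3
  have h4 : Pel p x ∧ E t = cj3 x t := by
    by_contra h5
    exact h3 (if_neg h5)
  simp only [hF] at h3
  rw [if_pos h4] at h3
  obtain ⟨h5, h6S⟩ := of_wS_ne h3
  have h6 := (hP _ h6S).1
  obtain ⟨z, hz, hz'⟩ := hT.surj x t h4.2 (uu_eq hE hO h5 h6 h4.1 h4.2)
  exact ht (Finset.mem_image.2 ⟨z, Finset.mem_filter.2 ⟨Finset.mem_univ z, hz⟩, hz'.symm⟩)

/-- The number of triples in terms of pairs. -/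
theorem bS_congr_pS [Fact p.Prime] [Finite A] {r s : ℕ} {E : A × A × A → A × A × A}
    {T : A → A → A × A × A} (hE : IsRot (p ^ r) E) (hT : IsPar (p ^ r) s E T)
    (hO : NoP p (⊤ : Subgroup A)) {S : Set A} (hS : CInv S) (hP : PSet p S) {m : A → ℤ}
    (hm : IsWt p ⊤ m) :
    (p : ℤ) * (ordProj[p] (Nat.card A) : ℕ) ∣
      bS p S (⊤ : Subgroup A) m - pS p (p ^ r) s S m := by
  rw [← par_sum hE hT hO hP hm]
  exact rot_congr hE hO hS hP hm

end Pool.Agent.Lib.P0c8ca5.Bw
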