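import Mathlib
import Pool.Agent.Lib.P0c8ca5V.TFin

/-!
# Rl: additive functions that vanish on the (real) weights vanish on the (real) blocks

PROOF.
`blk_of_wt`: `blk_eq_sum` (TFin): `b = ∑ X, b.coeff X.out • zel k (icl p X)`, `icl_isWt`; `Θ` of a sum by induction.
`blk_of_real`: the same; the involution `X ↦ X⁻¹` of the classes (`Quotient.mk _ ⟨x⁻¹, _⟩`), `f X = Θ (b.coeff X.out • zel k (icl p X))`; `Finset.sum_involution`: `f X + f X⁻¹ =
b.coeff X.out * (Θ (zel k (icl X)) + Θ (zel k (icl X⁻¹)))` (`hr`: equal coefficients) `= b.coeff X.out * Θ (zel k (icl X + icl X⁻¹)) = 0` since `icl X + icl X⁻¹` is a real weight;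
if `X⁻¹ = X` then `icl p X` is a real weight and `f X = 0`.
-/

namespace Pool.Agent.Lib.P0c8ca5.Bw

open MonoidAlgebra TFinAux

set_option linter.unusedSectionVars false

variable {p : ℕ} {k : Type*} [Field k] {A : Type*} [Group A] [Fintype A]
variable [Fact p.Prime] [CharP k p] [IsAlgClosed k]

namespace RlAux

theorem th_zero {Θ : MonoidAlgebra k A → k} (h2 : ∀ (c : k) z, Θ (c • z) = c * Θ z) :
    Θ 0 = 0 := by
  have h := h2 (0 : k) (0 : MonoidAlgebra k A)
  rwa [zero_smul, zero_mul] at h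

theorem th_sum {Θ : MonoidAlgebra k A → k} (h1 : ∀ y z, Θ (y + z) = Θ y + Θ z)
    (h2 : ∀ (c : k) z, Θ (c • z) = c * Θ z) {ι : Type*} (S : Finset ι)
    (z : ι → MonoidAlgebra k A) : Θ (∑ i ∈ S, z i) = ∑ i ∈ S, Θ (z i) := by
  classical
  induction S using Finset.induction_on with
  | empty => rw [Finset.sum_empty, Finset.sum_empty, th_zero h2]
  | insert a S ha ih => rw [Finset.sum_insert ha, Finset.sum_insert ha, h1, ih]

theorem zel_add (m n : A → ℤ) : zel k (fun x => m x + n x) = zel k m + zel k n := by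
  ext x
  change ((m x + n x : ℤ) : k) = ((m x : ℤ) : k) + ((n x : ℤ) : k)
  push_cast
  rfl

omit [Fintype A] [Fact p.Prime] in
theorem preg_inv' {x : A} (h : Preg p x) : Preg p x⁻¹ := by
  unfold Preg at *
  rwa [orderOf_inv]

/-- the inverse class -/
noncomputable def ci (X : Cl (⊤ : Subgroup A) (Preg p)) : Cl (⊤ : Subgroup A) (Preg p) :=
  Quotient.mk _ ⟨(X.out : A)⁻¹, preg_inv' X.out.2⟩

omit [Fact p.Prime] in
theorem in_ci {X : Cl (⊤ : Subgroup A) (Preg p)} {x : A}
    (h : InCl (⊤ : Subgroup A) (Preg p) X x) : InCl (⊤ : Subgroup A) (Preg p) (ci X) x⁻¹ := by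
  obtain ⟨g, hg, e⟩ := InCl_out_conj h
  refine ⟨preg_inv' h.1, ?_⟩
  refine Quotient.sound ?_
  refine ⟨g, hg, ?_⟩
  change (X.out : A)⁻¹ = g * x⁻¹ * g⁻¹
  rw [e]
  group

omit [Fact p.Prime] in
theorem ci_ci (X : Cl (⊤ : Subgroup A) (Preg p)) : ci (ci X) = X := by
  have h1 := in_ci (in_ci (InCl_out X))
  rw [inv_inv] at h1
  exact InCl_unique h1 (InCl_out X)

omit [Fact p.Prime] in
theorem in_ci_iff {X : Cl (⊤ : Subgroup A) (Preg p)} {x : A} :
    InCl (⊤ : Subgroup A) (Preg p) (ci X) x ↔ InCl (⊤ : Subgroup A) (Preg p) X x⁻¹ := by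
  constructor
  · intro h
    have h1 := in_ci h
    rwa [ci_ci] at h1
  · intro h
    have h1 := in_ci h
    rwa [inv_inv] at h1

omit [Fact p.Prime] in
theorem icl_ci (X : Cl (⊤ : Subgroup A) (Preg p)) (x : A) : icl p (ci X) x = icl p X x⁻¹ := by
  unfold icl
  by_cases h : InCl (⊤ : Subgroup A) (Preg p) X x⁻¹
  · rw [if_pos h, if_pos (in_ci_iff.2 h)]
  · rw [if_neg h, if_neg (fun h' => h (in_ci_iff.1 h'))]

end RlAux

open RlAux

/-- an additive and homogeneous function vanishing on the weights vanishes on the blocks -/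
theorem blk_of_wt {Θ : MonoidAlgebra k A → k} (h1 : ∀ y z, Θ (y + z) = Θ y + Θ z)
    (h2 : ∀ (c : k) z, Θ (c • z) = c * Θ z)
    (h : ∀ m : A → ℤ, IsWt p ⊤ m → Θ (zel k m) = 0)
    {b : MonoidAlgebra k A} (hb : IsBlock (⊤ : Subgroup A) b) : Θ b = 0 := by
  letI : Fintype (Cl (⊤ : Subgroup A) (Preg p)) := Fintype.ofFinite _
  rw [blk_eq_sum (p := p) hb, th_sum h1 h2]
  refine Finset.sum_eq_zero (fun X _ => ?_)
  rw [h2, h _ (icl_isWt X), mul_zero]

/-- an additive and homogeneous function vanishing on the real weights vanishes on the real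
blocks -/
theorem blk_of_real {Θ : MonoidAlgebra k A → k} (h1 : ∀ y z, Θ (y + z) = Θ y + Θ z)
    (h2 : ∀ (c : k) z, Θ (c • z) = c * Θ z)
    (h : ∀ m : A → ℤ, IsWt p ⊤ m → (∀ x, m x⁻¹ = m x) → Θ (zel k m) = 0)
    {b : MonoidAlgebra k A} (hb : IsBlock (⊤ : Subgroup A) b)
    (hr : ∀ x, b.coeff x⁻¹ = b.coeff x) : Θ b = 0 := by
  classical
  letI : Fintype (Cl (⊤ : Subgroup A) (Preg p)) := Fintype.ofFinite _
  rw [blk_eq_sum (p := p) hb, th_sum h1 h2]
  have hco : ∀ X : Cl (⊤ : Subgroup A) (Preg p),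
      b.coeff ((ci X).out : A) = b.coeff (X.out : A) := by
    intro X
    obtain ⟨g, _, hg⟩ := InCl_out_conj (in_ci (InCl_out X))
    rw [hg, hb.invBy g (Subgroup.mem_top g), hr]
  refine Finset.sum_involution (fun X _ => ci X) ?_ ?_ (fun X _ => Finset.mem_univ _)
    (fun X _ => ci_ci X)
  · intro X _
    rw [h2, h2, hco, ← mul_add, ← h1, ← zel_add]
    have hw : IsWt p (⊤ : Subgroup A) (fun x => icl p X x + icl p (ci X) x) := by
      constructor
      · intro g hg x
        rw [(icl_isWt X).conj g hg, (icl_isWt (ci X)).conj g hg]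
      · intro x hx
        by_contra h3
        apply hx
        have e1 : icl p X x = 0 := by
          by_contra h4
          exact h3 ((icl_isWt X).reg x h4)
        have e2 : icl p (ci X) x = 0 := by
          by_contra h4
          exact h3 ((icl_isWt (ci X)).reg x h4)
        rw [e1, e2, add_zero]
    rw [h _ hw, mul_zero]
    intro x
    change icl p X x⁻¹ + icl p (ci X) x⁻¹ = icl p X x + icl p (ci X) x
    rw [icl_ci, icl_ci, inv_inv, add_comm]
  · intro X _ hX hE
    apply hX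
    rw [h2, h _ (icl_isWt X), mul_zero]
    intro x
    have h3 := icl_ci X x
    rw [hE] at h3
    exact h3.symm

end Pool.Agent.Lib.P0c8ca5.Bw
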