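import Mathlib
import Pool.Agent.Lib.P0c8ca5V.Rot
import Pool.Agent.Lib.P0c8ca5Bw.TDef

/-!
# TauA: the number of involutions inverting `x` and centralizing `z`

PROOF. `cent_odd`: as `RotAux.no_p_cent` (P0c8ca5V.Rot) with `Subgroup.closure {x, z}` in place of `gen t`: `g` centralizes `closure {x, z} ≥ O²(A)`; a power `g ^ n` of order 2
would give `zpowers (g ^ n) = ⊥` by `norm_trivial`. (Or apply `no_p_cent` to the triple `t = (x, z, 1)`: `gen t = closure {x, z, 1}`.)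
`nI_odd`. Let `y` invert `x` and centralize `z`. Let `C` be the set of the `g` commuting with `x` and `z` (a group of odd order by `cent_odd`). `y ^ 2 ∈ C`.
Let `w = pr 2 y` (`w` is a power of `y` of odd order), `r₀ = y * w⁻¹` (a 2-element by `exists_pow_mul_inv_pr`). `w` is a power of `y ^ 2` (odd order), so `w ∈ C`, and `r₀` inverts `x` and
centralizes `z`; `r₀ ^ 2 ∈ C` is a 2-element of odd order (`cent_odd`), so `r₀ ^ 2 = 1`. So the set `I` in `nI` contains `r₀`. The map `r ↦ r₀ * r * r₀` is an involution of `I`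
(`r₀⁻¹ = r₀`; it inverts `x`, centralizes `z`, its square is `1`), and its only fixed point is `r₀`: if `r₀ r r₀ = r`, then `r₀ r = r r₀`, `g = r₀ * r ∈ C`, `g ^ 2 = 1`, so `g = 1`
by `cent_odd` and `r = r₀`. So `|I|` is odd (e.g. `Equiv.Perm.card_fixedPoints_modEq` with `p = 2`, see `RotPAux.nX_mod` in P0c8ca5V.RotP, or `Function.Involutive.card_fixedPoints..`).
-/

namespace Pool.Agent.Lib.P0c8ca5.Bw

variable {A : Type*} [Group A] [Finite A]

theorem cent_odd (hO : NoP 2 (⊤ : Subgroup A)) {x z : A}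
    (h : Opr 2 (⊤ : Subgroup A) ≤ Subgroup.closure {x, z}) {g : A} (h1 : g * x = x * g)
    (h2 : g * z = z * g) : ¬ 2 ∣ orderOf g := by
  have : Fact (Nat.Prime 2) := ⟨Nat.prime_two⟩
  refine RotAux.no_p_cent (p := 2) hO (t := (x, z, 1)) ?_ ?_
  · refine h.trans ?_
    unfold gen
    refine Subgroup.closure_mono ?_
    intro y hy
    rcases hy with rfl | hy
    · exact Or.inl rfl
    · exact Or.inr (Or.inl hy)
  · unfold cj3
    refine Prod.ext ?_ (Prod.ext ?_ ?_)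
    · change g * x * g⁻¹ = x
      rw [h1, mul_inv_cancel_right]
    · change g * z * g⁻¹ = z
      rw [h2, mul_inv_cancel_right]
    · change g * 1 * g⁻¹ = 1
      rw [mul_one, mul_inv_cancel]

namespace TauAAux

/-- a 2-element commuting with `x` and `z` is trivial -/
private theorem two_el (hO : NoP 2 (⊤ : Subgroup A)) {x z : A}
    (h : Opr 2 (⊤ : Subgroup A) ≤ Subgroup.closure {x, z}) {g : A} (h1 : g * x = x * g)
    (h2 : g * z = z * g) {n : ℕ} (hn : g ^ 2 ^ n = 1) : g = 1 := by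
  have h3 := cent_odd hO h h1 h2
  have h4 : Nat.Coprime (orderOf g) (2 ^ n) :=
    Nat.Coprime.pow_right _ ((Nat.Prime.coprime_iff_not_dvd Nat.prime_two).2 h3).symm
  have h5 : orderOf g ∣ 1 := h4 ▸ Nat.dvd_gcd dvd_rfl (orderOf_dvd_of_pow_eq_one hn)
  exact orderOf_eq_one_iff.1 (Nat.dvd_one.1 h5)

private theorem exists_inv (hO : NoP 2 (⊤ : Subgroup A)) {x z : A}
    (h : Opr 2 (⊤ : Subgroup A) ≤ Subgroup.closure {x, z}) {y : A}
    (h1 : y * x * y⁻¹ = x⁻¹) (h2 : y * z * y⁻¹ = z) :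
    ∃ r : A, r ^ 2 = 1 ∧ r * x * r⁻¹ = x⁻¹ ∧ r * z * r⁻¹ = z := by
  have : Fact (Nat.Prime 2) := ⟨Nat.prime_two⟩
  have c1 : Commute (y ^ 2) x := by
    have h3 : y * x = x⁻¹ * y := mul_inv_eq_iff_eq_mul.1 h1
    have h4 : y * x⁻¹ = x * y := by
      have h5 : y * x⁻¹ * y⁻¹ = x := by
        have := congrArg (fun g => g⁻¹) h1
        simp only [mul_inv_rev, inv_inv] at this
        rw [← mul_assoc] at this
        exact this
      exact mul_inv_eq_iff_eq_mul.1 h5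
    change y ^ 2 * x = x * y ^ 2
    rw [pow_two, mul_assoc, h3, ← mul_assoc, h4, mul_assoc]
  have c2 : Commute y z := mul_inv_eq_iff_eq_mul.1 h2
  obtain ⟨w, hw⟩ : ∃ w, w = pr 2 y := ⟨_, rfl⟩
  have hwo : Nat.Coprime 2 (orderOf w) := by
    rw [hw]
    exact (Nat.Prime.coprime_iff_not_dvd Nat.prime_two).2 (preg_pr y)
  obtain ⟨m, hm⟩ := exists_pow_eq_self_of_coprime hwo
  have hw2 : w = (y ^ 2) ^ (uexp 2 A * m) := by
    rw [← hm, hw]
    unfold pr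
    rw [← pow_mul, ← pow_mul, ← pow_mul]
    ring_nf
  have cw1 : Commute w x := by rw [hw2]; exact c1.pow_left _
  have cw2 : Commute w z := by rw [hw2]; exact (c2.pow_left 2).pow_left _
  have cwy : Commute y w := by rw [hw2]; exact ((Commute.refl y).pow_right 2).pow_right _
  obtain ⟨r, hr⟩ : ∃ r, r = y * w⁻¹ := ⟨_, rfl⟩
  have hr1 : r * x * r⁻¹ = x⁻¹ := by
    have e : r * x * r⁻¹ = y * (w⁻¹ * x * w) * y⁻¹ := by rw [hr]; group
    have e2 : w⁻¹ * x * w = x := by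
      rw [mul_assoc, ← cw1.eq, inv_mul_cancel_left]
    rw [e, e2, h1]
  have hr2 : r * z * r⁻¹ = z := by
    have e : r * z * r⁻¹ = y * (w⁻¹ * z * w) * y⁻¹ := by rw [hr]; group
    have e2 : w⁻¹ * z * w = z := by
      rw [mul_assoc, ← cw2.eq, inv_mul_cancel_left]
    rw [e, e2, h2]
  have hr3 : r ^ 2 = y ^ 2 * (w ^ 2)⁻¹ := by
    rw [hr, (cwy.inv_right).mul_pow, inv_pow]
  have cr1 : Commute (r ^ 2) x := by
    rw [hr3]; exact c1.mul_left (cw1.pow_left 2).inv_left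
  have cr2 : Commute (r ^ 2) z := by
    rw [hr3]; exact (c2.pow_left 2).mul_left (cw2.pow_left 2).inv_left
  obtain ⟨n, hn⟩ : ∃ n : ℕ, r ^ 2 ^ n = 1 := by
    rw [hr, hw]; exact exists_pow_mul_inv_pr y
  refine ⟨r, ?_, hr1, hr2⟩
  refine two_el hO h cr1.eq cr2.eq (n := n) ?_
  rw [← pow_mul, mul_comm, pow_mul, hn, one_pow]

end TauAAux

open TauAAux in
theorem nI_odd (hO : NoP 2 (⊤ : Subgroup A)) {x z : A}
    (h : Opr 2 (⊤ : Subgroup A) ≤ Subgroup.closure {x, z}) {y : A}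
    (h1 : y * x * y⁻¹ = x⁻¹) (h2 : y * z * y⁻¹ = z) : (2 : ℤ) ∣ 1 - (nI (x, z) : ℤ) := by
  classical
  have : Fact (Nat.Prime 2) := ⟨Nat.prime_two⟩
  have : Fintype A := Fintype.ofFinite A
  obtain ⟨r₀, k1, k2, k3⟩ := exists_inv hO h h1 h2
  have k0 : r₀⁻¹ = r₀ := by
    rw [inv_eq_iff_mul_eq_one, ← pow_two]; exact k1
  have k4 : r₀ * r₀ = 1 := by rw [← pow_two]; exact k1
  have k2' : r₀ * x * r₀ = x⁻¹ := by
    have h3 := k2
    rw [k0] at h3
    exact h3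
  have k3' : r₀ * z * r₀ = z := by
    have h3 := k3
    rw [k0] at h3
    exact h3
  -- inverse forms
  have inv_of : ∀ r : A, r * x * r⁻¹ = x⁻¹ → r * x⁻¹ * r⁻¹ = x := by
    intro r hr
    have := congrArg (fun g => g⁻¹) hr
    simp only [mul_inv_rev, inv_inv] at this
    rw [← mul_assoc] at this
    exact this
  have hstab : ∀ r : A, (r ^ 2 = 1 ∧ r * x * r⁻¹ = x⁻¹ ∧ r * z * r⁻¹ = z) →
      ((r₀ * r * r₀⁻¹) ^ 2 = 1 ∧ (r₀ * r * r₀⁻¹) * x * (r₀ * r * r₀⁻¹)⁻¹ = x⁻¹ ∧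
        (r₀ * r * r₀⁻¹) * z * (r₀ * r * r₀⁻¹)⁻¹ = z) := by
    rintro r ⟨a1, a2, a3⟩
    refine ⟨?_, ?_, ?_⟩
    · rw [conj_pow, a1, mul_one, mul_inv_cancel]
    · have e : (r₀ * r * r₀⁻¹) * x * (r₀ * r * r₀⁻¹)⁻¹
          = r₀ * (r * (r₀⁻¹ * x * r₀⁻¹⁻¹) * r⁻¹) * r₀⁻¹ := by group
      rw [e, k0, k2, inv_of r a2, k2']
    · have e : (r₀ * r * r₀⁻¹) * z * (r₀ * r * r₀⁻¹)⁻¹
          = r₀ * (r * (r₀⁻¹ * z * r₀⁻¹⁻¹) * r⁻¹) * r₀⁻¹ := by group
      rw [e, k0, k3, a3, k3']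
  let S := {r : A // r ^ 2 = 1 ∧ r * x * r⁻¹ = x⁻¹ ∧ r * z * r⁻¹ = z}
  let f : Function.End S := fun s => ⟨r₀ * s.1 * r₀⁻¹, hstab s.1 s.2⟩
  have hf : f ^ 2 ^ 1 = 1 := by
    funext s
    apply Subtype.ext
    change r₀ * (r₀ * s.1 * r₀⁻¹) * r₀⁻¹ = s.1
    have e : r₀ * (r₀ * s.1 * r₀⁻¹) * r₀⁻¹ = (r₀ * r₀) * s.1 * (r₀ * r₀)⁻¹ := by group
    rw [e, k4, one_mul, inv_one, mul_one]
  have h6 := Equiv.Perm.card_fixedPoints_modEq (p := 2) hf
  have h7 : Fintype.card (Function.fixedPoints f) = 1 := by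
    rw [Fintype.card_eq_one_iff]
    refine ⟨⟨⟨r₀, k1, k2, k3⟩, ?_⟩, ?_⟩
    · apply Subtype.ext
      change r₀ * r₀ * r₀⁻¹ = r₀
      group
    · rintro ⟨⟨r, a1, a2, a3⟩, hfr⟩
      have h8 : r₀ * r * r₀⁻¹ = r := congrArg Subtype.val hfr
      have h9 : Commute r₀ r := mul_inv_eq_iff_eq_mul.1 h8
      have b1 : (r₀ * r) * x = x * (r₀ * r) := by
        have e : (r₀ * r) * x * (r₀ * r)⁻¹ = r₀ * (r * x * r⁻¹) * r₀⁻¹ := by group
        rw [a2, inv_of r₀ k2] at e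
        exact mul_inv_eq_iff_eq_mul.1 e
      have b2 : (r₀ * r) * z = z * (r₀ * r) := by
        have e : (r₀ * r) * z * (r₀ * r)⁻¹ = r₀ * (r * z * r⁻¹) * r₀⁻¹ := by group
        rw [a3, k3] at e
        exact mul_inv_eq_iff_eq_mul.1 e
      have b3 : (r₀ * r) ^ 2 ^ 1 = 1 := by
        rw [pow_one, h9.mul_pow, k1, a1, one_mul]
      have b4 := two_el hO h b1 b2 b3
      apply Subtype.ext
      apply Subtype.ext
      change r = r₀
      rw [mul_eq_one_iff_inv_eq, k0] at b4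
      exact b4.symm
  rw [h7] at h6
  have h8 : nI (x, z) = Fintype.card S := by
    unfold nI
    exact Nat.card_eq_fintype_card
  rw [h8]
  exact (Nat.modEq_iff_dvd).1 h6

end Pool.Agent.Lib.P0c8ca5.Bw
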