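import Mathlib
import Pool.Agent.Lib.P0c8ca5V.Rot
import Pool.Agent.Lib.P0c8ca5Bw.TDef

/-!
# TauB: triples of involutions and pairs

PROOF. `(r, s, t) ↦ ((r * s, t), r)` is a bijection from the triples with `r² = s² = t² = 1`, `r t = t r` to the pairs `((x, z), r)` with `r² = 1`, `r x r⁻¹ = x⁻¹`, `r z r⁻¹ = z`,
`z² = 1` (inverse: `((x, z), r) ↦ (r, r * x, z)`; `(r x)² = r x r x = x⁻¹ x = 1`). Under it `Pel 2 (r * s)`, `(r * s) ^ 4 ∈ S`, `m ((r * s * t) ^ 4)` are the terms of `wP`, and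
`Opr 2 ⊤ ≤ closure {r, s, t} ↔ Opr 2 ⊤ ≤ closure {r * s, t}`: `←` is clear. `→`: let `K = closure {r * s, t}`. `r` normalizes `K` (`r (r s) r⁻¹ = (r s)⁻¹`, `r t r⁻¹ = t`). The set
`K ∪ r K` is a subgroup containing `r, s = r * (r s), t`, so it contains all elements `g` of odd order (as `Opr 2 ⊤ = closure {g | Preg 2 g}`, and `Preg 2 g → g ∈ Opr 2 ⊤`). If `g = r k`, `k ∈ K`, then
`g ^ 2 = (r k r⁻¹) * k ∈ K` (`r² = 1`) and `g` is a power of `g ^ 2` (odd order: `exists_pow_eq_self_of_coprime`), so `g ∈ K`.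
So `tS S m = ∑ (x, z), ∑ r, [r inverts x, centralizes z, r² = 1] wP S m (x, z) = ∑ y, wP S m y * nI y` (note that `wP` requires `z ^ 2 = 1`).
(`finsum` over finite types: `finsum_eq_sum_of_fintype`, `Fintype.sum_prod_type`, `Finset.sum_bij'` or `Finset.sum_nbij'` on the filters.)
-/

namespace Pool.Agent.Lib.P0c8ca5.Bw

variable {A : Type*} [Group A] [Finite A]

namespace TauBAux

theorem conj_mem {r s t : A} (hr : r ^ 2 = 1) (hs : s ^ 2 = 1) (ht : r * t = t * r) {k : A}
    (hk : k ∈ Subgroup.closure {r * s, t}) : r * k * r⁻¹ ∈ Subgroup.closure {r * s, t} := by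
  have hr' : r * r = 1 := by rw [← sq, hr]
  have hs' : s * s = 1 := by rw [← sq, hs]
  induction hk using Subgroup.closure_induction with
  | mem x hx =>
    rcases hx with rfl | hx
    · have h : r * (r * s) * r⁻¹ = (r * s)⁻¹ := by
        rw [← mul_assoc, hr', one_mul, mul_inv_rev, inv_eq_of_mul_eq_one_left hs']
      rw [h]
      exact inv_mem (Subgroup.subset_closure (Set.mem_insert _ _))
    · rw [Set.mem_singleton_iff] at hx
      subst hx
      rw [ht, mul_inv_cancel_right]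
      exact Subgroup.subset_closure (Set.mem_insert_of_mem _ rfl)
  | one => rw [mul_one, mul_inv_cancel]; exact one_mem _
  | mul x y _ _ hx hy =>
    have h : r * (x * y) * r⁻¹ = (r * x * r⁻¹) * (r * y * r⁻¹) := by group
    rw [h]
    exact mul_mem hx hy
  | inv x _ hx =>
    have h : r * x⁻¹ * r⁻¹ = (r * x * r⁻¹)⁻¹ := by group
    rw [h]
    exact inv_mem hx

theorem mem_or {r s t : A} (hr : r ^ 2 = 1) (hs : s ^ 2 = 1) (ht : r * t = t * r) {k : A}
    (hk : k ∈ Subgroup.closure {r, s, t}) :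
    k ∈ Subgroup.closure {r * s, t} ∨ r * k ∈ Subgroup.closure {r * s, t} := by
  have hr' : r * r = 1 := by rw [← sq, hr]
  have hri : r⁻¹ = r := inv_eq_of_mul_eq_one_left hr'
  have hc : ∀ k ∈ Subgroup.closure {r * s, t}, r * k * r ∈ Subgroup.closure {r * s, t} := by
    intro k hk
    have h := conj_mem hr hs ht hk
    rwa [hri] at h
  induction hk using Subgroup.closure_induction with
  | mem x hx =>
    rcases hx with rfl | rfl | hx
    · exact Or.inr (by rw [hr']; exact one_mem _)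
    · exact Or.inr (Subgroup.subset_closure (Set.mem_insert _ _))
    · rw [Set.mem_singleton_iff] at hx
      subst hx
      exact Or.inl (Subgroup.subset_closure (Set.mem_insert_of_mem _ rfl))
  | one => exact Or.inl (one_mem _)
  | mul x y _ _ hx hy =>
    rcases hx with hx | hx <;> rcases hy with hy | hy
    · exact Or.inl (mul_mem hx hy)
    · refine Or.inr ?_
      have h : r * (x * y) = (r * x * r) * (r * y) := by
        rw [mul_assoc (r * x) r, ← mul_assoc r r y, hr', one_mul, mul_assoc]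
      rw [h]
      exact mul_mem (hc x hx) hy
    · refine Or.inr ?_
      rw [← mul_assoc]
      exact mul_mem hx hy
    · refine Or.inl ?_
      have h : x * y = (r * (r * x) * r) * (r * y) := by
        rw [← mul_assoc r r x, hr', one_mul, mul_assoc x r, ← mul_assoc r r y, hr', one_mul]
      rw [h]
      exact mul_mem (hc _ hx) hy
  | inv x _ hx =>
    rcases hx with hx | hx
    · exact Or.inl (inv_mem hx)
    · refine Or.inr ?_
      have h : r * x⁻¹ = r * (r * x)⁻¹ * r := by
        rw [mul_inv_rev, hri, mul_assoc, mul_assoc, hr', mul_one]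
      rw [h]
      exact hc _ (inv_mem hx)

end TauBAux

theorem opr_triple (r s t : A) (hr : r ^ 2 = 1) (hs : s ^ 2 = 1) (ht : r * t = t * r) :
    Opr 2 (⊤ : Subgroup A) ≤ Subgroup.closure {r, s, t} ↔
      Opr 2 (⊤ : Subgroup A) ≤ Subgroup.closure {r * s, t} := by
  have hr' : r * r = 1 := by rw [← sq, hr]
  have hri : r⁻¹ = r := inv_eq_of_mul_eq_one_left hr'
  constructor
  · intro h
    refine (Subgroup.closure_le _).2 ?_
    rintro g ⟨hg0, hg⟩
    have h1 : g ∈ Subgroup.closure {r, s, t} := h (Subgroup.subset_closure ⟨hg0, hg⟩)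
    rcases TauBAux.mem_or hr hs ht h1 with h2 | h2
    · exact h2
    · have h3 : g ^ 2 ∈ Subgroup.closure {r * s, t} := by
        have h4 : g ^ 2 = (r * (r * g) * r⁻¹) * (r * g) := by
          rw [hri, ← mul_assoc r r g, hr', one_mul, mul_assoc g r, ← mul_assoc r r g, hr', one_mul,
            sq]
        rw [h4]
        exact mul_mem (TauBAux.conj_mem hr hs ht h2) h2
      have h5 : Nat.Coprime 2 (orderOf g) := (Nat.prime_two.coprime_iff_not_dvd).2 hg
      obtain ⟨n, hn⟩ := exists_pow_eq_self_of_coprime h5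
      rw [SetLike.mem_coe, ← hn]
      exact pow_mem h3 n
  · intro h
    refine h.trans ((Subgroup.closure_le _).2 ?_)
    rintro x (rfl | hx)
    · exact mul_mem (Subgroup.subset_closure (Set.mem_insert _ _))
        (Subgroup.subset_closure (Set.mem_insert_of_mem _ (Set.mem_insert _ _)))
    · rw [Set.mem_singleton_iff] at hx
      subst hx
      exact Subgroup.subset_closure (Set.mem_insert_of_mem _ (Set.mem_insert_of_mem _ rfl))

namespace TauBAux

/-- `(r, s, t) ↦ ((r * s, t), r)` -/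
def eqv : A × A × A ≃ (A × A) × A where
  toFun y := ((y.1 * y.2.1, y.2.2), y.1)
  invFun y := (y.2, y.2⁻¹ * y.1.1, y.1.2)
  left_inv y := by simp
  right_inv y := by simp

end TauBAux

theorem tS_eq (S : Set A) (m : A → ℤ) :
    tS S m = ∑ᶠ y : A × A, wP S m y * (nI y : ℤ) := by
  classical
  have := Fintype.ofFinite A
  have h1 : ∀ y : A × A, wP S m y * (nI y : ℤ) = ∑ r : A,
      if r ^ 2 = 1 ∧ r * y.1 * r⁻¹ = y.1⁻¹ ∧ r * y.2 * r⁻¹ = y.2 then wP S m y else 0 := by
    intro y
    rw [← Finset.sum_filter, Finset.sum_const, nI, Nat.card_eq_fintype_card, Fintype.card_subtype,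
      nsmul_eq_mul, mul_comm]
  rw [finsum_eq_sum_of_fintype, tS, finsum_eq_sum_of_fintype, Finset.sum_congr rfl (fun y _ => h1 y),
    ← Fintype.sum_prod_type' (fun (y : A × A) (r : A) =>
      if r ^ 2 = 1 ∧ r * y.1 * r⁻¹ = y.1⁻¹ ∧ r * y.2 * r⁻¹ = y.2 then wP S m y else 0)]
  refine Fintype.sum_equiv TauBAux.eqv _ _ ?_
  rintro ⟨r, s, t⟩
  change _ = if r ^ 2 = 1 ∧ r * (r * s) * r⁻¹ = (r * s)⁻¹ ∧ r * t * r⁻¹ = t then
    wP S m (r * s, t) else 0
  simp only [wP]
  rw [← ite_and]
  refine if_congr ?_ rfl rfl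
  constructor
  · rintro ⟨hr, hs, ht, hc, hp, hS, hO⟩
    have hr' : r * r = 1 := by rw [← sq, hr]
    have hs' : s * s = 1 := by rw [← sq, hs]
    refine ⟨⟨hr, ?_, ?_⟩, hp, hS, ht, (opr_triple r s t hr hs hc).1 hO⟩
    · rw [← mul_assoc, hr', one_mul, mul_inv_rev, inv_eq_of_mul_eq_one_left hs']
    · rw [hc, mul_inv_cancel_right]
  · rintro ⟨⟨hr, h1, h2⟩, hp, hS, ht, hO⟩
    have hr' : r * r = 1 := by rw [← sq, hr]
    have hc : r * t = t * r := mul_inv_eq_iff_eq_mul.1 h2
    have hs : s ^ 2 = 1 := by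
      rw [← mul_assoc, hr', one_mul, mul_inv_rev] at h1
      have h3 : s = s⁻¹ := mul_right_cancel h1
      rw [sq]
      nth_rw 1 [h3]
      exact inv_mul_cancel s
    exact ⟨hr, hs, ht, hc, hp, hS, (opr_triple r s t hr hs hc).2 hO⟩

end Pool.Agent.Lib.P0c8ca5.Bw
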