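import Mathlib
import Pool.Agent.Lib.P0c8ca5V.RotX
import Pool.Agent.Lib.P0c8ca5V.Loc
import Pool.Agent.Lib.P0c8ca5Bw.Asm
import Pool.Agent.Lib.P0c8ca5Bw.Rl
import Pool.Agent.Lib.P0c8ca5Bw.Hyp
import Pool.Agent.Lib.P0c8ca5Bw.Rot
import Pool.Agent.Lib.P0c8ca5Bw.Par
import Pool.Agent.Lib.P0c8ca5Bw.TauC
import Pool.Agent.Lib.P0c8ca5Bw.MbR

/-!
# Blockwise congruences

`gap_of_pow`: if the block `e` of `G` vanishes on the centralizers of the nontrivial `p ^ r`-th powers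
of p-elements, and there is a rotation of order `p ^ r`, then `l(B) = w(B)` modulo `p`.
`gap_of_inv`: `p = 2`, real blocks.
-/

namespace Pool.Agent.Lib.P0c8ca5.Bw

open MonoidAlgebra TFinAux

universe u v

/-- the nontrivial `q`-th powers of the p-elements -/
def Sq (p q : ℕ) (X : Type*) [Group X] : Set X := {u | u ≠ 1 ∧ ∃ x : X, Pel p x ∧ x ^ q = u}

/-- the nontrivial fourth powers of the 2-elements that are products of two involutions -/
def Si (X : Type*) [Group X] : Set X :=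
  {u | u ≠ 1 ∧ ∃ r s : X, r ^ 2 = 1 ∧ s ^ 2 = 1 ∧ Pel 2 (r * s) ∧ (r * s) ^ 4 = u}

theorem pel_conj' {p : ℕ} {X : Type*} [Group X] (g x : X) : Pel p (g * x * g⁻¹) ↔ Pel p x := by
  unfold Pel
  refine exists_congr fun n => ?_
  rw [conj_pow]
  exact conj_eq_one_iff

theorem pel_pow {p : ℕ} {X : Type*} [Group X] {x : X} (h : Pel p x) (q : ℕ) : Pel p (x ^ q) := by
  obtain ⟨n, hn⟩ := h
  exact ⟨n, by rw [← pow_mul, mul_comm, pow_mul, hn, one_pow]⟩

theorem cInv_of {X : Type*} [Group X] {S : Set X} (h : ∀ g u : X, u ∈ S → g * u * g⁻¹ ∈ S) :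
    CInv S := by
  intro g u
  refine ⟨fun h1 => ?_, h g u⟩
  have h2 := h g⁻¹ _ h1
  have h3 : g⁻¹ * (g * u * g⁻¹) * g⁻¹⁻¹ = u := by group
  rwa [h3] at h2

theorem cInv_Sq (p q : ℕ) (X : Type*) [Group X] : CInv (Sq p q X) := by
  refine cInv_of ?_
  rintro g u ⟨h1, x, h2, h3⟩
  refine ⟨fun h => h1 (conj_eq_one_iff.1 h), g * x * g⁻¹, (pel_conj' g x).2 h2, ?_⟩
  rw [conj_pow, h3]

theorem pSet_Sq (p q : ℕ) (X : Type*) [Group X] : PSet p (Sq p q X) := by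
  rintro u ⟨h1, x, h2, h3⟩
  exact ⟨h3 ▸ pel_pow h2 q, h1⟩

theorem cInv_Si (X : Type*) [Group X] : CInv (Si X) := by
  refine cInv_of ?_
  rintro g u ⟨h1, r, s, h2, h3, h4, h5⟩
  refine ⟨fun h => h1 (conj_eq_one_iff.1 h), g * r * g⁻¹, g * s * g⁻¹, ?_, ?_, ?_, ?_⟩
  · rw [conj_pow, h2, mul_one, mul_inv_cancel]
  · rw [conj_pow, h3, mul_one, mul_inv_cancel]
  · have e : g * r * g⁻¹ * (g * s * g⁻¹) = g * (r * s) * g⁻¹ := by group
    rw [e]
    exact (pel_conj' g _).2 h4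
  · have e : g * r * g⁻¹ * (g * s * g⁻¹) = g * (r * s) * g⁻¹ := by group
    rw [e, conj_pow, h5]

theorem pSet_Si (X : Type*) [Group X] : PSet 2 (Si X) := by
  rintro u ⟨h1, r, s, _, _, h4, h5⟩
  exact ⟨h5 ▸ pel_pow h4 4, h1⟩

theorem cInv_compl {p : ℕ} {X : Type*} [Group X] {S : Set X} (hC : CInv S) :
    CInv {u : X | Pel p u ∧ u ≠ 1 ∧ u ∉ S} := by
  refine cInv_of ?_
  rintro g u ⟨h1, h2, h3⟩
  exact ⟨(pel_conj' g u).2 h1, fun h => h2 (conj_eq_one_iff.1 h), fun h => h3 ((hC g u).1 h)⟩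

theorem pSet_compl {p : ℕ} {X : Type*} [Group X] (S : Set X) :
    PSet p {u : X | Pel p u ∧ u ≠ 1 ∧ u ∉ S} := fun _ h => ⟨h.1, h.2.1⟩

/-- the rest does not contribute: powers -/
theorem rest_pow {p r : ℕ} [Fact p.Prime] (E : ∀ (X : Type u) [Group X], X × X × X → X × X × X)
    (hE : ∀ (X : Type u) [Group X], IsRot (p ^ r) (E X)) (X : Type u) [Group X] [Finite X]
    {m : X → ℤ} (hm : IsWt p ⊤ m) :
    (p : ℤ) * (Nat.card X : ℤ) ∣ eS p {u : X | Pel p u ∧ u ≠ 1 ∧ u ∉ Sq p (p ^ r) X} m := by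
  refine eS_of_bS (cInv_compl (cInv_Sq p _ X)) hm (fun U hU => ?_)
  rw [← bS_dn]
  refine rot_dvd (hE ↥U) ((NoP_dn U).2 hU) (cInv_dn (cInv_compl (cInv_Sq p _ X)) U) ?_ ?_
    (IsWt_dn U hm)
  · rintro u ⟨h1, h2, _⟩
    exact ⟨(DCAux.pel_coe u).1 h1, fun h => h2 (by rw [h]; rfl)⟩
  · rintro x hx ⟨_, h2, h3⟩
    apply h3
    refine ⟨h2, (x : X), (DCAux.pel_coe x).2 hx, ?_⟩
    exact (Subgroup.coe_pow U x _).symm

/-- the rest does not contribute: products of two involutions, real weights -/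
theorem rest_inv (X : Type u) [Group X] [Finite X] {m : X → ℤ} (hm : IsWt 2 ⊤ m)
    (hr : ∀ x, m x⁻¹ = m x) :
    (2 : ℤ) * (Nat.card X : ℤ) ∣ eS 2 {u : X | Pel 2 u ∧ u ≠ 1 ∧ u ∉ Si X} m := by
  have : Fact (Nat.Prime 2) := ⟨Nat.prime_two⟩
  have hinv : ∀ u : X, u ∈ Si X → u⁻¹ ∈ Si X := by
    rintro u ⟨h1, r, s, h2, h3, h4, h5⟩
    have h6 : (r * s)⁻¹ = s * r := by
      rw [mul_inv_rev, inv_eq_of_mul_eq_one_left (by rw [← pow_two, h2] : r * r = 1),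
        inv_eq_of_mul_eq_one_left (by rw [← pow_two, h3] : s * s = 1)]
    refine ⟨inv_ne_one.2 h1, s, r, h3, h2, ?_, ?_⟩
    · rw [← h6]
      obtain ⟨n, hn⟩ := h4
      exact ⟨n, by rw [inv_pow, hn, inv_one]⟩
    · rw [← h6, inv_pow, h5]
  refine eS_of_bS (p := 2) (cInv_compl (cInv_Si X)) hm (fun U hU => ?_)
  rw [← bS_dn]
  have hO := (NoP_dn U).2 hU
  set S' : Set ↥U := {x : ↥U | (x : X) ∈ {u : X | Pel 2 u ∧ u ≠ 1 ∧ u ∉ Si X}} with hS'
  have hC' : CInv S' := cInv_dn (cInv_compl (cInv_Si X)) U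
  have hP' : PSet 2 S' := by
    rintro u ⟨h1, h2, _⟩
    exact ⟨(DCAux.pel_coe u).1 h1, fun h => h2 (by rw [h]; rfl)⟩
  have hi' : ∀ u, u⁻¹ ∈ S' ↔ u ∈ S' := by
    have h0 : ∀ u, u ∈ S' → u⁻¹ ∈ S' := by
      rintro u ⟨⟨n, hn⟩, h2, h3⟩
      refine ⟨⟨n, ?_⟩, ?_, ?_⟩
      · change ((u⁻¹ : ↥U) : X) ^ 2 ^ n = 1
        rw [Subgroup.coe_inv, inv_pow, hn, inv_one]
      · change ((u⁻¹ : ↥U) : X) ≠ 1
        rw [Subgroup.coe_inv]
        exact inv_ne_one.2 h2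
      · intro h4
        apply h3
        have h5 := hinv _ h4
        rwa [Subgroup.coe_inv, inv_inv] at h5
    intro u
    refine ⟨fun h => ?_, h0 u⟩
    have h1 := h0 _ h
    rwa [inv_inv] at h1
  have h1 := bS_congr_pS (p := 2) (r := 2) (s := 2) (E := E4) (T := T4) (A := ↥U)
    (by norm_num; exact E4_isRot) (by norm_num; exact T4_isPar) hO hC' hP' (IsWt_dn U hm)
  have h2 := pS_congr_tS hO hC' hi' (IsWt_dn U hm) (fun x => by
    change m ((x⁻¹ : ↥U) : X) = m (x : X)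
    rw [Subgroup.coe_inv, hr])
  have h3 : tS S' (fun x : ↥U => m x) = 0 := by
    classical
    unfold tS
    refine finsum_eq_zero_of_forall_eq_zero (fun y => ?_)
    rw [if_neg]
    rintro ⟨h4, h5, _, _, h8, h9, _⟩
    obtain ⟨_, h10, h11⟩ := h9
    apply h11
    refine ⟨h10, (y.1 : X), (y.2.1 : X), ?_, ?_, ?_, ?_⟩
    · have := congrArg Subtype.val h4
      simpa using this
    · have := congrArg Subtype.val h5
      simpa using this
    · have := (DCAux.pel_coe (p := 2) (y.1 * y.2.1)).2 h8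
      simpa using this
    · simp
  rw [h3, sub_zero] at h2
  norm_num at h1 h2 ⊢
  have h4 := dvd_add h1 h2
  rwa [sub_add_cancel] at h4

section
variable {p : ℕ} {k : Type v} [Field k] [IsAlgClosed k] [Fact p.Prime] [CharP k p]

/-- from `Lam` to `gap` -/
theorem gap_of_Lam {G : Type u} [Group G] [Fintype G] {e : MonoidAlgebra k G}
    (he : IsBlock (⊤ : Subgroup G) e) (h : Lam p e = 0) :
    ∃ t : ℤ, gap p (⊤ : Subgroup G) ⊤ e = (p : ℚ) * t := by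
  rw [Lam_blk he] at h
  obtain ⟨s, hs⟩ := (CharP.intCast_eq_zero_iff k p _).1 h
  refine ⟨s, ?_⟩
  rw [gap_gp he, hs]
  push_cast
  rfl

/-- the functional `Lam + ∑ TQ` -/
theorem Th_add {G : Type u} [Group G] [Fintype G] (S : ∀ Q : Subgroup G, Set (NQ Q))
    (y z : MonoidAlgebra k G) :
    (Lam p (y + z) + ∑ Q ∈ TT p G, TQ p S Q (y + z))
      = (Lam p y + ∑ Q ∈ TT p G, TQ p S Q y) + (Lam p z + ∑ Q ∈ TT p G, TQ p S Q z) := by
  rw [Lam_add, Finset.sum_congr rfl (fun Q _ => TQ_add S Q y z), Finset.sum_add_distrib]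
  ring

theorem Th_smul {G : Type u} [Group G] [Fintype G] (S : ∀ Q : Subgroup G, Set (NQ Q)) (c : k)
    (z : MonoidAlgebra k G) :
    (Lam p (c • z) + ∑ Q ∈ TT p G, TQ p S Q (c • z))
      = c * (Lam p z + ∑ Q ∈ TT p G, TQ p S Q z) := by
  rw [Lam_smul, Finset.sum_congr rfl (fun Q _ => TQ_smul S Q c z), ← Finset.mul_sum]
  ring

/-- a block vanishing on the centralizers of the elements of the sets `S Q` -/
theorem TQ_blk_zero {G : Type u} [Group G] [Fintype G] {S : ∀ Q : Subgroup G, Set (NQ Q)}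
    (hC : ∀ Q, CInv (S Q)) (hP : ∀ Q, PSet p (S Q)) {e : MonoidAlgebra k G}
    (he : IsBlock (⊤ : Subgroup G) e)
    (h : ∀ Q : Subgroup G, IsPGroup p Q → ∀ u ∈ S Q, ∃ y : ↥(Subgroup.normalizer (Q : Set G)),
      QuotientGroup.mk y = u ∧ Pel p (y : G) ∧ ∀ x : G, x * y = y * x → e.coeff x = 0)
    {Q : Subgroup G} (hQ : IsPGroup p Q) : TQ p S Q e = 0 := by
  letI : Fintype (NQ Q) := Fintype.ofFinite _
  refine TS_eq_zero (hC Q) (hP Q) (proj_mem he.mem) (fun u hu c hc => ?_)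
  obtain ⟨y, hy1, hy2, hy3⟩ := h Q hQ u hu
  refine proj_zero he hQ y hy2 hy3 c ?_
  rw [hy1]
  exact hc

end

/-- **Blockwise congruence.** If the block `e` vanishes on the centralizers of the nontrivial
`p ^ r`-th powers of the p-elements of `G` then `l(B) = w(B)` modulo `p`. -/
theorem gap_of_pow {p r : ℕ} [Fact p.Prime] {k : Type v} [Field k] [IsAlgClosed k] [CharP k p]
    (E : ∀ (X : Type u) [Group X], X × X × X → X × X × X)
    (hE : ∀ (X : Type u) [Group X], IsRot (p ^ r) (E X)) (G : Type u) [Group G] [Finite G]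
    {e : MonoidAlgebra k G} (he : IsBlock (⊤ : Subgroup G) e)
    (h : ∀ x : G, Pel p x → x ^ p ^ r ≠ 1 → ∀ c : G, c * x ^ p ^ r = x ^ p ^ r * c →
      e.coeff c = 0) :
    ∃ t : ℤ, gap p (⊤ : Subgroup G) ⊤ e = (p : ℚ) * t := by
  have : Fintype G := Fintype.ofFinite G
  refine gap_of_Lam he ?_
  let S : ∀ Q : Subgroup G, Set (NQ Q) := fun Q => Sq p (p ^ r) (NQ Q)
  have h1 : Lam p e + ∑ Q ∈ TT p G, TQ p S Q e = 0 := by
    refine blk_of_wt (p := p) (Θ := fun z => Lam p z + ∑ Q ∈ TT p G, TQ p S Q z)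
      (Th_add S) (Th_smul S) (fun m hm => ?_) he
    change Lam p (zel k m) + ∑ Q ∈ TT p G, TQ p S Q (zel k m) = 0
    rw [Lam_eq hm S (fun Q => cInv_Sq p _ _), neg_add_cancel]
    intro Q _
    rw [eA_sub_eE_split (pSet_Sq p (p ^ r) (NQ Q)), add_sub_cancel_left]
    exact rest_pow E hE (NQ Q) (mb_isWt Q hm)
  have h2 : ∑ Q ∈ TT p G, TQ p S Q e = 0 := by
    refine Finset.sum_eq_zero (fun Q hQ => ?_)
    refine TQ_blk_zero (fun Q => cInv_Sq p _ _) (fun Q => pSet_Sq p _ _) he ?_ (mem_TT hQ)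
    rintro Q hQ u ⟨hu, x, hx, rfl⟩
    obtain ⟨y, rfl⟩ := QuotientGroup.mk_surjective x
    have hy : Pel p (y : G) := by
      obtain ⟨n, hn⟩ := hx
      rw [← QuotientGroup.mk_pow, QuotientGroup.eq_one_iff, Subgroup.mem_subgroupOf] at hn
      obtain ⟨l, hl⟩ := hQ ⟨_, hn⟩
      refine ⟨n + l, ?_⟩
      have h3 := congrArg Subtype.val hl
      rw [pow_add, pow_mul]
      simpa using h3
    refine ⟨y ^ p ^ r, rfl, ?_, ?_⟩
    · rw [Subgroup.coe_pow]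
      exact pel_pow hy _
    · intro c hc
      rw [Subgroup.coe_pow] at hc
      refine h (y : G) hy (fun h4 => hu ?_) c hc
      have h5 : y ^ p ^ r = 1 := Subtype.ext (by rw [Subgroup.coe_pow, h4]; rfl)
      rw [← QuotientGroup.mk_pow, h5]
      rfl
  rwa [h2, add_zero] at h1

/-- **Real 2-blocks.** If the real 2-block `e` vanishes on the centralizer of `(r s) ^ 4` for all
2-subgroups `Q` and all `r, s` in the normalizer of `Q` with `r², s² ∈ Q`, `r s` a 2-element and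
`(r s) ^ 4 ∉ Q`, then `l(B) = w(B)` modulo `2`. -/
theorem gap_of_inv {k : Type v} [Field k] [IsAlgClosed k] [CharP k 2]
    (G : Type u) [Group G] [Finite G] {e : MonoidAlgebra k G} (he : IsBlock (⊤ : Subgroup G) e)
    (hreal : ∀ x, e.coeff x⁻¹ = e.coeff x)
    (h : ∀ Q : Subgroup G, IsPGroup 2 Q → ∀ r ∈ Subgroup.normalizer (Q : Set G),
      ∀ s ∈ Subgroup.normalizer (Q : Set G), r ^ 2 ∈ Q → s ^ 2 ∈ Q → Pel 2 (r * s) →
      (r * s) ^ 4 ∉ Q → ∀ c : G, c * (r * s) ^ 4 = (r * s) ^ 4 * c → e.coeff c = 0) :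
    ∃ t : ℤ, gap 2 (⊤ : Subgroup G) ⊤ e = (2 : ℚ) * t := by
  have : Fintype G := Fintype.ofFinite G
  have : Fact (Nat.Prime 2) := ⟨Nat.prime_two⟩
  have key := gap_of_Lam (p := 2) he ?_
  · exact_mod_cast key
  let S : ∀ Q : Subgroup G, Set (NQ Q) := fun Q => Si (NQ Q)
  have h1 : Lam 2 e + ∑ Q ∈ TT 2 G, TQ 2 S Q e = 0 := by
    refine blk_of_real (p := 2) (Θ := fun z => Lam 2 z + ∑ Q ∈ TT 2 G, TQ 2 S Q z)
      (Th_add S) (Th_smul S) (fun m hm hr => ?_) he hreal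
    change Lam 2 (zel k m) + ∑ Q ∈ TT 2 G, TQ 2 S Q (zel k m) = 0
    rw [Lam_eq hm S (fun Q => cInv_Si _), neg_add_cancel]
    intro Q _
    rw [eA_sub_eE_split (pSet_Si (NQ Q)), add_sub_cancel_left]
    exact rest_inv (NQ Q) (mb_isWt Q hm) (mb_real Q hr)
  have h2 : ∑ Q ∈ TT 2 G, TQ 2 S Q e = 0 := by
    refine Finset.sum_eq_zero (fun Q hQ => ?_)
    refine TQ_blk_zero (fun Q => cInv_Si _) (fun Q => pSet_Si _) he ?_ (mem_TT hQ)
    rintro Q hQ u ⟨hu, r, s, hr, hs, hrs, rfl⟩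
    obtain ⟨r, rfl⟩ := QuotientGroup.mk_surjective r
    obtain ⟨s, rfl⟩ := QuotientGroup.mk_surjective s
    rw [← QuotientGroup.mk_pow, QuotientGroup.eq_one_iff, Subgroup.mem_subgroupOf,
      Subgroup.coe_pow] at hr hs
    have hy : Pel 2 ((r : G) * s) := by
      obtain ⟨n, hn⟩ := hrs
      rw [← QuotientGroup.mk_mul, ← QuotientGroup.mk_pow, QuotientGroup.eq_one_iff,
        Subgroup.mem_subgroupOf] at hn
      obtain ⟨l, hl⟩ := hQ ⟨_, hn⟩
      refine ⟨n + l, ?_⟩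
      have h3 := congrArg Subtype.val hl
      rw [pow_add, pow_mul]
      simpa using h3
    refine ⟨(r * s) ^ 4, rfl, ?_, ?_⟩
    · rw [Subgroup.coe_pow, Subgroup.coe_mul]
      exact pel_pow hy _
    · intro c hc
      rw [Subgroup.coe_pow, Subgroup.coe_mul] at hc
      refine h Q hQ r r.2 s s.2 hr hs hy (fun h4 => hu ?_) c hc
      rw [← QuotientGroup.mk_mul, ← QuotientGroup.mk_pow, QuotientGroup.eq_one_iff,
        Subgroup.mem_subgroupOf, Subgroup.coe_pow, Subgroup.coe_mul]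
      exact h4
  rwa [h2, add_zero] at h1

end Pool.Agent.Lib.P0c8ca5.Bw
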