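import Mathlib
import Pool.Agent.Lib.P0c8ca5V.ClsF
import Pool.Agent.Lib.P0c8ca5Bw.TDef

/-!
# InvA: triples of involutions and single conjugacy classes

PROOF. `tS_class`: as `bB_class`/`pB_class` (P0c8ca5V.ClsF, MainPAux in P0c8ca5V.MainP): both sides are sums over all triples (`finsum_eq_sum_of_fintype`, `Nat.card_eq_fintype_card`,
`Fintype.card_subtype`, `Finset.card_filter`); `ClsFAux.opr_le_iff`; `(r s) ^ 4 ∈ {u | Pel 2 u ∧ u ≠ 1}` iff `(r s) ^ 4 ≠ 1` when `Pel 2 (r s)`.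
`tS_iff_class`: as `bB_iff_class`: `tS S m = ∑ X : ConjClasses G, m X.out * tS S (ind X.out)`.
`tS_nonreal`: every term vanishes: let `w = r s t` with `r² = s² = t² = 1`, `r t = t r`. `r w r⁻¹ = s t r = s r t = (r s)⁻¹ t`, and `t ((r s)⁻¹ t) t⁻¹ = t (r s)⁻¹ = t s r = w⁻¹`; so
`w ^ 4` is conjugate to its inverse; if `IsConj x (w ^ 4)` then `IsConj x x⁻¹`.
-/

namespace Pool.Agent.Lib.P0c8ca5.Bw

variable {G : Type*} [Group G] [Finite G]

namespace InvAAux

open Classical in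
/-- the triples counted by `tS` -/
def Good {G : Type*} [Group G] (S : Set G) (y : G × G × G) : Prop :=
  y.1 ^ 2 = 1 ∧ y.2.1 ^ 2 = 1 ∧ y.2.2 ^ 2 = 1 ∧
    y.1 * y.2.2 = y.2.2 * y.1 ∧ Pel 2 (y.1 * y.2.1) ∧ (y.1 * y.2.1) ^ 4 ∈ S ∧
    Opr 2 (⊤ : Subgroup G) ≤ Subgroup.closure {y.1, y.2.1, y.2.2}

open Classical in
theorem tS_eq {G : Type*} [Group G] [Fintype G] (S : Set G) (m : G → ℤ) :
    tS S m = ∑ y : G × G × G, if Good S y then m ((y.1 * y.2.1 * y.2.2) ^ 4) else 0 := by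
  unfold tS
  rw [finsum_eq_sum_of_fintype]
  refine Finset.sum_congr rfl (fun y _ => ?_)
  by_cases h : Good S y
  · rw [if_pos h]
    exact if_pos h
  · rw [if_neg h]
    exact if_neg h

open Classical in
/-- the characteristic function of a class -/
noncomputable def ind {G : Type*} [Group G] (x c : G) : ℤ := if IsConj x c then 1 else 0

theorem ind_pos {G : Type*} [Group G] {x c : G} (h : IsConj x c) : ind x c = 1 := if_pos h

theorem ind_neg {G : Type*} [Group G] {x c : G} (h : ¬ IsConj x c) : ind x c = 0 := if_neg h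

theorem pel_pow {G : Type*} [Group G] {x : G} (h : Pel 2 x) (j : ℕ) : Pel 2 (x ^ j) := by
  obtain ⟨n, hn⟩ := h
  exact ⟨n, by rw [← pow_mul, mul_comm, pow_mul, hn, one_pow]⟩

theorem inv_of_sq {G : Type*} [Group G] {r : G} (h : r ^ 2 = 1) : r⁻¹ = r := by
  rw [inv_eq_iff_mul_eq_one, ← pow_two, h]

theorem real_prod {G : Type*} [Group G] {r s t : G} (hr : r ^ 2 = 1) (hs : s ^ 2 = 1)
    (ht : t ^ 2 = 1) (hc : r * t = t * r) : IsConj (r * s * t) (r * s * t)⁻¹ := by
  refine isConj_iff.2 ⟨t * r, ?_⟩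
  have hr' := inv_of_sq hr
  have hs' := inv_of_sq hs
  have ht' := inv_of_sq ht
  rw [pow_two] at hr hs ht
  have e1 : (r * s * t)⁻¹ = t * s * r := by
    rw [mul_inv_rev, mul_inv_rev, hr', hs', ht', mul_assoc]
  have e2 : (t * r)⁻¹ = t * r := by
    rw [mul_inv_rev, hr', ht', hc]
  rw [e1, e2]
  calc t * r * (r * s * t) * (t * r) = t * (r * r) * s * (t * t) * r := by group
    _ = t * s * r := by rw [hr, ht, mul_one, mul_one]

theorem isConj_inv {G : Type*} [Group G] {x y : G} (h : IsConj x y) : IsConj x⁻¹ y⁻¹ := by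
  obtain ⟨c, hc⟩ := isConj_iff.1 h
  refine isConj_iff.2 ⟨c, ?_⟩
  rw [← hc]
  group

theorem isConj_pow {G : Type*} [Group G] {x y : G} (h : IsConj x y) (n : ℕ) :
    IsConj (x ^ n) (y ^ n) := by
  obtain ⟨c, hc⟩ := isConj_iff.1 h
  refine isConj_iff.2 ⟨c, ?_⟩
  rw [← hc, conj_pow]

end InvAAux

open InvAAux

open Classical in
theorem tS_class (x : G) :
    ((Nat.card {y : G × G × G // y.1 ^ 2 = 1 ∧ y.2.1 ^ 2 = 1 ∧ y.2.2 ^ 2 = 1 ∧
        y.1 * y.2.2 = y.2.2 * y.1 ∧ Pel 2 (y.1 * y.2.1) ∧ (y.1 * y.2.1) ^ 4 ≠ 1 ∧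
        IsConj x ((y.1 * y.2.1 * y.2.2) ^ 4) ∧
        ∀ w : G, Preg 2 w → w ∈ Subgroup.closure ({y.1, y.2.1, y.2.2} : Set G)} : ℕ) : ℤ)
      = tS {u : G | Pel 2 u ∧ u ≠ 1} (fun c => if IsConj x c then 1 else 0) := by
  have : Fintype G := Fintype.ofFinite G
  rw [tS_eq, Nat.card_eq_fintype_card, Fintype.card_subtype, Finset.card_filter]
  push_cast
  refine Finset.sum_congr rfl (fun y _ => ?_)
  by_cases h : Good {u : G | Pel 2 u ∧ u ≠ 1} y
  · rw [if_pos h]
    by_cases h2 : IsConj x ((y.1 * y.2.1 * y.2.2) ^ 4)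
    · rw [if_pos h2]
      obtain ⟨a1, a2, a3, a4, a5, a6, a7⟩ := h
      rw [if_pos ⟨a1, a2, a3, a4, a5, a6.2, h2, (ClsFAux.opr_le_iff _).1 a7⟩]
    · rw [if_neg h2, if_neg (fun h3 => h2 h3.2.2.2.2.2.2.1)]
  · rw [if_neg h, if_neg]
    rintro ⟨a1, a2, a3, a4, a5, a6, _, a7⟩
    exact h ⟨a1, a2, a3, a4, a5, ⟨pel_pow a5 4, a6⟩, (ClsFAux.opr_le_iff _).2 a7⟩

open Classical in
theorem tS_iff_class (S : Set G) (q : ℤ) :
    (∀ m : G → ℤ, IsWt 2 ⊤ m → q ∣ tS S m) ↔
    ∀ x : G, Preg 2 x → q ∣ tS S (fun c => if IsConj x c then 1 else 0) := by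
  have : Fintype G := Fintype.ofFinite G
  constructor
  · intro h x hx
    refine h _ ⟨fun g _ y => ?_, fun y hy => ?_⟩
    · have h1 : IsConj y (g * y * g⁻¹) := isConj_iff.2 ⟨g, rfl⟩
      by_cases h2 : IsConj x y
      · rw [if_pos h2, if_pos (h2.trans h1)]
      · rw [if_neg h2, if_neg (fun h3 => h2 (h3.trans h1.symm))]
    · by_cases h2 : IsConj x y
      · intro hd
        obtain ⟨c, hc⟩ := isConj_iff.1 h2
        apply hx
        rw [← hc] at hd
        have e1 : orderOf (c * x * c⁻¹) = orderOf x := by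
          have := orderOf_injective (MulAut.conj c).toMonoidHom (MulAut.conj c).injective x
          rw [← this]
          rfl
        rwa [e1] at hd
      · exact absurd (if_neg h2) hy
  · intro h m hm
    have key : tS S m
        = ∑ X : ConjClasses G, m (Quotient.out X) * tS S (ind (Quotient.out X)) := by
      simp only [tS_eq, Finset.mul_sum]
      rw [Finset.sum_comm]
      refine Finset.sum_congr rfl (fun y _ => ?_)
      by_cases hg : Good S y
      · simp only [if_pos hg]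
        rw [Finset.sum_eq_single (ConjClasses.mk ((y.1 * y.2.1 * y.2.2) ^ 4))]
        · have h1 : IsConj (Quotient.out (ConjClasses.mk ((y.1 * y.2.1 * y.2.2) ^ 4)))
              ((y.1 * y.2.1 * y.2.2) ^ 4) :=
            ConjClasses.mk_eq_mk_iff_isConj.1 (Quotient.out_eq _)
          rw [ind_pos h1, mul_one]
          obtain ⟨c, hc⟩ := isConj_iff.1 h1
          have h2 := hm.conj c (Subgroup.mem_top c)
            (Quotient.out (ConjClasses.mk ((y.1 * y.2.1 * y.2.2) ^ 4)))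
          rw [hc] at h2
          exact h2
        · intro X _ hX
          rw [ind_neg, mul_zero]
          intro h1
          apply hX
          have h2 := ConjClasses.mk_eq_mk_iff_isConj.2 h1
          rw [← h2]
          exact (Quotient.out_eq X).symm
        · intro h1
          exact absurd (Finset.mem_univ _) h1
      · simp only [if_neg hg, mul_zero, Finset.sum_const_zero]
    rw [key]
    refine Finset.dvd_sum (fun X _ => ?_)
    by_cases h0 : m (Quotient.out X) = 0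
    · rw [h0, zero_mul]
      exact dvd_zero q
    · exact Dvd.dvd.mul_left (h _ (hm.reg _ h0)) _

open Classical in
theorem tS_nonreal (S : Set G) {x : G} (hx : ¬ IsConj x x⁻¹) :
    tS S (fun c => if IsConj x c then 1 else 0) = 0 := by
  have : Fintype G := Fintype.ofFinite G
  rw [tS_eq]
  refine Finset.sum_eq_zero (fun y _ => ?_)
  by_cases h : Good S y
  · rw [if_pos h, if_neg]
    intro h1
    apply hx
    obtain ⟨a1, a2, a3, a4, -⟩ := h
    have h2 : IsConj ((y.1 * y.2.1 * y.2.2) ^ 4) ((y.1 * y.2.1 * y.2.2) ^ 4)⁻¹ := by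
      rw [← inv_pow]
      exact isConj_pow (real_prod a1 a2 a3 a4) 4
    exact (h1.trans h2).trans (isConj_inv h1).symm
  · rw [if_neg h]

end Pool.Agent.Lib.P0c8ca5.Bw
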