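import Mathlib
import Pool.Agent.Lib.P0c8ca5V.MainP
import Pool.Agent.Lib.P0c8ca5O.Main
import Pool.Agent.Lib.P0c8ca5Bw.FinU
import Pool.Agent.Lib.P0c8ca5Bw.NR
import Pool.Agent.Lib.P0c8ca5Bw.InvA

/-!
# The blockwise weight conjecture at `p = 2` and triples of involutions
-/

namespace Pool.Agent.Lib.P0c8ca5.Bw

open MonoidAlgebra TFinAux

universe u v

/-- the nontrivial p-elements -/
def Sall (p : ℕ) (X : Type*) [Group X] : Set X := {u | Pel p u ∧ u ≠ 1}

theorem cInv_all (p : ℕ) (X : Type*) [Group X] : CInv (Sall p X) := by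
  refine cInv_of ?_
  rintro g u ⟨h1, h2⟩
  exact ⟨(pel_conj' g u).2 h1, fun h => h2 (conj_eq_one_iff.1 h)⟩

theorem pSet_all (p : ℕ) (X : Type*) [Group X] : PSet p (Sall p X) := fun _ h => h

theorem inv_all (p : ℕ) (X : Type*) [Group X] (u : X) : u⁻¹ ∈ Sall p X ↔ u ∈ Sall p X := by
  have h0 : ∀ u : X, u ∈ Sall p X → u⁻¹ ∈ Sall p X := by
    rintro u ⟨⟨n, hn⟩, h2⟩
    exact ⟨⟨n, by rw [inv_pow, hn, inv_one]⟩, inv_ne_one.2 h2⟩
  refine ⟨fun h => ?_, h0 u⟩
  have h1 := h0 _ h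
  rwa [inv_inv] at h1

theorem bS_all {p : ℕ} {X : Type*} [Group X] (U : Subgroup X) (m : X → ℤ) :
    bS p (Sall p X) U m = bB p U m := by
  classical
  unfold bS bB
  refine finsum_congr fun t => ?_
  have h1 : dS (Sall p X) m t = dW p m t := by
    unfold dS dW
    by_cases h : Pel p (cmt t.1 t.2.1 * t.2.2) ∧ cmt t.1 t.2.1 * t.2.2 ≠ 1
    · rw [if_pos (show cmt t.1 t.2.1 * t.2.2 ∈ Sall p X from h), if_pos h]
    · rw [if_neg (show cmt t.1 t.2.1 * t.2.2 ∉ Sall p X from h), if_neg h]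
  rw [h1]

/-- triples and triples of involutions, for real weights -/
theorem bB_congr_tS {X : Type u} [Group X] [Finite X] (hO : NoP 2 (⊤ : Subgroup X)) {m : X → ℤ}
    (hm : IsWt 2 ⊤ m) (hr : ∀ x, m x⁻¹ = m x) :
    (2 : ℤ) * (ordProj[2] (Nat.card X) : ℕ) ∣ bB 2 (⊤ : Subgroup X) m - tS (Sall 2 X) m := by
  have h1 := bS_congr_pS (p := 2) (r := 2) (s := 2) (E := E4) (T := T4) (A := X)
    (by norm_num; exact E4_isRot) (by norm_num; exact T4_isPar) hO (cInv_all 2 X)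
    (pSet_all 2 X) hm
  have h2 := pS_congr_tS hO (cInv_all 2 X) (inv_all 2 X) hm hr
  rw [bS_all] at h1
  norm_num at h1 h2 ⊢
  have h4 := dvd_add h1 h2
  rwa [sub_add_sub_cancel] at h4

open Classical in
theorem isWt_ind {X : Type u} [Group X] {x : X} (hx : Preg 2 x) :
    IsWt 2 (⊤ : Subgroup X) (fun c => if IsConj x c then 1 else 0) :=
  MainPAux.isWt_class hx (fun c hc => if_pos hc) (fun c hc => if_neg hc)

open Classical in
theorem real_ind {X : Type u} [Group X] {x : X} (hx : IsConj x x⁻¹) (c : X) :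
    (if IsConj x c⁻¹ then (1 : ℤ) else 0) = if IsConj x c then 1 else 0 := by
  have key : ∀ a b : X, IsConj a b → IsConj a⁻¹ b⁻¹ := by
    intro a b h
    obtain ⟨g, hg⟩ := isConj_iff.1 h
    refine isConj_iff.2 ⟨g, ?_⟩
    rw [← hg]
    group
  have h1 : IsConj x c⁻¹ ↔ IsConj x c := by
    constructor
    · intro h
      have h2 := key _ _ h
      rw [inv_inv] at h2
      exact hx.trans h2
    · intro h
      exact hx.trans (key _ _ h)
  by_cases h2 : IsConj x c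
  · rw [if_pos h2, if_pos (h1.2 h2)]
  · rw [if_neg h2, if_neg (fun h => h2 (h1.1 h))]

/-- real blocks -/
theorem real_blocks {k : Type v} [Field k] [IsAlgClosed k] [CharP k 2]
    (h : ∀ (X : Type u) [Group X] [Finite X], NoP 2 (⊤ : Subgroup X) → ∀ m : X → ℤ,
      IsWt 2 ⊤ m → (∀ x, m x⁻¹ = m x) →
      (2 : ℤ) * (ordProj[2] (Nat.card X) : ℕ) ∣ bB 2 (⊤ : Subgroup X) m)
    (G : Type u) [Group G] [Finite G] {e : MonoidAlgebra k G} (he : IsBlock (⊤ : Subgroup G) e)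
    (hreal : ∀ x, e.coeff x⁻¹ = e.coeff x) :
    ∃ t : ℤ, gap 2 (⊤ : Subgroup G) ⊤ e = (2 : ℚ) * t := by
  have : Fintype G := Fintype.ofFinite G
  have : Fact (Nat.Prime 2) := ⟨Nat.prime_two⟩
  have key := gap_of_Lam (p := 2) he ?_
  · exact_mod_cast key
  refine blk_of_real (p := 2) (Θ := fun z => Lam 2 z) Lam_add Lam_smul
    (fun m hm hr => ?_) he hreal
  obtain ⟨t, ht, ht'⟩ := Lam_zel (k := k) hm
  have h1 : (2 : ℤ) * (Nat.card G : ℤ) ∣ nL 2 (⊤ : Subgroup G) m - P0c8ca5.wS 2 m := by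
    have h2 := LocAux.wS_of_eL (p := 2) G hm (fun Q _ => ?_)
    · exact_mod_cast h2
    have h3 : IsWt 2 (⊤ : Subgroup (NQ Q)) (mb Q m) := mb_isWt Q hm
    have h3r := mb_real Q hr
    refine LocAux.eL_of_eA (NQ Q) h3 (LocAux.eA_of_bB (NQ Q) h3 fun U hU => ?_)
    rw [← bB_dn]
    have h4 := h ↥U ((NoP_dn U).2 hU) (fun x => mb Q m x) (IsWt_dn U h3) (fun x => by
      rw [Subgroup.coe_inv]
      exact h3r _)
    exact_mod_cast h4
  have hA : (Nat.card G : ℤ) ≠ 0 := by exact_mod_cast (Nat.card_pos (α := G)).ne'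
  rw [ht, mul_comm (2 : ℤ)] at h1
  have h3 : (2 : ℤ) ∣ t := Int.dvd_of_mul_dvd_mul_left hA h1
  rw [← ht']
  exact (CharP.intCast_eq_zero_iff k 2 t).2 (by exact_mod_cast h3)

/-- the gap is an integer -/
theorem gap_int {k : Type v} [Field k] [IsAlgClosed k] [CharP k 2] {G : Type u} [Group G]
    [Finite G] {b : MonoidAlgebra k G} (hb : IsBlock (⊤ : Subgroup G) b) :
    ∃ g : ℤ, gap 2 (⊤ : Subgroup G) ⊤ b = (g : ℚ) := by
  have : Fintype G := Fintype.ofFinite G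
  have : Fact (Nat.Prime 2) := ⟨Nat.prime_two⟩
  exact ⟨gp 2 b, gap_gp hb⟩

/-- from real blocks to all blocks -/
theorem all_blocks {k : Type v} [Field k] [IsAlgClosed k] [CharP k 2]
    (h : ∀ (G : Type u) [Group G] [Finite G] (e : MonoidAlgebra k G),
      IsBlock (⊤ : Subgroup G) e → (∀ x, e.coeff x⁻¹ = e.coeff x) →
      ∃ t : ℤ, gap 2 (⊤ : Subgroup G) ⊤ e = (2 : ℚ) * t)
    (G : Type u) [Group G] [Finite G] (b : MonoidAlgebra k G) (hb : IsBlock (⊤ : Subgroup G) b) :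
    ∃ t : ℤ, gap 2 (⊤ : Subgroup G) ⊤ b = (2 : ℚ) * t := by
  by_cases hne : du b = b
  · refine h G b hb (fun x => ?_)
    rw [← coeff_du, hne]
  obtain ⟨E, hE, hreal, hgap⟩ := exists_real hb hne
  haveI : Finite (Wr.WG 2 G) :=
    Finite.of_equiv _ (RegularWreathProduct.equivProd G (Wr.Cp 2)).symm
  obtain ⟨t, ht⟩ := h (Wr.WG 2 G) E hE hreal
  obtain ⟨g, hg⟩ := gap_int hb
  rw [ht, hg] at hgap
  have h1 : (2 : ℤ) * t = g * (2 * (Nat.card (Quotient (irrInvSetoid (⊤ : Subgroup G) ⊥ b)) : ℤ) - g) := by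
    exact_mod_cast hgap
  have h2 : Even (g * g) := by
    refine ⟨g * (Nat.card (Quotient (irrInvSetoid (⊤ : Subgroup G) ⊥ b)) : ℤ) - t, ?_⟩
    linear_combination h1
  have h3 : Even g := by
    rcases Int.even_or_odd g with h3 | h3
    · exact h3
    · exact absurd h2 (Int.not_even_iff_odd.2 (h3.mul h3))
  obtain ⟨s, hs⟩ := h3
  refine ⟨s, ?_⟩
  rw [hg, hs]
  push_cast
  ring

/-- **The blockwise weight conjecture at `p = 2` is a parity statement on triples of involutions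
(regular maps).** -/
theorem baw_iff_inv {k : Type v} [Field k] [IsAlgClosed k] [CharP k 2] :
    (∀ (G : Type u) [Group G] [Finite G] (b : MonoidAlgebra k G), IsBlock (⊤ : Subgroup G) b →
      gap 2 (⊤ : Subgroup G) ⊤ b = 0) ↔
    (∀ (G : Type u) [Group G] [Finite G], NoP 2 (⊤ : Subgroup G) → ∀ x : G, Preg 2 x →
      2 * ordProj[2] (Nat.card G) ∣ Nat.card {y : G × G × G //
        y.1 ^ 2 = 1 ∧ y.2.1 ^ 2 = 1 ∧ y.2.2 ^ 2 = 1 ∧
        y.1 * y.2.2 = y.2.2 * y.1 ∧ Pel 2 (y.1 * y.2.1) ∧ (y.1 * y.2.1) ^ 4 ≠ 1 ∧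
        IsConj x ((y.1 * y.2.1 * y.2.2) ^ 4) ∧
        ∀ w : G, Preg 2 w → w ∈ Subgroup.closure ({y.1, y.2.1, y.2.2} : Set G)}) := by
  classical
  have : Fact (Nat.Prime 2) := ⟨Nat.prime_two⟩
  constructor
  · intro h G _ _ hG x hx
    rw [← Int.natCast_dvd_natCast, tS_class]
    push_cast
    by_cases hr : IsConj x x⁻¹
    · have h1 := (baw_iff_triples (p := 2) (k := k)).1 (fun G _ _ b hb => ⟨0, by
        rw [h G b hb]
        simp⟩) G hG x hx
      rw [← Int.natCast_dvd_natCast, bB_class] at h1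
      push_cast at h1
      have h2 := bB_congr_tS hG (isWt_ind hx) (real_ind hr)
      push_cast at h2
      exact (dvd_sub_right h1).1 h2
    · rw [tS_nonreal _ hr]
      exact dvd_zero _
  · intro h
    refine amp (p := 2) (fun G _ _ b hb => ?_)
    have key := all_blocks (k := k) (fun G _ _ e he hreal => ?_) G b hb
    · exact_mod_cast key
    refine real_blocks (fun X _ _ hO m hm hr => ?_) G he hreal
    have h1 := bB_congr_tS hO hm hr
    have h2 := (tS_iff_class (Sall 2 X) ((2 : ℤ) * (ordProj[2] (Nat.card X) : ℕ))).2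
      (fun x hx => by
        have h3 := h X hO x hx
        rw [← Int.natCast_dvd_natCast, tS_class] at h3
        push_cast at h3 ⊢
        exact h3) m hm
    have h4 := dvd_add h1 h2
    rwa [sub_add_cancel] at h4

end Pool.Agent.Lib.P0c8ca5.Bw
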