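import Mathlib
import Pool.Agent.Lib.P0c8ca5V.GalF
import Pool.Agent.Lib.P0c8ca5Bw.TDef

/-!
# Pairs and triples of involutions with a given set of first members, and p-rational elements

* `pP p q s P m`: the pairs `(x, z)`, `x ∈ P`, `z ^ s = 1`, generating a subgroup that contains
  `O^p(A)`, weighted by `m` at `(x z) ^ q`.
* `tP P m`: the triples `(r, s, t)` with `r² = s² = t² = 1`, `r t = t r`, `r s ∈ P`,
  generating a subgroup that contains `O²(A)`, weighted by `m` at `(r s t)⁴`.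
* `wQ P m y`: the weight of the pair `y` in `pP 2 4 2 P m`.
-/

namespace Pool.Agent.Lib.P0c8ca5.Bw

open GalFAux

variable {A : Type*} [Group A]

open Classical in
/-- the pairs -/
noncomputable def pP (p q s : ℕ) (P : Set A) (m : A → ℤ) : ℤ :=
  ∑ᶠ y : A × A, if y.1 ∈ P ∧ y.2 ^ s = 1 ∧
    Opr p (⊤ : Subgroup A) ≤ Subgroup.closure {y.1, y.2} then m ((y.1 * y.2) ^ q) else 0

open Classical in
/-- the weight of a pair -/
noncomputable def wQ (P : Set A) (m : A → ℤ) (y : A × A) : ℤ :=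
  if y.1 ∈ P ∧ y.2 ^ 2 = 1 ∧
    Opr 2 (⊤ : Subgroup A) ≤ Subgroup.closure {y.1, y.2} then m ((y.1 * y.2) ^ 4) else 0

open Classical in
/-- the triples of involutions -/
noncomputable def tP (P : Set A) (m : A → ℤ) : ℤ :=
  ∑ᶠ y : A × A × A, if y.1 ^ 2 = 1 ∧ y.2.1 ^ 2 = 1 ∧ y.2.2 ^ 2 = 1 ∧
    y.1 * y.2.2 = y.2.2 * y.1 ∧ y.1 * y.2.1 ∈ P ∧
    Opr 2 (⊤ : Subgroup A) ≤ Subgroup.closure {y.1, y.2.1, y.2.2}
    then m ((y.1 * y.2.1 * y.2.2) ^ 4) else 0

/-- the p-elements with `x ^ q ∈ S` -/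
def PS (p q : ℕ) (S : Set A) : Set A := {x | Pel p x ∧ x ^ q ∈ S}

/-- the p-rational elements of `P` -/
def Rt (p : ℕ) (P : Set A) : Set A := {x | x ∈ P ∧ PRat p x}

theorem pS_eq_pP (p q s : ℕ) (S : Set A) (m : A → ℤ) : pS p q s S m = pP p q s (PS p q S) m := by
  classical
  unfold pS pP
  refine finsum_congr fun y => if_congr ?_ rfl rfl
  exact ⟨fun h => ⟨⟨h.1, h.2.1⟩, h.2.2⟩, fun h => ⟨h.1.1, h.1.2, h.2⟩⟩

/-- Only the p-rational elements of `P` count. -/
theorem pP_rat {p : ℕ} [Fact p.Prime] [Finite A] (hO : NoP p (⊤ : Subgroup A)) {q s : ℕ}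
    {P : Set A} (hC : CInv P) (hst : ∀ j, (Nat.card A).Coprime j → ∀ x ∈ P, x ^ j ∈ P)
    (hP : ∀ x ∈ P, Pel p x ∧ x ^ q ≠ 1) {m : A → ℤ} (hm : IsWt p ⊤ m) :
    (p : ℤ) * (ordProj[p] (Nat.card A) : ℕ) ∣ pP p q s P m - pP p q s (Rt p P) m := by
  classical
  have : Fintype A := Fintype.ofFinite A
  have hst' : ∀ j, (Nat.card A).Coprime j → ∀ x, x ^ j ∈ P ↔ x ∈ P := by
    intro j hj x
    refine ⟨fun h => ?_, hst j hj x⟩
    obtain ⟨l, hl1, hl2⟩ : ∃ l : ℕ, (Nat.card A).Coprime l ∧ j * l ≡ 1 [MOD Nat.card A] := by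
      refine ⟨j ^ (Nat.totient (Nat.card A) - 1), hj.pow_right _, ?_⟩
      have h0 : 0 < Nat.totient (Nat.card A) := Nat.totient_pos.2 Nat.card_pos
      rw [← pow_succ', Nat.sub_add_cancel h0]
      exact Nat.ModEq.pow_totient hj.symm
    have h1 : (x ^ j) ^ l = x := by
      rw [← pow_mul]
      conv_rhs => rw [← pow_one x]
      rw [pow_eq_pow_iff_modEq]
      exact hl2.of_dvd (orderOf_dvd_natCard x)
    rw [← h1]
    exact hst l hl1 _ h
  have h := gen_rat (p := p) q (ψ := fun x => if x ∈ P then GalD.phP p q s m x else 0)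
    (fun c x => by
      simp only [GalD.phP_conj hm c x]
      exact if_congr (hC c x) rfl rfl)
    (fun j hj x => by
      simp only [GalD.phP_pow hm hj x]
      exact if_congr (hst' j hj.1 x) rfl rfl)
    (fun x => by
      by_cases h1 : x ∈ P
      · simp only [if_pos h1]
        exact phP_dvd hO hm x
      · simp only [if_neg h1]
        exact dvd_zero _)
  have h1 : pP p q s P m - pP p q s (Rt p P) m
      = ∑ x : A, if (Pel p x ∧ x ^ q ≠ 1) ∧ ¬ PRat p x then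
        (if x ∈ P then GalD.phP p q s m x else 0) else 0 := by
    unfold pP
    rw [finsum_eq_sum_of_fintype, finsum_eq_sum_of_fintype, ← Finset.sum_sub_distrib,
      Fintype.sum_prod_type]
    refine Finset.sum_congr rfl fun x _ => ?_
    unfold GalD.phP
    by_cases h2 : x ∈ P
    · by_cases h3 : PRat p x
      · rw [if_neg (fun h => h.2 h3)]
        refine Finset.sum_eq_zero fun z _ => ?_
        rw [sub_eq_zero]
        refine if_congr ?_ rfl rfl
        exact ⟨fun h => ⟨⟨h.1, h3⟩, h.2⟩, fun h => ⟨h.1.1, h.2⟩⟩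
      · rw [if_pos ⟨hP x h2, h3⟩, if_pos h2]
        refine Finset.sum_congr rfl fun z _ => ?_
        rw [if_neg (c := x ∈ Rt p P ∧ z ^ s = 1 ∧
          Opr p (⊤ : Subgroup A) ≤ Subgroup.closure {x, z}) (fun h => h3 h.1.2), sub_zero]
        exact if_congr ⟨fun h => h.2, fun h => ⟨h2, h⟩⟩ rfl rfl
    · have h3 : (if (Pel p x ∧ x ^ q ≠ 1) ∧ ¬ PRat p x then
          (if x ∈ P then ∑ z : A, (if z ^ s = 1 ∧ Opr p (⊤ : Subgroup A) ≤
            Subgroup.closure {x, z} then m ((x * z) ^ q) else 0) else 0) else 0) = 0 := by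
        rw [if_neg h2, ite_self]
      rw [h3]
      refine Finset.sum_eq_zero fun z _ => ?_
      rw [if_neg (fun h => h2 h.1), if_neg (fun h => h2 h.1.1), sub_zero]
  rw [h1]
  exact h

end Pool.Agent.Lib.P0c8ca5.Bw
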