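import Mathlib
import Pool.Agent.Lib.P0c8ca5Bw.TauB
import Pool.Agent.Lib.P0c8ca5Bw.PDef

/-! Triples of involutions and pairs, with a given set of first members. -/

namespace Pool.Agent.Lib.P0c8ca5.Bw

variable {A : Type*} [Group A] [Finite A]

theorem tP_eq (P : Set A) (m : A → ℤ) :
    tP P m = ∑ᶠ y : A × A, wQ P m y * (nI y : ℤ) := by
  classical
  have := Fintype.ofFinite A
  have h1 : ∀ y : A × A, wQ P m y * (nI y : ℤ) = ∑ r : A,
      if r ^ 2 = 1 ∧ r * y.1 * r⁻¹ = y.1⁻¹ ∧ r * y.2 * r⁻¹ = y.2 then wQ P m y else 0 := by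
    intro y
    rw [← Finset.sum_filter, Finset.sum_const, nI, Nat.card_eq_fintype_card, Fintype.card_subtype,
      nsmul_eq_mul, mul_comm]
  rw [finsum_eq_sum_of_fintype, tP, finsum_eq_sum_of_fintype, Finset.sum_congr rfl (fun y _ => h1 y),
    ← Fintype.sum_prod_type' (fun (y : A × A) (r : A) =>
      if r ^ 2 = 1 ∧ r * y.1 * r⁻¹ = y.1⁻¹ ∧ r * y.2 * r⁻¹ = y.2 then wQ P m y else 0)]
  refine Fintype.sum_equiv TauBAux.eqv _ _ ?_
  rintro ⟨r, s, t⟩
  change _ = if r ^ 2 = 1 ∧ r * (r * s) * r⁻¹ = (r * s)⁻¹ ∧ r * t * r⁻¹ = t then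
    wQ P m (r * s, t) else 0
  simp only [wQ]
  rw [← ite_and]
  refine if_congr ?_ rfl rfl
  constructor
  · rintro ⟨hr, hs, ht, hc, hS, hO⟩
    have hr' : r * r = 1 := by rw [← sq, hr]
    have hs' : s * s = 1 := by rw [← sq, hs]
    refine ⟨⟨hr, ?_, ?_⟩, hS, ht, (opr_triple r s t hr hs hc).1 hO⟩
    · rw [← mul_assoc, hr', one_mul, mul_inv_rev, inv_eq_of_mul_eq_one_left hs']
    · rw [hc, mul_inv_cancel_right]
  · rintro ⟨⟨hr, h1, h2⟩, hS, ht, hO⟩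
    have hr' : r * r = 1 := by rw [← sq, hr]
    have hc : r * t = t * r := mul_inv_eq_iff_eq_mul.1 h2
    have hs : s ^ 2 = 1 := by
      rw [← mul_assoc, hr', one_mul, mul_inv_rev] at h1
      have h3 : s = s⁻¹ := mul_right_cancel h1
      rw [sq]
      nth_rw 1 [h3]
      exact inv_mul_cancel s
    exact ⟨hr, hs, ht, hc, hS, (opr_triple r s t hr hs hc).2 hO⟩

end Pool.Agent.Lib.P0c8ca5.Bw
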