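import Mathlib
import Pool.Agent.Lib.P0c8ca5V.Orb
import Pool.Agent.Lib.P0c8ca5Bw.TauA
import Pool.Agent.Lib.P0c8ca5Bw.TauD

/-! Pairs and triples of involutions modulo `2 |A|_2`, with a given set of first members. -/

namespace Pool.Agent.Lib.P0c8ca5.Bw

variable {A : Type*} [Group A] [Finite A]

namespace TauEAux

omit [Finite A] in
/-- `(g, ε) • (x, z) = (g x^ε g⁻¹, g z g⁻¹)` -/
@[reducible] private def actP : MulAction (A × ℤˣ) (A × A) where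
  smul t y := (t.1 * y.1 ^ ((t.2 : ℤˣ) : ℤ) * t.1⁻¹, t.1 * y.2 * t.1⁻¹)
  one_smul y := by
    refine Prod.ext ?_ ?_
    · change (1 : A) * y.1 ^ (((1 : ℤˣ) : ℤˣ) : ℤ) * (1 : A)⁻¹ = y.1
      simp
    · change (1 : A) * y.2 * (1 : A)⁻¹ = y.2
      simp
  mul_smul s t y := by
    refine Prod.ext ?_ ?_
    · change (s.1 * t.1) * y.1 ^ ((s.2 * t.2 : ℤˣ) : ℤ) * (s.1 * t.1)⁻¹
        = s.1 * (t.1 * y.1 ^ ((t.2 : ℤˣ) : ℤ) * t.1⁻¹) ^ ((s.2 : ℤˣ) : ℤ) * s.1⁻¹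
      rw [conj_zpow, ← zpow_mul, Units.val_mul, mul_comm (s.2 : ℤ) (t.2 : ℤ)]
      group
    · change (s.1 * t.1) * y.2 * (s.1 * t.1)⁻¹ = s.1 * (t.1 * y.2 * t.1⁻¹) * s.1⁻¹
      group

omit [Finite A] in
private theorem closure_conj (g x z : A) : Subgroup.closure {g * x * g⁻¹, g * z * g⁻¹}
    = (Subgroup.closure {x, z}).map (MulAut.conj g).toMonoidHom := by
  rw [MonoidHom.map_closure, Set.image_insert_eq, Set.image_singleton]
  rfl

omit [Finite A] in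
private theorem closure_inv (x z : A) :
    Subgroup.closure {x⁻¹, z} = Subgroup.closure {x, z} := by
  apply le_antisymm
  · rw [Subgroup.closure_le]
    rintro y (rfl | rfl)
    · exact inv_mem (Subgroup.subset_closure (Or.inl rfl))
    · exact Subgroup.subset_closure (Or.inr rfl)
  · rw [Subgroup.closure_le]
    rintro y (rfl | rfl)
    · have h : y⁻¹ ∈ Subgroup.closure {y⁻¹, z} := Subgroup.subset_closure (Or.inl rfl)
      exact (inv_mem_iff (H := Subgroup.closure {y⁻¹, z})).1 h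
    · exact Subgroup.subset_closure (Or.inr rfl)

omit [Finite A] in
private theorem wQ_conj {P : Set A} (hC : CInv P) {m : A → ℤ} (hm : IsWt 2 ⊤ m) (g x z : A) :
    wQ P m (g * x * g⁻¹, g * z * g⁻¹) = wQ P m (x, z) := by
  classical
  have h1 : (g * x * g⁻¹ ∈ P ∧ (g * z * g⁻¹) ^ 2 = 1 ∧
      Opr 2 (⊤ : Subgroup A) ≤ Subgroup.closure {g * x * g⁻¹, g * z * g⁻¹}) ↔
      (x ∈ P ∧ z ^ 2 = 1 ∧ Opr 2 (⊤ : Subgroup A) ≤ Subgroup.closure {x, z}) := by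
    refine and_congr (hC g x) (and_congr ?_ ?_)
    · rw [conj_pow]
      exact conj_eq_one_iff
    · rw [closure_conj]
      conv_lhs => rw [← RotAux.map_Opr_top (p := 2) g]
      exact Subgroup.map_le_map_iff_of_injective (MulAut.conj g).injective
  have h2 : m ((g * x * g⁻¹ * (g * z * g⁻¹)) ^ 4) = m ((x * z) ^ 4) := by
    have e : g * x * g⁻¹ * (g * z * g⁻¹) = g * (x * z) * g⁻¹ := by group
    rw [e, conj_pow, hm.conj g (Subgroup.mem_top g)]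
  unfold wQ
  change (if g * x * g⁻¹ ∈ P ∧ (g * z * g⁻¹) ^ 2 = 1 ∧
      Opr 2 (⊤ : Subgroup A) ≤ Subgroup.closure {g * x * g⁻¹, g * z * g⁻¹} then
        m ((g * x * g⁻¹ * (g * z * g⁻¹)) ^ 4) else 0)
    = if x ∈ P ∧ z ^ 2 = 1 ∧
      Opr 2 (⊤ : Subgroup A) ≤ Subgroup.closure {x, z} then m ((x * z) ^ 4) else 0
  rw [h2]
  exact if_congr h1 rfl rfl

omit [Finite A] in
private theorem wQ_inv {P : Set A} (hi : ∀ u, u⁻¹ ∈ P ↔ u ∈ P) {m : A → ℤ}
    (hm : IsWt 2 ⊤ m) (hr : ∀ x, m x⁻¹ = m x) (x z : A) :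
    wQ P m (x⁻¹, z) = wQ P m (x, z) := by
  classical
  have h1 : (x⁻¹ ∈ P ∧ z ^ 2 = 1 ∧
      Opr 2 (⊤ : Subgroup A) ≤ Subgroup.closure {x⁻¹, z}) ↔
      (x ∈ P ∧ z ^ 2 = 1 ∧ Opr 2 (⊤ : Subgroup A) ≤ Subgroup.closure {x, z}) := by
    refine and_congr (hi x) (and_congr Iff.rfl ?_)
    rw [closure_inv]
  change (if x⁻¹ ∈ P ∧ z ^ 2 = 1 ∧
      Opr 2 (⊤ : Subgroup A) ≤ Subgroup.closure {x⁻¹, z} then m ((x⁻¹ * z) ^ 4) else 0)
    = if x ∈ P ∧ z ^ 2 = 1 ∧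
      Opr 2 (⊤ : Subgroup A) ≤ Subgroup.closure {x, z} then m ((x * z) ^ 4) else 0
  by_cases hc : x ∈ P ∧ z ^ 2 = 1 ∧
      Opr 2 (⊤ : Subgroup A) ≤ Subgroup.closure {x, z}
  · rw [if_pos hc, if_pos (h1.2 hc)]
    have hz : z⁻¹ = z := by
      rw [inv_eq_iff_mul_eq_one, ← pow_two]
      exact hc.2.1
    have e : x⁻¹ * z = z⁻¹ * (x * z)⁻¹ * z⁻¹⁻¹ := by
      have e1 : z⁻¹ * (x * z)⁻¹ * z⁻¹⁻¹ = z⁻¹ * z⁻¹ * x⁻¹ * z := by group
      have e2 : z⁻¹ * z⁻¹ = 1 := by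
        conv_lhs => rw [hz]
        rw [← pow_two]
        exact hc.2.1
      rw [e1, e2, one_mul]
    rw [e, conj_pow, hm.conj z⁻¹ (Subgroup.mem_top _), inv_pow, hr]
  · rw [if_neg hc, if_neg (fun h => hc (h1.1 h))]

omit [Finite A] in
private theorem nI_conj (g x z : A) : nI (g * x * g⁻¹, g * z * g⁻¹) = nI (x, z) := by
  unfold nI
  refine Nat.card_congr (Equiv.subtypeEquiv (MulAut.conj g).toEquiv ?_).symm
  intro r
  change (r ^ 2 = 1 ∧ r * x * r⁻¹ = x⁻¹ ∧ r * z * r⁻¹ = z) ↔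
    ((g * r * g⁻¹) ^ 2 = 1 ∧ (g * r * g⁻¹) * (g * x * g⁻¹) * (g * r * g⁻¹)⁻¹ = (g * x * g⁻¹)⁻¹ ∧
      (g * r * g⁻¹) * (g * z * g⁻¹) * (g * r * g⁻¹)⁻¹ = g * z * g⁻¹)
  refine and_congr ?_ (and_congr ?_ ?_)
  · rw [conj_pow]
    exact conj_eq_one_iff.symm
  · have e1 : (g * r * g⁻¹) * (g * x * g⁻¹) * (g * r * g⁻¹)⁻¹ = g * (r * x * r⁻¹) * g⁻¹ := by
      group
    rw [e1, conj_inv, mul_left_inj, mul_right_inj]
  · have e1 : (g * r * g⁻¹) * (g * z * g⁻¹) * (g * r * g⁻¹)⁻¹ = g * (r * z * r⁻¹) * g⁻¹ := by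
      group
    rw [e1, mul_left_inj, mul_right_inj]

omit [Finite A] in
private theorem nI_inv (x z : A) : nI (x⁻¹, z) = nI (x, z) := by
  unfold nI
  refine Nat.card_congr (Equiv.subtypeEquivRight ?_)
  intro r
  change (r ^ 2 = 1 ∧ r * x⁻¹ * r⁻¹ = x⁻¹⁻¹ ∧ r * z * r⁻¹ = z) ↔
    (r ^ 2 = 1 ∧ r * x * r⁻¹ = x⁻¹ ∧ r * z * r⁻¹ = z)
  refine and_congr Iff.rfl (and_congr ?_ Iff.rfl)
  rw [← conj_inv, inv_inj]

end TauEAux

open TauEAux in
theorem pP_congr_tP (hO : NoP 2 (⊤ : Subgroup A)) {P : Set A} (hC : CInv P)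
    (hi : ∀ u, u⁻¹ ∈ P ↔ u ∈ P) {m : A → ℤ} (hm : IsWt 2 ⊤ m) (hr : ∀ x, m x⁻¹ = m x) :
    (2 : ℤ) * (ordProj[2] (Nat.card A) : ℕ) ∣ pP 2 4 2 P m - tP P m := by
  classical
  have : Fact (Nat.Prime 2) := ⟨Nat.prime_two⟩
  have : Fintype A := Fintype.ofFinite A
  let _ : MulAction (A × ℤˣ) (A × A) := actP
  have hsm : ∀ (t : A × ℤˣ) (y : A × A),
      t • y = (t.1 * y.1 ^ ((t.2 : ℤˣ) : ℤ) * t.1⁻¹, t.1 * y.2 * t.1⁻¹) := fun _ _ => rfl
  have hp : pP 2 4 2 P m = ∑ᶠ y : A × A, wQ P m y := rfl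
  have hsum : pP 2 4 2 P m - tP P m = ∑ y : A × A, wQ P m y * (1 - (nI y : ℤ)) := by
    rw [hp, tP_eq, finsum_eq_sum_of_fintype, finsum_eq_sum_of_fintype, ← Finset.sum_sub_distrib]
    refine Finset.sum_congr rfl fun y _ => ?_
    ring
  have key := orb_dvd_p (p := 2) (T := A × ℤˣ) (X := A × A)
    (fun y => wQ P m y * (1 - (nI y : ℤ))) ?_ 1 ?_
  · rw [hsum]
    have h2 : Nat.card ℤˣ = 2 := by
      rw [Nat.card_eq_fintype_card]
      exact Fintype.card_units_int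
    have h3 : ordProj[2] 2 = 2 := by
      rw [Nat.prime_two.factorization_self, pow_one]
    rw [one_mul, Nat.card_prod, h2, Nat.ordProj_mul 2 Nat.card_pos.ne' (by norm_num), h3,
      Nat.cast_mul, mul_comm] at key
    exact key
  · rintro ⟨g, ε⟩ ⟨x, z⟩
    simp only [hsm]
    rw [wQ_conj hC hm, nI_conj]
    rcases Int.units_eq_one_or ε with rfl | rfl
    · rw [Units.val_one, zpow_one]
    · rw [Units.val_neg, Units.val_one, zpow_neg, zpow_one, wQ_inv hi hm hr, nI_inv]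
  · rintro ⟨x, z⟩
    by_cases hw : wQ P m (x, z) = 0
    · simp only [hw, zero_mul]
      exact dvd_zero _
    have hg : Opr 2 (⊤ : Subgroup A) ≤ Subgroup.closure {x, z} := by
      by_contra h1
      refine hw ?_
      unfold wQ
      exact if_neg (fun h2 => h1 h2.2.2)
    refine Dvd.dvd.mul_left ?_ _
    rw [one_mul]
    let T : Subgroup (A × ℤˣ) := MulAction.stabilizer (A × ℤˣ) (x, z)
    let π : ↥T →* ℤˣ := (MonoidHom.snd A ℤˣ).comp T.subtype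
    have hπ : ∀ s : ↥T, π s = (s : A × ℤˣ).2 := fun s => rfl
    have hker : ¬ 2 ∣ Nat.card π.ker := by
      intro h1
      obtain ⟨s, hs⟩ := exists_prime_orderOf_dvd_card' 2 h1
      have h2 : ((s : ↥T) : A × ℤˣ).2 = 1 := s.2
      have h3 : (((s : ↥T) : A × ℤˣ)) • ((x, z) : A × A) = (x, z) := (s : ↥T).2
      rw [hsm, h2, Units.val_one, zpow_one] at h3
      have h4 : ((s : ↥T) : A × ℤˣ).1 * x * (((s : ↥T) : A × ℤˣ).1)⁻¹ = x :=
        congrArg Prod.fst h3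
      have h5 : ((s : ↥T) : A × ℤˣ).1 * z * (((s : ↥T) : A × ℤˣ).1)⁻¹ = z :=
        congrArg Prod.snd h3
      refine cent_odd hO hg (mul_inv_eq_iff_eq_mul.1 h4) (mul_inv_eq_iff_eq_mul.1 h5) ?_
      have h6 : ((s : ↥T) : A × ℤˣ).1 ^ 2 = 1 := by
        have h7 : s ^ 2 = 1 := by rw [← hs]; exact pow_orderOf_eq_one s
        have h8 := congrArg (fun s : ↥π.ker => ((s : ↥T) : A × ℤˣ).1) h7
        simpa using h8
      have h7 : ((s : ↥T) : A × ℤˣ).1 ≠ 1 := by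
        intro h8
        have h9 : s = 1 := Subtype.ext (Subtype.ext (Prod.ext h8 h2))
        rw [h9, orderOf_one] at hs
        exact absurd hs (by norm_num)
      rw [orderOf_eq_prime h6 h7]
    have hcard : Nat.card ↥T = Nat.card π.ker * Nat.card π.range := by
      rw [← Subgroup.index_ker, Subgroup.card_mul_index]
    have hk1 : ordProj[2] (Nat.card π.ker) = 1 := by
      rw [Nat.factorization_eq_zero_of_not_dvd hker, pow_zero]
    have hT : ordProj[2] (Nat.card ↥T) = ordProj[2] (Nat.card π.range) := by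
      rw [hcard, Nat.ordProj_mul 2 Nat.card_pos.ne' Nat.card_pos.ne', hk1, one_mul]
    change ((ordProj[2] (Nat.card ↥T) : ℕ) : ℤ) ∣ 1 - (nI (x, z) : ℤ)
    rw [hT]
    by_cases hex : ∃ s : ↥T, π s = -1
    · obtain ⟨s, hs⟩ := hex
      have h3 : (s : A × ℤˣ) • ((x, z) : A × A) = (x, z) := s.2
      rw [hπ] at hs
      rw [hsm, hs, Units.val_neg, Units.val_one, zpow_neg, zpow_one] at h3
      have h4 : (s : A × ℤˣ).1 * x⁻¹ * ((s : A × ℤˣ).1)⁻¹ = x := congrArg Prod.fst h3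
      have h5 : (s : A × ℤˣ).1 * z * ((s : A × ℤˣ).1)⁻¹ = z := congrArg Prod.snd h3
      have h6 : (s : A × ℤˣ).1 * x * ((s : A × ℤˣ).1)⁻¹ = x⁻¹ := by
        rw [← conj_inv, inv_eq_iff_eq_inv] at h4
        exact h4
      have h7 := nI_odd hO hg h6 h5
      refine dvd_trans ?_ h7
      have h8 : Nat.card π.range ∣ 2 := by
        have h9 := Subgroup.card_subgroup_dvd_card π.range
        rw [Nat.card_eq_fintype_card (α := ℤˣ), Fintype.card_units_int] at h9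
        exact h9
      have h9 : ordProj[2] (Nat.card π.range) ∣ 2 := (Nat.ordProj_dvd _ 2).trans h8
      exact_mod_cast h9
    · have h1 : π.range = ⊥ := by
        rw [eq_bot_iff]
        rintro _ ⟨s, rfl⟩
        rw [Subgroup.mem_bot]
        rcases Int.units_eq_one_or (π s) with h2 | h2
        · exact h2
        · exact absurd ⟨s, h2⟩ hex
      rw [h1, Subgroup.card_bot]
      simp

end Pool.Agent.Lib.P0c8ca5.Bw
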