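import Mathlib
import Pool.Agent.Lib.P0c8ca5Bw.FinU
import Pool.Agent.Lib.P0c8ca5Bw.TauE

/-!
# Blockwise congruences: rational elements

`gap_of_rat`: if the block `e` of `G` vanishes on the centralizers of the `p ^ r`-th powers of those
p-elements of the normalizers `N(Q)` of the p-subgroups `Q` that are p-rational in `N(Q)/Q`, and
there is a rotation of order `p ^ r`, then `l(B) = w(B)` modulo `p`.
`gap_of_rinv`: `p = 2`, real blocks.
-/

namespace Pool.Agent.Lib.P0c8ca5.Bw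

open MonoidAlgebra TFinAux

universe u v

/-- the nontrivial `q`-th powers of the p-rational p-elements -/
def Sr (p q : ℕ) (X : Type*) [Group X] : Set X :=
  {u | u ≠ 1 ∧ ∃ x : X, Pel p x ∧ PRat p x ∧ x ^ q = u}

/-- the nontrivial fourth powers of the rational 2-elements that are products of two involutions -/
def Sri (X : Type*) [Group X] : Set X :=
  {u | u ≠ 1 ∧ ∃ r s : X, r ^ 2 = 1 ∧ s ^ 2 = 1 ∧ Pel 2 (r * s) ∧ PRat 2 (r * s) ∧
    (r * s) ^ 4 = u}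

theorem cInv_Sr (p q : ℕ) (X : Type*) [Group X] : CInv (Sr p q X) := by
  refine cInv_of ?_
  rintro g u ⟨h1, x, h2, h3, h4⟩
  refine ⟨fun h => h1 (conj_eq_one_iff.1 h), g * x * g⁻¹, (pel_conj' g x).2 h2,
    (GalE.pRat_conj g x).2 h3, ?_⟩
  rw [conj_pow, h4]

theorem pSet_Sr (p q : ℕ) (X : Type*) [Group X] : PSet p (Sr p q X) := by
  rintro u ⟨h1, x, h2, _, h3⟩
  exact ⟨h3 ▸ pel_pow h2 q, h1⟩

theorem cInv_Sri (X : Type*) [Group X] : CInv (Sri X) := by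
  refine cInv_of ?_
  rintro g u ⟨h1, r, s, h2, h3, h4, h6, h5⟩
  have e : g * r * g⁻¹ * (g * s * g⁻¹) = g * (r * s) * g⁻¹ := by group
  refine ⟨fun h => h1 (conj_eq_one_iff.1 h), g * r * g⁻¹, g * s * g⁻¹, ?_, ?_, ?_, ?_, ?_⟩
  · rw [conj_pow, h2, mul_one, mul_inv_cancel]
  · rw [conj_pow, h3, mul_one, mul_inv_cancel]
  · rw [e]
    exact (pel_conj' g _).2 h4
  · rw [e]
    exact (GalE.pRat_conj g _).2 h6
  · rw [e, conj_pow, h5]

theorem pSet_Sri (X : Type*) [Group X] : PSet 2 (Sri X) := by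
  rintro u ⟨h1, r, s, _, _, h4, _, h5⟩
  exact ⟨h5 ▸ pel_pow h4 4, h1⟩

theorem pw_Sr (p q : ℕ) (X : Type*) [Group X] :
    ∀ u ∈ Sr p q X, ∀ j : ℕ, u ^ j ≠ 1 → u ^ j ∈ Sr p q X := by
  rintro u ⟨_, x, h2, h3, h4⟩ j hj
  refine ⟨hj, x ^ j, pel_pow h2 j, GalE.pRat_of_pow j h3, ?_⟩
  rw [← pow_mul, mul_comm, pow_mul, h4]

theorem pw_Sri (X : Type*) [Group X] : ∀ u ∈ Sri X, ∀ j : ℕ, u ^ j ≠ 1 → u ^ j ∈ Sri X := by
  rintro u ⟨_, r, s, h2, h3, h4, h5, h6⟩ j hj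
  have hr : r * r = 1 := by rw [← pow_two, h2]
  have hs : s * s = 1 := by rw [← pow_two, h3]
  have hr' : r⁻¹ = r := inv_eq_of_mul_eq_one_left hr
  have hs' : s⁻¹ = s := inv_eq_of_mul_eq_one_left hs
  have e1 : r * (r * s) * r⁻¹ = (r * s)⁻¹ := by
    rw [mul_inv_rev, hr', hs', ← mul_assoc, hr, one_mul]
  have e2 : r * (r * s) ^ j * r⁻¹ = ((r * s) ^ j)⁻¹ := by
    rw [← conj_pow, e1, inv_pow]
  have e3 : r * (r * (r * s) ^ j) = (r * s) ^ j := by rw [← mul_assoc, hr, one_mul]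
  refine ⟨hj, r, r * (r * s) ^ j, h2, ?_, ?_, ?_, ?_⟩
  · rw [pow_two]
    have e4 : r * (r * s) ^ j * (r * (r * s) ^ j)
        = r * (r * s) ^ j * r⁻¹ * (r * s) ^ j := by
      rw [hr']
      group
    rw [e4, e2, inv_mul_cancel]
  · rw [e3]
    exact pel_pow h4 j
  · rw [e3]
    exact GalE.pRat_of_pow j h5
  · rw [e3, ← pow_mul, mul_comm, pow_mul, h6]

theorem pRat_coe {p : ℕ} {X : Type*} [Group X] {U : Subgroup X} {x : ↥U} (h : PRat p x) :
    PRat p (x : X) := by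
  intro j hj
  obtain ⟨c, hc⟩ := isConj_iff.1 (h j hj)
  refine isConj_iff.2 ⟨c, ?_⟩
  have h1 := congrArg Subtype.val hc
  simpa using h1

section
variable {p : ℕ} {X : Type*} [Group X] {S : Set X} {U : Subgroup X}

/-- the elements of `U` outside `S` -/
def cp (p : ℕ) (S : Set X) (U : Subgroup X) : Set ↥U :=
  {x | (x : X) ∈ {u : X | Pel p u ∧ u ≠ 1 ∧ u ∉ S}}

theorem pSet_cp : PSet p (cp p S U) := by
  rintro u ⟨h1, h2, _⟩
  exact ⟨(DCAux.pel_coe u).1 h1, fun h => h2 (by rw [h]; rfl)⟩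

theorem PS_cp_C (hC : CInv S) (q : ℕ) : CInv (PS p q (cp p S U)) := by
  intro g x
  have h1 : CInv (cp p S U) := cInv_dn (cInv_compl hC) U
  exact and_congr (pel_conj' g x) (by rw [conj_pow]; exact h1 g (x ^ q))

theorem PS_cp_st [Finite X] (hpw : ∀ u ∈ S, ∀ j : ℕ, u ^ j ≠ 1 → u ^ j ∈ S) (q : ℕ) (j : ℕ)
    (hj : (Nat.card ↥U).Coprime j) : ∀ x ∈ PS p q (cp p S U), x ^ j ∈ PS p q (cp p S U) := by
  rintro x ⟨h1, h2, h3, h4⟩
  have hq : (x ^ j) ^ q = (x ^ q) ^ j := by rw [← pow_mul, ← pow_mul, mul_comm]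
  refine ⟨pel_pow h1 j, ?_⟩
  rw [hq]
  set u := x ^ q with hu
  obtain ⟨i, hi⟩ := exists_pow_eq_self_of_coprime (x := u)
    ((hj.coprime_dvd_left (orderOf_dvd_natCard u)).symm)
  have hi' : (((u ^ j : ↥U) : X)) ^ i = (u : X) := by
    have h5 := congrArg Subtype.val hi
    simpa using h5
  refine ⟨?_, ?_, ?_⟩
  · rw [Subgroup.coe_pow]
    exact pel_pow h2 j
  · intro h5
    apply h3
    rw [← hi', h5, one_pow]
  · intro h5
    apply h4
    rw [← hi']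
    refine hpw _ h5 i ?_
    rw [hi']
    exact h3

theorem PS_cp_ne (q : ℕ) : ∀ x ∈ PS p q (cp p S U), Pel p x ∧ x ^ q ≠ 1 := by
  rintro x ⟨h1, _, h3, _⟩
  exact ⟨h1, fun h => h3 (by rw [h]; rfl)⟩

end

/-- the rest does not contribute: powers of p-rational elements -/
theorem rest_rat {p r s : ℕ} [Fact p.Prime] (E : ∀ (X : Type u) [Group X], X × X × X → X × X × X)
    (hE : ∀ (X : Type u) [Group X], IsRot (p ^ r) (E X))
    (T : ∀ (X : Type u) [Group X], X → X → X × X × X)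
    (hT : ∀ (X : Type u) [Group X], IsPar (p ^ r) s (E X) (T X)) (X : Type u) [Group X] [Finite X]
    {m : X → ℤ} (hm : IsWt p ⊤ m) :
    (p : ℤ) * (Nat.card X : ℤ) ∣ eS p {u : X | Pel p u ∧ u ≠ 1 ∧ u ∉ Sr p (p ^ r) X} m := by
  refine eS_of_bS (cInv_compl (cInv_Sr p _ X)) hm (fun U hU => ?_)
  rw [← bS_dn]
  have hO := (NoP_dn U).2 hU
  have h1 := bS_congr_pS (hE ↥U) (hT ↥U) hO
    (S := cp p (Sr p (p ^ r) X) U) (cInv_dn (cInv_compl (cInv_Sr p _ X)) U) pSet_cp (IsWt_dn U hm)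
  rw [pS_eq_pP] at h1
  have h2 := pP_rat hO (q := p ^ r) (s := s) (PS_cp_C (U := U) (cInv_Sr p (p ^ r) X) (p ^ r))
    (PS_cp_st (pw_Sr p (p ^ r) X) (p ^ r)) (PS_cp_ne (p ^ r)) (IsWt_dn U hm)
  have h3 : pP p (p ^ r) s (Rt p (PS p (p ^ r) (cp p (Sr p (p ^ r) X) U)))
      (fun x : ↥U => m x) = 0 := by
    classical
    unfold pP
    refine finsum_eq_zero_of_forall_eq_zero (fun y => ?_)
    rw [if_neg]
    rintro ⟨⟨⟨h4, _, h5, h6⟩, h7⟩, _⟩
    apply h6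
    refine ⟨h5, (y.1 : X), (DCAux.pel_coe _).2 h4, pRat_coe h7, ?_⟩
    simp
  rw [h3, sub_zero] at h2
  have h4 := dvd_add h1 h2
  rwa [sub_add_cancel] at h4

/-- the rest does not contribute: products of two involutions, real weights -/
theorem rest_rinv (X : Type u) [Group X] [Finite X] {m : X → ℤ} (hm : IsWt 2 ⊤ m)
    (hr : ∀ x, m x⁻¹ = m x) :
    (2 : ℤ) * (Nat.card X : ℤ) ∣ eS 2 {u : X | Pel 2 u ∧ u ≠ 1 ∧ u ∉ Sri X} m := by
  have : Fact (Nat.Prime 2) := ⟨Nat.prime_two⟩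
  refine eS_of_bS (p := 2) (cInv_compl (cInv_Sri X)) hm (fun U hU => ?_)
  rw [← bS_dn]
  have hO := (NoP_dn U).2 hU
  have hst := PS_cp_st (p := 2) (U := U) (pw_Sri X) 4
  have hC := PS_cp_C (p := 2) (U := U) (cInv_Sri X) 4
  have h1 := bS_congr_pS (p := 2) (r := 2) (s := 2) (E := E4) (T := T4) (A := ↥U)
    (by norm_num; exact E4_isRot) (by norm_num; exact T4_isPar) hO
    (S := cp 2 (Sri X) U) (cInv_dn (cInv_compl (cInv_Sri X)) U) pSet_cp (IsWt_dn U hm)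
  rw [pS_eq_pP] at h1
  have h2 := pP_rat hO (q := 4) (s := 2) hC hst (PS_cp_ne 4) (IsWt_dn U hm)
  have hi0 : ∀ x : ↥U, x ∈ Rt 2 (PS 2 4 (cp 2 (Sri X) U)) →
      x⁻¹ ∈ Rt 2 (PS 2 4 (cp 2 (Sri X) U)) := by
    rintro x ⟨h3, h4⟩
    obtain ⟨n, hn⟩ := h3.1
    have hn1 : x ^ (2 ^ (n + 1)) = 1 := by rw [pow_succ, pow_mul, hn, one_pow]
    have h5 : x⁻¹ = x ^ (2 ^ (n + 1) - 1) := by
      rw [inv_eq_iff_mul_eq_one, ← pow_succ', Nat.sub_add_cancel Nat.one_le_two_pow, hn1]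
    have hodd : (2 ^ (n + 1) - 1) ≡ 1 [MOD 2] := by
      have h7 : (2 : ℕ) ^ (n + 1) = 2 * 2 ^ n := by rw [pow_succ, mul_comm]
      have h8 : 1 ≤ 2 ^ n := Nat.one_le_two_pow
      rw [h7]
      unfold Nat.ModEq
      omega
    have h6 : IsConj x x⁻¹ := by
      rw [h5]
      exact h4 _ hodd
    obtain ⟨c, hc⟩ := isConj_iff.1 h6
    rw [← hc]
    exact ⟨(hC c x).2 h3, (GalE.pRat_conj c x).2 h4⟩
  have hCR : CInv (Rt 2 (PS 2 4 (cp 2 (Sri X) U))) := by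
    intro g x
    exact and_congr (hC g x) (GalE.pRat_conj g x)
  have h5 := pP_congr_tP hO hCR (fun x => ⟨fun h => by
    have h6 := hi0 _ h
    rwa [inv_inv] at h6, hi0 x⟩) (IsWt_dn U hm) (fun x => by
      change m ((x⁻¹ : ↥U) : X) = m (x : X)
      rw [Subgroup.coe_inv, hr])
  have h3 : tP (Rt 2 (PS 2 4 (cp 2 (Sri X) U))) (fun x : ↥U => m x) = 0 := by
    classical
    unfold tP
    refine finsum_eq_zero_of_forall_eq_zero (fun y => ?_)
    rw [if_neg]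
    rintro ⟨h4, h5, _, _, ⟨⟨h8, _, h10, h11⟩, h9⟩, _⟩
    apply h11
    refine ⟨h10, (y.1 : X), (y.2.1 : X), ?_, ?_, ?_, ?_, ?_⟩
    · have := congrArg Subtype.val h4
      simpa using this
    · have := congrArg Subtype.val h5
      simpa using this
    · have := (DCAux.pel_coe (p := 2) (y.1 * y.2.1)).2 h8
      simpa using this
    · have := pRat_coe h9
      simpa using this
    · simp
  rw [h3, sub_zero] at h5
  norm_num at h1 h2 h5
  have h6 := dvd_add (dvd_add h1 h2) h5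
  rw [sub_add_sub_cancel, sub_add_cancel] at h6
  push_cast
  exact h6

/-- **Blockwise congruence.** If the block `e` vanishes on the centralizers of the `x ^ p ^ r`, `x`
a p-element of the normalizer of a p-subgroup `Q` with `x ^ p ^ r ∉ Q`, `x` p-rational modulo `Q`,
then `l(B) = w(B)` modulo `p`. -/
theorem gap_of_rat {p r s : ℕ} [Fact p.Prime] {k : Type v} [Field k] [IsAlgClosed k] [CharP k p]
    (E : ∀ (X : Type u) [Group X], X × X × X → X × X × X)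
    (hE : ∀ (X : Type u) [Group X], IsRot (p ^ r) (E X))
    (T : ∀ (X : Type u) [Group X], X → X → X × X × X)
    (hT : ∀ (X : Type u) [Group X], IsPar (p ^ r) s (E X) (T X)) (G : Type u) [Group G] [Finite G]
    {e : MonoidAlgebra k G} (he : IsBlock (⊤ : Subgroup G) e)
    (h : ∀ Q : Subgroup G, IsPGroup p Q → ∀ x : ↥(Subgroup.normalizer (Q : Set G)),
      Pel p (x : G) → (x : G) ^ p ^ r ∉ Q → PRat p (QuotientGroup.mk x : NQ Q) →
      ∀ c : G, c * (x : G) ^ p ^ r = (x : G) ^ p ^ r * c → e.coeff c = 0) :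
    ∃ t : ℤ, gap p (⊤ : Subgroup G) ⊤ e = (p : ℚ) * t := by
  have : Fintype G := Fintype.ofFinite G
  refine gap_of_Lam he ?_
  let S : ∀ Q : Subgroup G, Set (NQ Q) := fun Q => Sr p (p ^ r) (NQ Q)
  have h1 : Lam p e + ∑ Q ∈ TT p G, TQ p S Q e = 0 := by
    refine blk_of_wt (p := p) (Θ := fun z => Lam p z + ∑ Q ∈ TT p G, TQ p S Q z)
      (Th_add S) (Th_smul S) (fun m hm => ?_) he
    change Lam p (zel k m) + ∑ Q ∈ TT p G, TQ p S Q (zel k m) = 0
    rw [Lam_eq hm S (fun Q => cInv_Sr p _ _), neg_add_cancel]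
    intro Q _
    rw [eA_sub_eE_split (pSet_Sr p (p ^ r) (NQ Q)), add_sub_cancel_left]
    exact rest_rat E hE T hT (NQ Q) (mb_isWt Q hm)
  have h2 : ∑ Q ∈ TT p G, TQ p S Q e = 0 := by
    refine Finset.sum_eq_zero (fun Q hQ => ?_)
    refine TQ_blk_zero (fun Q => cInv_Sr p _ _) (fun Q => pSet_Sr p _ _) he ?_ (mem_TT hQ)
    rintro Q hQ u ⟨hu, x, hx, hxr, rfl⟩
    obtain ⟨y, rfl⟩ := QuotientGroup.mk_surjective x
    have hy : Pel p (y : G) := by
      obtain ⟨n, hn⟩ := hx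
      rw [← QuotientGroup.mk_pow, QuotientGroup.eq_one_iff, Subgroup.mem_subgroupOf] at hn
      obtain ⟨l, hl⟩ := hQ ⟨_, hn⟩
      refine ⟨n + l, ?_⟩
      have h3 := congrArg Subtype.val hl
      rw [pow_add, pow_mul]
      simpa using h3
    refine ⟨y ^ p ^ r, rfl, ?_, ?_⟩
    · rw [Subgroup.coe_pow]
      exact pel_pow hy _
    · intro c hc
      rw [Subgroup.coe_pow] at hc
      refine h Q hQ y hy (fun h4 => hu ?_) hxr c hc
      rw [← QuotientGroup.mk_pow, QuotientGroup.eq_one_iff, Subgroup.mem_subgroupOf,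
        Subgroup.coe_pow]
      exact h4
  rwa [h2, add_zero] at h1

/-- **Real 2-blocks.** If the real 2-block `e` vanishes on the centralizer of `(r s) ^ 4` for all
2-subgroups `Q` and all `r, s` in the normalizer of `Q` with `r², s² ∈ Q`, `r s` a 2-element,
`(r s) ^ 4 ∉ Q`, `r s` rational modulo `Q`, then `l(B) = w(B)` modulo `2`. -/
theorem gap_of_rinv {k : Type v} [Field k] [IsAlgClosed k] [CharP k 2]
    (G : Type u) [Group G] [Finite G] {e : MonoidAlgebra k G} (he : IsBlock (⊤ : Subgroup G) e)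
    (hreal : ∀ x, e.coeff x⁻¹ = e.coeff x)
    (h : ∀ Q : Subgroup G, IsPGroup 2 Q → ∀ r s : ↥(Subgroup.normalizer (Q : Set G)),
      (r : G) ^ 2 ∈ Q → (s : G) ^ 2 ∈ Q → Pel 2 ((r : G) * s) →
      ((r : G) * s) ^ 4 ∉ Q → PRat 2 (QuotientGroup.mk (r * s) : NQ Q) →
      ∀ c : G, c * ((r : G) * s) ^ 4 = ((r : G) * s) ^ 4 * c → e.coeff c = 0) :
    ∃ t : ℤ, gap 2 (⊤ : Subgroup G) ⊤ e = (2 : ℚ) * t := by
  have : Fintype G := Fintype.ofFinite G
  have : Fact (Nat.Prime 2) := ⟨Nat.prime_two⟩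
  have key := gap_of_Lam (p := 2) he ?_
  · exact_mod_cast key
  let S : ∀ Q : Subgroup G, Set (NQ Q) := fun Q => Sri (NQ Q)
  have h1 : Lam 2 e + ∑ Q ∈ TT 2 G, TQ 2 S Q e = 0 := by
    refine blk_of_real (p := 2) (Θ := fun z => Lam 2 z + ∑ Q ∈ TT 2 G, TQ 2 S Q z)
      (Th_add S) (Th_smul S) (fun m hm hr => ?_) he hreal
    change Lam 2 (zel k m) + ∑ Q ∈ TT 2 G, TQ 2 S Q (zel k m) = 0
    rw [Lam_eq hm S (fun Q => cInv_Sri _), neg_add_cancel]
    intro Q _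
    rw [eA_sub_eE_split (pSet_Sri (NQ Q)), add_sub_cancel_left]
    exact rest_rinv (NQ Q) (mb_isWt Q hm) (mb_real Q hr)
  have h2 : ∑ Q ∈ TT 2 G, TQ 2 S Q e = 0 := by
    refine Finset.sum_eq_zero (fun Q hQ => ?_)
    refine TQ_blk_zero (fun Q => cInv_Sri _) (fun Q => pSet_Sri _) he ?_ (mem_TT hQ)
    rintro Q hQ u ⟨hu, r, s, hr, hs, hrs, hrat, rfl⟩
    obtain ⟨r, rfl⟩ := QuotientGroup.mk_surjective r
    obtain ⟨s, rfl⟩ := QuotientGroup.mk_surjective s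
    rw [← QuotientGroup.mk_pow, QuotientGroup.eq_one_iff, Subgroup.mem_subgroupOf,
      Subgroup.coe_pow] at hr hs
    have hy : Pel 2 ((r : G) * s) := by
      obtain ⟨n, hn⟩ := hrs
      rw [← QuotientGroup.mk_mul, ← QuotientGroup.mk_pow, QuotientGroup.eq_one_iff,
        Subgroup.mem_subgroupOf] at hn
      obtain ⟨l, hl⟩ := hQ ⟨_, hn⟩
      refine ⟨n + l, ?_⟩
      have h3 := congrArg Subtype.val hl
      rw [pow_add, pow_mul]
      simpa using h3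
    refine ⟨(r * s) ^ 4, rfl, ?_, ?_⟩
    · rw [Subgroup.coe_pow, Subgroup.coe_mul]
      exact pel_pow hy _
    · intro c hc
      rw [Subgroup.coe_pow, Subgroup.coe_mul] at hc
      rw [← QuotientGroup.mk_mul] at hrat
      refine h Q hQ r s hr hs hy (fun h4 => hu ?_) hrat c hc
      rw [← QuotientGroup.mk_mul, ← QuotientGroup.mk_pow, QuotientGroup.eq_one_iff,
        Subgroup.mem_subgroupOf, Subgroup.coe_pow, Subgroup.coe_mul]
      exact h4
  rwa [h2, add_zero] at h1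

end Pool.Agent.Lib.P0c8ca5.Bw
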