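import Mathlib
import Pool.Agent.Lib.P0c8ca5V.ClsF
import Pool.Agent.Lib.P0c8ca5Bw.InvA
import Pool.Agent.Lib.P0c8ca5Bw.PDef

/-! Triples of involutions with a given set of products `r s` and single conjugacy classes. -/

namespace Pool.Agent.Lib.P0c8ca5.Bw

variable {G : Type*} [Group G] [Finite G]

namespace InvBAux

open Classical in
/-- the triples counted by `tP` -/
def GoodP {G : Type*} [Group G] (S : Set G) (y : G × G × G) : Prop :=
  y.1 ^ 2 = 1 ∧ y.2.1 ^ 2 = 1 ∧ y.2.2 ^ 2 = 1 ∧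
    y.1 * y.2.2 = y.2.2 * y.1 ∧ y.1 * y.2.1 ∈ S ∧
    Opr 2 (⊤ : Subgroup G) ≤ Subgroup.closure {y.1, y.2.1, y.2.2}

open Classical in
theorem tP_sum {G : Type*} [Group G] [Fintype G] (S : Set G) (m : G → ℤ) :
    tP S m = ∑ y : G × G × G, if GoodP S y then m ((y.1 * y.2.1 * y.2.2) ^ 4) else 0 := by
  unfold tP
  rw [finsum_eq_sum_of_fintype]
  refine Finset.sum_congr rfl (fun y _ => ?_)
  by_cases h : GoodP S y
  · rw [if_pos h]
    exact if_pos h
  · rw [if_neg h]
    exact if_neg h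

end InvBAux

open InvAAux InvBAux

/-- the rational 2-elements of order at least 8 -/
def Pq (G : Type*) [Group G] : Set G := {x | Pel 2 x ∧ x ^ 4 ≠ 1 ∧ PRat 2 x}

open Classical in
theorem tP_class (x : G) :
    ((Nat.card {y : G × G × G // y.1 ^ 2 = 1 ∧ y.2.1 ^ 2 = 1 ∧ y.2.2 ^ 2 = 1 ∧
        y.1 * y.2.2 = y.2.2 * y.1 ∧ Pel 2 (y.1 * y.2.1) ∧ (y.1 * y.2.1) ^ 4 ≠ 1 ∧
        (∀ j : ℕ, j ≡ 1 [MOD 2] → IsConj (y.1 * y.2.1) ((y.1 * y.2.1) ^ j)) ∧
        IsConj x ((y.1 * y.2.1 * y.2.2) ^ 4) ∧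
        ∀ w : G, Preg 2 w → w ∈ Subgroup.closure ({y.1, y.2.1, y.2.2} : Set G)} : ℕ) : ℤ)
      = tP (Pq G) (fun c => if IsConj x c then 1 else 0) := by
  have : Fintype G := Fintype.ofFinite G
  rw [tP_sum, Nat.card_eq_fintype_card, Fintype.card_subtype, Finset.card_filter]
  push_cast
  refine Finset.sum_congr rfl (fun y _ => ?_)
  by_cases h : GoodP (Pq G) y
  · rw [if_pos h]
    by_cases h2 : IsConj x ((y.1 * y.2.1 * y.2.2) ^ 4)
    · rw [if_pos h2]
      obtain ⟨a1, a2, a3, a4, ⟨a5, a6, a8⟩, a7⟩ := h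
      rw [if_pos ⟨a1, a2, a3, a4, a5, a6, a8, h2, (ClsFAux.opr_le_iff _).1 a7⟩]
    · rw [if_neg h2, if_neg (fun h3 => h2 h3.2.2.2.2.2.2.2.1)]
  · rw [if_neg h, if_neg]
    rintro ⟨a1, a2, a3, a4, a5, a6, a8, _, a7⟩
    exact h ⟨a1, a2, a3, a4, ⟨a5, a6, a8⟩, (ClsFAux.opr_le_iff _).2 a7⟩

open Classical in
theorem tP_iff_class (S : Set G) (q : ℤ) :
    (∀ m : G → ℤ, IsWt 2 ⊤ m → q ∣ tP S m) ↔
    ∀ x : G, Preg 2 x → q ∣ tP S (fun c => if IsConj x c then 1 else 0) := by
  have : Fintype G := Fintype.ofFinite G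
  constructor
  · intro h x hx
    refine h _ ⟨fun g _ y => ?_, fun y hy => ?_⟩
    · have h1 : IsConj y (g * y * g⁻¹) := isConj_iff.2 ⟨g, rfl⟩
      by_cases h2 : IsConj x y
      · rw [if_pos h2, if_pos (h2.trans h1)]
      · rw [if_neg h2, if_neg (fun h3 => h2 (h3.trans h1.symm))]
    · by_cases h2 : IsConj x y
      · intro hd
        obtain ⟨c, hc⟩ := isConj_iff.1 h2
        apply hx
        rw [← hc] at hd
        have e1 : orderOf (c * x * c⁻¹) = orderOf x := by
          have := orderOf_injective (MulAut.conj c).toMonoidHom (MulAut.conj c).injective x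
          rw [← this]
          rfl
        rwa [e1] at hd
      · exact absurd (if_neg h2) hy
  · intro h m hm
    have key : tP S m
        = ∑ X : ConjClasses G, m (Quotient.out X) * tP S (ind (Quotient.out X)) := by
      simp only [tP_sum, Finset.mul_sum]
      rw [Finset.sum_comm]
      refine Finset.sum_congr rfl (fun y _ => ?_)
      by_cases hg : GoodP S y
      · simp only [if_pos hg]
        rw [Finset.sum_eq_single (ConjClasses.mk ((y.1 * y.2.1 * y.2.2) ^ 4))]
        · have h1 : IsConj (Quotient.out (ConjClasses.mk ((y.1 * y.2.1 * y.2.2) ^ 4)))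
              ((y.1 * y.2.1 * y.2.2) ^ 4) :=
            ConjClasses.mk_eq_mk_iff_isConj.1 (Quotient.out_eq _)
          rw [ind_pos h1, mul_one]
          obtain ⟨c, hc⟩ := isConj_iff.1 h1
          have h2 := hm.conj c (Subgroup.mem_top c)
            (Quotient.out (ConjClasses.mk ((y.1 * y.2.1 * y.2.2) ^ 4)))
          rw [hc] at h2
          exact h2
        · intro X _ hX
          rw [ind_neg, mul_zero]
          intro h1
          apply hX
          have h2 := ConjClasses.mk_eq_mk_iff_isConj.2 h1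
          rw [← h2]
          exact (Quotient.out_eq X).symm
        · intro h1
          exact absurd (Finset.mem_univ _) h1
      · simp only [if_neg hg, mul_zero, Finset.sum_const_zero]
    rw [key]
    refine Finset.dvd_sum (fun X _ => ?_)
    by_cases h0 : m (Quotient.out X) = 0
    · rw [h0, zero_mul]
      exact dvd_zero q
    · exact Dvd.dvd.mul_left (h _ (hm.reg _ h0)) _

open Classical in
theorem tP_nonreal (S : Set G) {x : G} (hx : ¬ IsConj x x⁻¹) :
    tP S (fun c => if IsConj x c then 1 else 0) = 0 := by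
  have : Fintype G := Fintype.ofFinite G
  rw [tP_sum]
  refine Finset.sum_eq_zero (fun y _ => ?_)
  by_cases h : GoodP S y
  · rw [if_pos h, if_neg]
    intro h1
    apply hx
    obtain ⟨a1, a2, a3, a4, -⟩ := h
    have h2 : IsConj ((y.1 * y.2.1 * y.2.2) ^ 4) ((y.1 * y.2.1 * y.2.2) ^ 4)⁻¹ := by
      rw [← inv_pow]
      exact isConj_pow (real_prod a1 a2 a3 a4) 4
    exact (h1.trans h2).trans (isConj_inv h1).symm
  · rw [if_neg h]

end Pool.Agent.Lib.P0c8ca5.Bw
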