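import Mathlib
import Pool.Agent.Lib.P0c8ca5Bw.Inv
import Pool.Agent.Lib.P0c8ca5Bw.InvB
import Pool.Agent.Lib.P0c8ca5Bw.FinR

/-!
# The blockwise weight conjecture at `p = 2` and triples of involutions, rational elements
-/

namespace Pool.Agent.Lib.P0c8ca5.Bw

open MonoidAlgebra TFinAux

universe u v

theorem PS_all_eq (X : Type*) [Group X] : Rt 2 (PS 2 4 (Sall 2 X)) = Pq X := by
  ext x
  constructor
  · rintro ⟨⟨h1, _, h2⟩, h3⟩
    exact ⟨h1, h2, h3⟩
  · rintro ⟨h1, h2, h3⟩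
    exact ⟨⟨h1, pel_pow h1 4, h2⟩, h3⟩

theorem cInv_PS_all (X : Type*) [Group X] : CInv (PS 2 4 (Sall 2 X)) := by
  intro g x
  exact and_congr (pel_conj' g x) (by rw [conj_pow]; exact cInv_all 2 X g (x ^ 4))

theorem cInv_Pq (X : Type*) [Group X] : CInv (Pq X) := by
  rw [← PS_all_eq]
  intro g x
  exact and_congr (cInv_PS_all X g x) (GalE.pRat_conj g x)

theorem inv_Pq (X : Type*) [Group X] (x : X) : x⁻¹ ∈ Pq X ↔ x ∈ Pq X := by
  have h0 : ∀ x : X, x ∈ Pq X → x⁻¹ ∈ Pq X := by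
    rintro x ⟨⟨n, hn⟩, h3, h4⟩
    have hn1 : x ^ (2 ^ (n + 1)) = 1 := by rw [pow_succ, pow_mul, hn, one_pow]
    have h5 : x⁻¹ = x ^ (2 ^ (n + 1) - 1) := by
      rw [inv_eq_iff_mul_eq_one, ← pow_succ', Nat.sub_add_cancel Nat.one_le_two_pow, hn1]
    have hodd : (2 ^ (n + 1) - 1) ≡ 1 [MOD 2] := by
      have h7 : (2 : ℕ) ^ (n + 1) = 2 * 2 ^ n := by rw [pow_succ, mul_comm]
      have h8 : 1 ≤ 2 ^ n := Nat.one_le_two_pow
      rw [h7]
      unfold Nat.ModEq
      omega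
    have h6 : IsConj x x⁻¹ := by
      rw [h5]
      exact h4 _ hodd
    obtain ⟨c, hc⟩ := isConj_iff.1 h6
    rw [← hc]
    exact (cInv_Pq X c x).2 ⟨⟨n, hn⟩, h3, h4⟩
  refine ⟨fun h => ?_, h0 x⟩
  have h1 := h0 _ h
  rwa [inv_inv] at h1

/-- triples and triples of involutions with `r s` rational, for real weights -/
theorem bB_congr_tP {X : Type u} [Group X] [Finite X] (hO : NoP 2 (⊤ : Subgroup X)) {m : X → ℤ}
    (hm : IsWt 2 ⊤ m) (hr : ∀ x, m x⁻¹ = m x) :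
    (2 : ℤ) * (ordProj[2] (Nat.card X) : ℕ) ∣ bB 2 (⊤ : Subgroup X) m - tP (Pq X) m := by
  have : Fact (Nat.Prime 2) := ⟨Nat.prime_two⟩
  have h1 := bS_congr_pS (p := 2) (r := 2) (s := 2) (E := E4) (T := T4) (A := X)
    (by norm_num; exact E4_isRot) (by norm_num; exact T4_isPar) hO (cInv_all 2 X)
    (pSet_all 2 X) hm
  rw [bS_all, pS_eq_pP] at h1
  have h2 := pP_rat hO (q := 4) (s := 2) (P := PS 2 4 (Sall 2 X)) (cInv_PS_all X)
    (fun j hj x hx => ⟨pel_pow hx.1 j, by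
      have hq : (x ^ j) ^ 4 = (x ^ 4) ^ j := by rw [← pow_mul, ← pow_mul, mul_comm]
      rw [hq]
      refine ⟨pel_pow hx.2.1 j, fun h => hx.2.2 ?_⟩
      exact (powCoprime hj).injective (by
        change (x ^ 4) ^ j = (1 : X) ^ j
        rw [h, one_pow])⟩)
    (fun x hx => ⟨hx.1, hx.2.2⟩) hm
  rw [PS_all_eq] at h2
  have h5 := pP_congr_tP hO (cInv_Pq X) (inv_Pq X) hm hr
  norm_num at h1 h2 h5
  have h6 := dvd_add (dvd_add h1 h2) h5
  rw [sub_add_sub_cancel, sub_add_sub_cancel] at h6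
  push_cast
  exact h6

/-- **The blockwise weight conjecture at `p = 2` is a parity statement on triples of involutions
(regular maps) with `r s` rational.** -/
theorem baw_iff_rinv {k : Type v} [Field k] [IsAlgClosed k] [CharP k 2] :
    (∀ (G : Type u) [Group G] [Finite G] (b : MonoidAlgebra k G), IsBlock (⊤ : Subgroup G) b →
      gap 2 (⊤ : Subgroup G) ⊤ b = 0) ↔
    (∀ (G : Type u) [Group G] [Finite G], NoP 2 (⊤ : Subgroup G) → ∀ x : G, Preg 2 x →
      2 * ordProj[2] (Nat.card G) ∣ Nat.card {y : G × G × G //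
        y.1 ^ 2 = 1 ∧ y.2.1 ^ 2 = 1 ∧ y.2.2 ^ 2 = 1 ∧
        y.1 * y.2.2 = y.2.2 * y.1 ∧ Pel 2 (y.1 * y.2.1) ∧ (y.1 * y.2.1) ^ 4 ≠ 1 ∧
        (∀ j : ℕ, j ≡ 1 [MOD 2] → IsConj (y.1 * y.2.1) ((y.1 * y.2.1) ^ j)) ∧
        IsConj x ((y.1 * y.2.1 * y.2.2) ^ 4) ∧
        ∀ w : G, Preg 2 w → w ∈ Subgroup.closure ({y.1, y.2.1, y.2.2} : Set G)}) := by
  classical
  have : Fact (Nat.Prime 2) := ⟨Nat.prime_two⟩
  constructor
  · intro h G _ _ hG x hx
    rw [← Int.natCast_dvd_natCast, tP_class]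
    push_cast
    by_cases hr : IsConj x x⁻¹
    · have h1 := (baw_iff_triples (p := 2) (k := k)).1 (fun G _ _ b hb => ⟨0, by
        rw [h G b hb]
        simp⟩) G hG x hx
      rw [← Int.natCast_dvd_natCast, bB_class] at h1
      push_cast at h1
      have h2 := bB_congr_tP hG (isWt_ind hx) (real_ind hr)
      push_cast at h2
      exact (dvd_sub_right h1).1 h2
    · rw [tP_nonreal _ hr]
      exact dvd_zero _
  · intro h
    refine amp (p := 2) (fun G _ _ b hb => ?_)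
    have key := all_blocks (k := k) (fun G _ _ e he hreal => ?_) G b hb
    · exact_mod_cast key
    refine real_blocks (fun X _ _ hO m hm hr => ?_) G he hreal
    have h1 := bB_congr_tP hO hm hr
    have h2 := (tP_iff_class (Pq X) ((2 : ℤ) * (ordProj[2] (Nat.card X) : ℕ))).2
      (fun x hx => by
        have h3 := h X hO x hx
        rw [← Int.natCast_dvd_natCast, tP_class] at h3
        push_cast at h3 ⊢
        exact h3) m hm
    have h4 := dvd_add h1 h2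
    rwa [sub_add_cancel] at h4

end Pool.Agent.Lib.P0c8ca5.Bw
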